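import Pool.Agent.TH334.NR.Char

/-!
# Query algorithms that never read a position twice: coefficients
-/

set_option autoImplicit false

namespace Pool.Agent.TH334.NR

open Finset Matrix Pool.Agent.H572R2

/-- A query algorithm. -/
structure Alg (N : ℕ) (B : Type) [Fintype B] [DecidableEq B] where
  W : ℕ → Matrix B B ℂ
  hW : ∀ t, (W t)ᴴ * W t = 1
  pos : B → Option (Fin N)
  v : B → ℂ
  hv : nsq v = 1

/-- Product of the phases over a set. -/
noncomputable def mon {N : ℕ} (u : Fin N → ℂ) (S : Finset (Fin N)) : ℂ := ∏ i ∈ S, u i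

lemma mon_union {N : ℕ} (u : Fin N → ℂ) {S R : Finset (Fin N)} (h : Disjoint S R) :
    mon u (S ∪ R) = mon u S * mon u R := Finset.prod_union h

variable {N : ℕ} {B : Type} [Fintype B] [DecidableEq B]

namespace Alg

variable (A : Alg N B)

/-- The queried set of a basis state (empty or a singleton). -/
def os (b : B) : Finset (Fin N) := (A.pos b).toFinset

/-- The state after `t` steps with phases `u`. -/
noncomputable def st (u : Fin N → ℂ) : ℕ → B → ℂ
  | 0 => A.v
  | t + 1 => A.W t *ᵥ (fun b => mon u (A.os b) * st u t b)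

/-- The coefficients. -/
noncomputable def co : ℕ → Finset (Fin N) → B → ℂ
  | 0 => fun S => if S = ∅ then A.v else 0
  | t + 1 => fun S => A.W t *ᵥ (fun b => if A.os b ⊆ S then co t (S \ A.os b) b else 0)

lemma st_zero (u : Fin N → ℂ) : A.st u 0 = A.v := rfl

lemma st_succ (u : Fin N → ℂ) (t : ℕ) :
    A.st u (t + 1) = A.W t *ᵥ (fun b => mon u (A.os b) * A.st u t b) := rfl

lemma co_zero (S : Finset (Fin N)) : A.co 0 S = if S = ∅ then A.v else 0 := rfl

lemma co_succ (t : ℕ) (S : Finset (Fin N)) :
    A.co (t + 1) S = A.W t *ᵥ (fun b => if A.os b ⊆ S then A.co t (S \ A.os b) b else 0) := rfl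

/-- The coefficients vanish at a state about to query a position which has been read. -/
def NRc (T : ℕ) : Prop := ∀ t < T, ∀ b S, ¬ Disjoint (A.os b) S → A.co t S b = 0

lemma nst {u : Fin N → ℂ} (hu : ∀ i, ‖u i‖ = 1) (t : ℕ) : nsq (A.st u t) = 1 := by
  induction t with
  | zero => exact A.hv
  | succ t ih =>
    rw [st_succ, nsq_unitary _ (A.hW t), ← ih]
    unfold nsq
    refine Finset.sum_congr rfl fun b _ => ?_
    rw [norm_mul]
    have : ‖mon u (A.os b)‖ = 1 := by
      unfold mon
      rw [norm_prod]
      exact Finset.prod_eq_one fun i _ => hu i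
    rw [this, one_mul]

end Alg

/-- Reindexing. -/
lemma reidx {α : Type} [Semiring α] (o : Finset (Fin N)) (G f : Finset (Fin N) → α)
    (hf : ∀ R, ¬ Disjoint o R → f R = 0) :
    ∑ S, G S * (if o ⊆ S then f (S \ o) else 0) = ∑ R, G (o ∪ R) * f R := by
  have h1 : ∑ S, G S * (if o ⊆ S then f (S \ o) else 0)
      = ∑ S ∈ Finset.univ.filter (fun S => o ⊆ S), G S * f (S \ o) := by
    rw [Finset.sum_filter]
    refine Finset.sum_congr rfl fun S _ => ?_
    split_ifs <;> simp
  have h2 : ∑ R, G (o ∪ R) * f R
      = ∑ R ∈ Finset.univ.filter (fun R => Disjoint o R), G (o ∪ R) * f R := by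
    rw [Finset.sum_filter]
    refine Finset.sum_congr rfl fun R _ => ?_
    split_ifs with h
    · rfl
    · rw [hf R h, mul_zero]
  rw [h1, h2]
  refine Finset.sum_nbij' (fun S => S \ o) (fun R => o ∪ R) ?_ ?_ ?_ ?_ ?_
  · intro S hS
    simp only [Finset.mem_filter, Finset.mem_univ, true_and] at hS ⊢
    exact Finset.disjoint_sdiff
  · intro R _
    simp only [Finset.mem_filter, Finset.mem_univ, true_and]
    exact Finset.subset_union_left
  · intro S hS
    simp only [Finset.mem_filter, Finset.mem_univ, true_and] at hS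
    exact Finset.union_sdiff_of_subset hS
  · intro R hR
    simp only [Finset.mem_filter, Finset.mem_univ, true_and] at hR
    exact Finset.union_sdiff_cancel_left hR
  · intro S hS
    simp only [Finset.mem_filter, Finset.mem_univ, true_and] at hS
    rw [Finset.union_sdiff_of_subset hS]

namespace Alg

variable (A : Alg N B)

/-- Expansion of the state, for all phases. -/
lemma expand {T : ℕ} (h : A.NRc T) (u : Fin N → ℂ) :
    ∀ t ≤ T, ∀ b, A.st u t b = ∑ S, mon u S * A.co t S b := by
  intro t
  induction t with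
  | zero =>
    intro _ b
    rw [Finset.sum_eq_single ∅]
    · simp [mon, co_zero, st_zero]
    · intro S _ hS
      simp [co_zero, hS]
    · intro h; exact absurd (Finset.mem_univ _) h
  | succ t ih =>
    intro ht b
    have h1 : ∀ b', mon u (A.os b') * A.st u t b'
        = ∑ S, mon u S * (if A.os b' ⊆ S then A.co t (S \ A.os b') b' else 0) := by
      intro b'
      rw [reidx (A.os b') (mon u) (fun R => A.co t R b') (h t (by omega) b'), ih (by omega) b',
        Finset.mul_sum]
      refine Finset.sum_congr rfl fun R _ => ?_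
      by_cases hd : Disjoint (A.os b') R
      · rw [mon_union u hd]; ring
      · rw [h t (by omega) b' R hd]; ring
    rw [st_succ]
    have h2 : (fun b' => mon u (A.os b') * A.st u t b')
        = fun b' => ∑ S, mon u S * (if A.os b' ⊆ S then A.co t (S \ A.os b') b' else 0) :=
      funext h1
    rw [h2]
    simp only [co_succ, mulVec, dotProduct]
    simp_rw [Finset.mul_sum]
    rw [Finset.sum_comm]
    refine Finset.sum_congr rfl fun S _ => Finset.sum_congr rfl fun b' _ => ?_
    ring

end Alg

/-- The sign phases. -/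
def sg (x : Fin N → Bool) (i : Fin N) : ℂ := if x i then -1 else 1

/-- The cube root phases. -/
noncomputable def te (z : Fin N → Fin 3) (i : Fin N) : ℂ := om ^ (z i : ℕ)

/-- The record of a set. -/
def rs (S : Finset (Fin N)) (i : Fin N) : Bool := decide (i ∈ S)

lemma rs_inj : Function.Injective (rs : Finset (Fin N) → Fin N → Bool) := by
  intro S R h
  ext i
  have := congrFun h i
  simpa [rs] using this

lemma mon_sg (x : Fin N → Bool) (S : Finset (Fin N)) : mon (sg x) S = ch c2 (rs S) x := by
  unfold mon ch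
  rw [← Finset.prod_subset (Finset.subset_univ S)]
  · refine Finset.prod_congr rfl fun i hi => ?_
    simp [c2, rs, sg, hi]
  · intro i _ hi
    simp [c2, rs, hi]

lemma norm_sg (x : Fin N → Bool) (i : Fin N) : ‖sg x i‖ = 1 := by
  unfold sg
  split_ifs <;> simp

lemma norm_om : ‖om‖ = 1 := by
  have h : ‖om‖ ^ 3 = 1 := by rw [← norm_pow, om_cube, norm_one]
  exact (pow_eq_one_iff_of_nonneg (norm_nonneg _) (by norm_num)).1 h

lemma norm_te (z : Fin N → Fin 3) (i : Fin N) : ‖te z i‖ = 1 := by
  unfold te
  rw [norm_pow, norm_om, one_pow]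

/-- Parseval for functions indexed by sets, over sign phases. -/
lemma pars_sg (a : Finset (Fin N) → ℂ) :
    EE (fun x => ‖∑ S, mon (sg x) S * a S‖ ^ 2) = ∑ S, ‖a S‖ ^ 2 := by
  have h := pars_fib orth2 (rs : Finset (Fin N) → Fin N → Bool) a
  unfold EE
  simp_rw [mon_sg]
  rw [h]
  have h2 : ∑ γ : Fin N → Bool, ‖∑ i with rs i = γ, a i‖ ^ 2 = ∑ S, ‖a S‖ ^ 2 := by
    symm
    refine Finset.sum_nbij' (fun S => rs S) (fun γ => Finset.univ.filter (fun i => γ i = true))
      (fun _ _ => Finset.mem_univ _) (fun _ _ => Finset.mem_univ _) ?_ ?_ ?_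
    · intro S _
      ext i
      simp [rs]
    · intro γ _
      funext i
      cases hγ : γ i <;> simp [rs, hγ]
    · intro S _
      have : (Finset.univ.filter (fun i => (rs i : Fin N → Bool) = rs S)) = {S} := by
        ext R
        simp only [Finset.mem_filter, Finset.mem_univ, true_and, Finset.mem_singleton]
        exact ⟨fun h => rs_inj h, fun h => by rw [h]⟩
      rw [this, Finset.sum_singleton]
  rw [h2, Fintype.card_bool]
  push_cast
  rw [mul_comm, mul_div_assoc, div_self (by positivity), mul_one]

end Pool.Agent.TH334.NR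

namespace Pool.Agent.TH334.NR

open Finset Matrix Pool.Agent.H572R2

variable {N : ℕ} {B : Type} [Fintype B] [DecidableEq B]

lemma mon_flp (x : Fin N → Bool) (j : Fin N) (S : Finset (Fin N)) :
    mon (sg (flp j x)) S = if j ∈ S then - mon (sg x) S else mon (sg x) S := by
  have hj : sg (flp j x) j = - sg x j := by
    unfold sg
    rw [flp_same]
    cases x j <;> simp
  have hne : ∀ i, i ≠ j → sg (flp j x) i = sg x i := by
    intro i hi
    unfold sg
    rw [flp_ne hi]
  unfold mon
  split_ifs with h
  · rw [← Finset.mul_prod_erase S _ h, ← Finset.mul_prod_erase S (fun i => sg x i) h, hj]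
    rw [Finset.prod_congr rfl fun i hi => hne i (Finset.ne_of_mem_erase hi)]
    ring
  · exact Finset.prod_congr rfl fun i hi => hne i (fun e => h (e ▸ hi))

/-- Coefficients of a function which does not depend on `x j`. -/
lemma coef_zero (a : Finset (Fin N) → ℂ) (j : Fin N)
    (h : ∀ x, ∑ S, mon (sg (flp j x)) S * a S = ∑ S, mon (sg x) S * a S)
    (S : Finset (Fin N)) (hS : j ∈ S) : a S = 0 := by
  have h1 : ∀ x, ∑ S, mon (sg x) S * (if j ∈ S then a S else 0) = 0 := by
    intro x
    have h2 := h x
    have h3 : ∑ S, mon (sg (flp j x)) S * a S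
        = ∑ S, mon (sg x) S * a S - 2 * ∑ S, mon (sg x) S * (if j ∈ S then a S else 0) := by
      rw [Finset.mul_sum, ← Finset.sum_sub_distrib]
      refine Finset.sum_congr rfl fun S _ => ?_
      rw [mon_flp]
      split_ifs <;> ring
    rw [h3] at h2
    linear_combination (-1 / 2 : ℂ) * h2
  have h4 := pars_sg (fun S => if j ∈ S then a S else 0)
  have h5 : EE (fun x : Fin N → Bool => ‖∑ S, mon (sg x) S * (if j ∈ S then a S else 0)‖ ^ 2) = 0 := by
    rw [← EE_const (N := N) 0]
    apply EE_congr
    intro x
    rw [h1 x]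
    simp
  rw [h5] at h4
  have h6 : ‖(if j ∈ S then a S else 0)‖ ^ 2 ≤ ∑ S, ‖(if j ∈ S then a S else 0)‖ ^ 2 :=
    Finset.single_le_sum (f := fun S => ‖(if j ∈ S then a S else 0)‖ ^ 2)
      (fun _ _ => by positivity) (Finset.mem_univ S)
  rw [← h4, if_pos hS] at h6
  have h7 : ‖a S‖ = 0 := by
    have := norm_nonneg (a S)
    nlinarith
  exact norm_eq_zero.1 h7

namespace Alg

variable (A : Alg N B)

/-- The algorithm never re-reads: the amplitude of a basis state about to query position `j` does
not depend on `x j`. -/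
def NRs (T : ℕ) : Prop := ∀ t < T, ∀ b j, A.pos b = some j →
  ∀ x, A.st (sg (flp j x)) t b = A.st (sg x) t b

lemma NRc_of_NRs {T : ℕ} (h : A.NRs T) : ∀ t ≤ T, A.NRc t := by
  intro t
  induction t with
  | zero => intro _ t ht; exact absurd ht (Nat.not_lt_zero t)
  | succ t ih =>
    intro ht s hs b S hS
    rcases Nat.lt_succ_iff_lt_or_eq.1 hs with h1 | h1
    · exact ih (by omega) s h1 b S hS
    · subst h1
      cases hb : A.pos b with
      | none => simp [os, hb] at hS
      | some j =>
        have hj : j ∈ S := by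
          simpa [os, hb] using hS
        refine coef_zero (fun S => A.co s S b) j (fun x => ?_) S hj
        rw [← A.expand (ih (by omega)) _ s le_rfl b, ← A.expand (ih (by omega)) _ s le_rfl b]
        exact h s (by omega) b j hb x

end Alg

end Pool.Agent.TH334.NR
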