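import Pool.Agent.H572R2.Quantum

/-!
# Product characters and Parseval identities, over `Bool` and over cube roots of unity
-/

set_option autoImplicit false

namespace Pool.Agent.TH334.NR

open Finset

section General

variable {A κ : Type} [Fintype A] [Fintype κ] [DecidableEq κ] {N : ℕ}

/-- Product character. -/
noncomputable def ch (c : κ → A → ℂ) (γ : Fin N → κ) (z : Fin N → A) : ℂ := ∏ i, c (γ i) (z i)

/-- Orthogonality of the base functions. -/
def Orth (c : κ → A → ℂ) : Prop :=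
  ∀ k k', ∑ a, c k a * star (c k' a) = if k = k' then (Fintype.card A : ℂ) else 0

omit [Fintype κ] in
lemma ch_orth [DecidableEq A] {c : κ → A → ℂ} (hc : Orth c) (γ γ' : Fin N → κ) :
    ∑ z, ch c γ z * star (ch c γ' z) = if γ = γ' then (Fintype.card A : ℂ) ^ N else 0 := by
  have h1 : ∀ z : Fin N → A, ch c γ z * star (ch c γ' z)
      = ∏ i, (c (γ i) (z i) * star (c (γ' i) (z i))) := by
    intro z
    unfold ch
    rw [star_prod, Finset.prod_mul_distrib]
  have h2 : ∑ z : Fin N → A, ∏ i, (c (γ i) (z i) * star (c (γ' i) (z i)))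
      = ∏ i, ∑ a, (c (γ i) a * star (c (γ' i) a)) := by
    rw [Finset.prod_univ_sum, Fintype.piFinset_univ]
  rw [Finset.sum_congr rfl fun z _ => h1 z, h2, Finset.prod_congr rfl fun i _ => hc (γ i) (γ' i)]
  by_cases h : γ = γ'
  · subst h
    simp
  · rw [if_neg h]
    obtain ⟨i, hi⟩ := Function.ne_iff.1 h
    exact Finset.prod_eq_zero (Finset.mem_univ i) (if_neg hi)

/-- Parseval for an orthogonal family. -/
lemma pars_gen {Ω K : Type} [Fintype Ω] [Fintype K] [DecidableEq K] (e : K → Ω → ℂ) (M : ℝ)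
    (he : ∀ k k', ∑ ω, e k ω * star (e k' ω) = if k = k' then (M : ℂ) else 0) (v : K → ℂ) :
    ∑ ω, ‖∑ k, e k ω * v k‖ ^ 2 = M * ∑ k, ‖v k‖ ^ 2 := by
  have hn : ∀ w : ℂ, ((‖w‖ ^ 2 : ℝ) : ℂ) = w * star w := by
    intro w
    rw [Complex.star_def, Complex.mul_conj']
    push_cast
    rfl
  have h : ((∑ ω, ‖∑ k, e k ω * v k‖ ^ 2 : ℝ) : ℂ) = ((M * ∑ k, ‖v k‖ ^ 2 : ℝ) : ℂ) := by
    rw [Complex.ofReal_sum, Complex.ofReal_mul, Complex.ofReal_sum]
    simp_rw [hn]
    have h1 : ∀ ω, (∑ k, e k ω * v k) * star (∑ k, e k ω * v k)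
        = ∑ k, ∑ k', (v k * star (v k')) * (e k ω * star (e k' ω)) := by
      intro ω
      rw [star_sum, Finset.sum_mul_sum]
      refine Finset.sum_congr rfl fun k _ => Finset.sum_congr rfl fun k' _ => ?_
      rw [star_mul']
      ring
    rw [Finset.sum_congr rfl fun ω _ => h1 ω, Finset.sum_comm]
    rw [Finset.mul_sum]
    refine Finset.sum_congr rfl fun k _ => ?_
    rw [Finset.sum_comm]
    have h2 : ∀ k', ∑ ω, (v k * star (v k')) * (e k ω * star (e k' ω))
        = if k = k' then (M : ℂ) * (v k * star (v k')) else 0 := by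
      intro k'
      rw [← Finset.mul_sum, he]
      split_ifs
      · ring
      · simp
    rw [Finset.sum_congr rfl fun k' _ => h2 k', Finset.sum_ite_eq]
    simp
  exact_mod_cast h

lemma pars [DecidableEq A] {c : κ → A → ℂ} (hc : Orth c) (v : (Fin N → κ) → ℂ) :
    ∑ z, ‖∑ γ, ch c γ z * v γ‖ ^ 2 = (Fintype.card A : ℝ) ^ N * ∑ γ, ‖v γ‖ ^ 2 := by
  apply pars_gen
  intro γ γ'
  rw [ch_orth hc]
  push_cast
  rfl

/-- Parseval after grouping. -/
lemma pars_fib [DecidableEq A] {c : κ → A → ℂ} (hc : Orth c) {I : Type*} [Fintype I]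
    (r : I → Fin N → κ) (a : I → ℂ) :
    ∑ z, ‖∑ i, ch c (r i) z * a i‖ ^ 2
      = (Fintype.card A : ℝ) ^ N * ∑ γ, ‖∑ i with r i = γ, a i‖ ^ 2 := by
  rw [← pars hc]
  refine Finset.sum_congr rfl fun z _ => ?_
  congr 2
  rw [← Finset.sum_fiberwise (s := Finset.univ) (g := r)]
  refine Finset.sum_congr rfl fun γ _ => ?_
  rw [Finset.mul_sum]
  refine Finset.sum_congr rfl fun i hi => ?_
  rw [(Finset.mem_filter.1 hi).2]

end General

/-- The sign base functions. -/
def c2 (k a : Bool) : ℂ := if k then (if a then -1 else 1) else 1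

lemma orth2 : Orth c2 := by
  intro k k'
  cases k <;> cases k' <;> simp [c2] <;> norm_num

/-- A primitive cube root of unity. -/
noncomputable def om : ℂ := ⟨-1 / 2, Real.sqrt 3 / 2⟩

lemma om_sq : om ^ 2 = ⟨-1 / 2, -(Real.sqrt 3 / 2)⟩ := by
  have h : Real.sqrt 3 * Real.sqrt 3 = 3 := Real.mul_self_sqrt (by norm_num)
  unfold om
  rw [pow_two]
  apply Complex.ext
  · simp only [Complex.mul_re]
    nlinarith
  · simp only [Complex.mul_im]
    ring

lemma om_cube : om ^ 3 = 1 := by
  have h : Real.sqrt 3 * Real.sqrt 3 = 3 := Real.mul_self_sqrt (by norm_num)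
  rw [pow_succ, om_sq]
  unfold om
  apply Complex.ext
  · simp only [Complex.mul_re, Complex.one_re]
    nlinarith
  · simp only [Complex.mul_im, Complex.one_im]
    ring

lemma om_sum : 1 + om + om ^ 2 = 0 := by
  rw [om_sq]
  unfold om
  apply Complex.ext
  · simp only [Complex.add_re, Complex.one_re, Complex.zero_re]
    norm_num
  · simp only [Complex.add_im, Complex.one_im, Complex.zero_im]
    ring

lemma star_om : star om = om ^ 2 := by
  rw [om_sq]
  unfold om
  apply Complex.ext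
  · simp
  · simp

/-- The powers of the cube root of unity. -/
noncomputable def c3 (k a : Fin 3) : ℂ := om ^ ((k : ℕ) * (a : ℕ))

lemma om_pow_star (n : ℕ) : star (om ^ n) = om ^ (2 * n) := by
  rw [star_pow, star_om, ← pow_mul]

lemma om_mod (n : ℕ) : om ^ n = om ^ (n % 3) := by
  conv_lhs => rw [← Nat.div_add_mod n 3, pow_add, pow_mul, om_cube, one_pow, one_mul]

lemma orth3 : Orth c3 := by
  intro k k'
  have e : ∀ n m : ℕ, om ^ n * star (om ^ m) = om ^ ((n + 2 * m) % 3) := by
    intro n m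
    rw [om_pow_star, ← pow_add, om_mod]
  simp only [c3, e, Fin.sum_univ_three]
  have h := om_sum
  fin_cases k <;> fin_cases k' <;> simp <;> first | (norm_num; done) | linear_combination h

end Pool.Agent.TH334.NR
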