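import Pool.Agent.TH334.NR.Osss

/-!
# Degrees of products, and the total influence
-/

set_option autoImplicit false

namespace Pool.Agent.TH334.NR

open Finset Matrix Pool.Agent.H572R2

variable {N : ℕ} {B : Type} [Fintype B] [DecidableEq B]

lemma PD.congr {D : ℕ} {F G : (Fin N → Bool) → ℂ} (hF : PD D F) (h : ∀ x, G x = F x) : PD D G := by
  have : G = F := funext h
  rw [this]; exact hF

lemma PD.add {D : ℕ} {F G : (Fin N → Bool) → ℂ} (hF : PD D F) (hG : PD D G) :
    PD D (fun x => F x + G x) := by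
  have := PD.sum (D := D) (Finset.univ : Finset Bool) (F := fun b => if b then F else G)
    (fun b _ => by cases b <;> simpa)
  refine this.congr fun x => ?_
  simp

lemma PD.mon_mul {D : ℕ} (S : Finset (Fin N)) {F : (Fin N → Bool) → ℂ} (hF : PD D F) :
    PD (D + S.card) (fun x => mon (sg x) S * F x) := by
  induction S using Finset.induction_on with
  | empty => exact hF.congr fun x => by simp [mon]
  | insert j S hj ih =>
    rw [Finset.card_insert_of_notMem hj, ← add_assoc]
    refine (ih.sgn j).congr fun x => ?_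
    have : mon (sg x) (insert j S) = sg x j * mon (sg x) S := by
      unfold mon; rw [Finset.prod_insert hj]
    rw [this]; ring

lemma PD.mul {D D' : ℕ} {F G : (Fin N → Bool) → ℂ} (hF : PD D F) (hG : PD D' G) :
    PD (D + D') (fun x => F x * G x) := by
  obtain ⟨b, h1, h2⟩ := hG
  have : PD (D + D') (fun x => ∑ S, b S * (mon (sg x) S * F x)) := by
    refine PD.sum _ fun S _ => ?_
    by_cases hS : D' < S.card
    · rw [h1 S hS]
      simpa using PD.const (N := N) (D + D') 0
    · push Not at hS
      exact ((hF.mon_mul S).mono (by omega)).smul _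
  refine this.congr fun x => ?_
  rw [h2]
  unfold gv
  rw [Finset.mul_sum]
  refine Finset.sum_congr rfl fun S _ => ?_
  ring

lemma PD.prod {ι : Type} {D : ℕ} (s : Finset ι) {F : ι → (Fin N → Bool) → ℂ}
    (hF : ∀ i ∈ s, PD D (F i)) : PD (D * s.card) (fun x => ∏ i ∈ s, F i x) := by
  classical
  induction s using Finset.induction_on with
  | empty => exact (PD.const (N := N) _ 1).congr fun x => by simp
  | insert i s hi ih =>
    rw [Finset.card_insert_of_notMem hi]
    have h1 := (hF i (Finset.mem_insert_self i s)).mul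
      (ih fun k hk => hF k (Finset.mem_insert_of_mem hk))
    refine (h1.mono (by ring_nf; omega)).congr fun x => ?_
    rw [Finset.prod_insert hi]

lemma PD.star {D : ℕ} {F : (Fin N → Bool) → ℂ} (hF : PD D F) : PD D (fun x => star (F x)) := by
  obtain ⟨a, h1, h2⟩ := hF
  refine ⟨fun R => Star.star (a R), fun R hR => by simp only [h1 R hR, star_zero], fun x => ?_⟩
  show Star.star (F x) = _
  rw [h2]
  unfold gv mon
  rw [star_sum]
  refine Finset.sum_congr rfl fun R _ => ?_
  rw [star_mul', star_prod]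
  congr 1
  exact Finset.prod_congr rfl fun i _ => sg_star x i

lemma Alg.PD_ap (A : Alg N B) (T : ℕ) (Ac : Finset B) :
    PD (2 * T) (fun x => ((A.ap T Ac x : ℝ) : ℂ)) := by
  have : PD (2 * T) (fun x => ∑ s ∈ Ac, (A.st (sg x) T s * Star.star (A.st (sg x) T s))) := by
    refine PD.sum _ fun s _ => ?_
    rw [two_mul]
    exact (A.PD_st T s).mul (A.PD_st T s).star
  refine this.congr fun x => ?_
  unfold ap
  push_cast
  refine Finset.sum_congr rfl fun s _ => ?_
  rw [Complex.star_def, Complex.mul_conj']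

/-- Differences of a function of low degree. -/
lemma If_eq (f : (Fin N → Bool) → ℝ) (a : Finset (Fin N) → ℂ)
    (ha : ∀ x, ((f x : ℝ) : ℂ) = gv a (sg x)) (i : Fin N) : If i f = ns (aj a i) := by
  have h1 : EE (fun x => ‖gv (aj a i) (sg x)‖ ^ 2) = ns (aj a i) := pars_sg _
  rw [← h1]
  unfold If
  apply EE_congr
  intro x
  have h2 : gv (aj a i) (sg x) = (((f x - f (flp i x)) / 2 : ℝ) : ℂ) := by
    push_cast
    rw [ha, ha]
    unfold gv aj
    rw [← Finset.sum_sub_distrib, Finset.sum_div]
    refine Finset.sum_congr rfl fun R _ => ?_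
    rw [mon_flp]
    split_ifs <;> ring
  rw [h2, Complex.norm_real, Real.norm_eq_abs, sq_abs]

lemma TIf_le (D : ℕ) (f : (Fin N → Bool) → ℝ) (hf : PD D (fun x => ((f x : ℝ) : ℂ))) :
    TIf f ≤ D * EE (fun x => f x ^ 2) := by
  obtain ⟨a, h1, h2⟩ := hf
  have e : EE (fun x => f x ^ 2) = ns a := by
    have : EE (fun x => ‖gv a (sg x)‖ ^ 2) = ns a := pars_sg _
    rw [← this]
    apply EE_congr
    intro x
    rw [← h2 x, Complex.norm_real, Real.norm_eq_abs, sq_abs]
  rw [e]
  unfold TIf
  rw [Finset.sum_congr rfl fun i _ => If_eq f a h2 i]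
  exact ns_aj_sum a D h1

lemma TIf_sub (f : (Fin N → Bool) → ℝ) (c : ℝ) : TIf (fun x => f x - c) = TIf f := by
  unfold TIf If
  refine Finset.sum_congr rfl fun i _ => ?_
  apply EE_congr
  intro x
  ring

/-- Total influence and variance. -/
lemma TIf_le_var (D : ℕ) (f : (Fin N → Bool) → ℝ) (hf : PD D (fun x => ((f x : ℝ) : ℂ))) :
    TIf f ≤ D * Cv f f := by
  rw [← TIf_sub f (EE f), Cv_eq]
  have h := TIf_le D (fun x => f x - EE f) (by
    have := hf.add ((PD.const (N := N) D (-(EE f : ℂ))))
    refine this.congr fun x => ?_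
    push_cast; ring)
  refine h.trans (le_of_eq ?_)
  simp only [sq]

lemma Cv_le_quarter (f : (Fin N → Bool) → ℝ) (h0 : ∀ x, 0 ≤ f x) (h1 : ∀ x, f x ≤ 1) :
    Cv f f ≤ 1 / 4 := by
  unfold Cv
  have e : EE (fun x => f x * f x) ≤ EE f := by
    apply EE_mono; intro x
    have := h0 x
    have := h1 x
    nlinarith
  nlinarith [sq_nonneg (EE f - 1 / 2)]

end Pool.Agent.TH334.NR
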