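import Pool.Agent.TH334.NR.Deg

/-!
# Functions of several algorithms, none of which re-reads
-/

set_option autoImplicit false

namespace Pool.Agent.TH334.NR

open Finset Matrix Pool.Agent.H572R2

variable {N : ℕ} {B : Type} [Fintype B] [DecidableEq B]

lemma Cv_pair (g : (Fin N → Bool) → ℝ) :
    Cv g g = 1 / 2 * EE (fun x => EE (fun y => (g x - g y) ^ 2)) := by
  have h1 : ∀ x, EE (fun y => (g x - g y) ^ 2)
      = g x * g x - (2 * EE g) * g x + EE (fun y => g y * g y) := by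
    intro x
    have : EE (fun y => (g x - g y) ^ 2)
        = EE (fun y => (g x * g x - (2 * g x) * g y) + g y * g y) := by
      apply EE_congr; intro y; ring
    rw [this, EE_add, EE_sub, EE_const, EE_mul]
    ring
  have h2 : EE (fun x => EE (fun y => (g x - g y) ^ 2))
      = EE (fun x => (g x * g x - (2 * EE g) * g x) + EE (fun y => g y * g y)) :=
    EE_congr h1
  rw [h2, EE_add, EE_sub, EE_mul, EE_const]
  unfold Cv
  ring

lemma lip_sq {r : ℕ} (L : ℝ) (d : ℝ) (D : Fin r → ℝ)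
    (h : |d| ≤ L * ∑ κ, |D κ|) : d ^ 2 ≤ L ^ 2 * r * ∑ κ, D κ ^ 2 := by
  have h1 : d ^ 2 ≤ (L * ∑ κ, |D κ|) ^ 2 := by
    rw [← sq_abs d]
    exact pow_le_pow_left₀ (abs_nonneg d) h 2
  have h2 : (∑ κ, |D κ|) ^ 2 ≤ r * ∑ κ, D κ ^ 2 := by
    have := sq_sum_le_card_mul_sum_sq (s := (Finset.univ : Finset (Fin r))) (f := fun κ => |D κ|)
    simpa using this
  calc d ^ 2 ≤ (L * ∑ κ, |D κ|) ^ 2 := h1
    _ = L ^ 2 * (∑ κ, |D κ|) ^ 2 := by ring
    _ ≤ L ^ 2 * (r * ∑ κ, D κ ^ 2) := by gcongr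
    _ = _ := by ring

lemma fam_var {r : ℕ} (q : (Fin N → Bool) → ℝ) (Q : Fin r → (Fin N → Bool) → ℝ) (L : ℝ)
    (hL : ∀ x y, |q x - q y| ≤ L * ∑ κ, |Q κ x - Q κ y|) (β : ℝ)
    (hβ : ∀ κ, Cv (Q κ) (Q κ) ≤ β) : Cv q q ≤ L ^ 2 * (r : ℝ) ^ 2 * β := by
  rw [Cv_pair]
  have h1 : EE (fun x => EE (fun y => (q x - q y) ^ 2))
      ≤ EE (fun x => EE (fun y => (L ^ 2 * r) * ∑ κ, (Q κ x - Q κ y) ^ 2)) := by
    apply EE_mono; intro x; apply EE_mono; intro y
    exact lip_sq L _ (fun κ => Q κ x - Q κ y) (hL x y)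
  have h2 : EE (fun x => EE (fun y => (L ^ 2 * r) * ∑ κ, (Q κ x - Q κ y) ^ 2))
      = (L ^ 2 * r) * ∑ κ, EE (fun x => EE (fun y => (Q κ x - Q κ y) ^ 2)) := by
    have : ∀ x, EE (fun y => (L ^ 2 * r) * ∑ κ, (Q κ x - Q κ y) ^ 2)
        = (L ^ 2 * r) * ∑ κ, EE (fun y => (Q κ x - Q κ y) ^ 2) := by
      intro x; rw [EE_mul, EE_sum]
    rw [EE_congr this, EE_mul, EE_sum]
  have h3 : ∑ κ, EE (fun x => EE (fun y => (Q κ x - Q κ y) ^ 2)) ≤ ∑ _κ : Fin r, 2 * β := by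
    refine Finset.sum_le_sum fun κ _ => ?_
    have := hβ κ
    rw [Cv_pair] at this
    linarith
  rw [Finset.sum_const, Finset.card_univ, Fintype.card_fin, nsmul_eq_mul] at h3
  have h4 : (L ^ 2 * r) * ∑ κ, EE (fun x => EE (fun y => (Q κ x - Q κ y) ^ 2))
      ≤ (L ^ 2 * r) * (r * (2 * β)) := by gcongr
  rw [h2] at h1
  have h5 : L ^ 2 * (r : ℝ) ^ 2 * β = 1 / 2 * ((L ^ 2 * r) * (r * (2 * β))) := by ring
  rw [h5]
  linarith

lemma fam_TI {r : ℕ} (q : (Fin N → Bool) → ℝ) (Q : Fin r → (Fin N → Bool) → ℝ) (L : ℝ)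
    (hL : ∀ x y, |q x - q y| ≤ L * ∑ κ, |Q κ x - Q κ y|) :
    TIf q ≤ L ^ 2 * r * ∑ κ, TIf (Q κ) := by
  unfold TIf
  rw [Finset.sum_comm, Finset.mul_sum]
  refine Finset.sum_le_sum fun i _ => ?_
  unfold If
  rw [← EE_sum, ← EE_mul]
  apply EE_mono; intro x
  have h := hL x (flp i x)
  have h2 : |(q x - q (flp i x)) / 2| ≤ L * ∑ κ, |(Q κ x - Q κ (flp i x)) / 2| := by
    simp_rw [abs_div, abs_of_pos (show (0 : ℝ) < 2 by norm_num), ← Finset.sum_div]
    linarith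
  exact lip_sq L _ (fun κ => (Q κ x - Q κ (flp i x)) / 2) h2

section Family

variable {r : ℕ} (A : Fin r → Alg N B) (Ac : Fin r → Finset B)

/-- The query magnitudes of a family, indexed by the numbers below `r * T`. -/
noncomputable def fm (T : ℕ) (s : ℕ) (k : Fin N) (x : Fin N → Bool) : ℝ :=
  if h : s / T < r then (A ⟨s / T, h⟩).evo.mag (s % T) k x else 0

lemma fm_nonneg (T : ℕ) (s : ℕ) (k : Fin N) (x : Fin N → Bool) : 0 ≤ fm A T s k x := by
  unfold fm
  split_ifs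
  · exact (A _).mag_nonneg _ k x
  · exact le_rfl

lemma fm_sum_le (T : ℕ) (s : ℕ) (x : Fin N → Bool) : ∑ k, fm A T s k x ≤ 1 := by
  unfold fm
  split_ifs
  · exact (A _).sum_mag_le _ x
  · simp

lemma fm_AA (T : ℕ) (a : Fin N → Bool) : AA (fm A T) (r * T) ∅ a ≤ r * T := by
  have := AA_root (m := fm A T) (q := 1) (fm_nonneg A T) (fm_sum_le A T) (r * T) a
  push_cast at this
  linarith

lemma fm_eq {T : ℕ} (κ : Fin r) {t : ℕ} (ht : t < T) (k : Fin N) (x : Fin N → Bool) :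
    fm A T (κ * T + t) k x = (A κ).evo.mag t k x := by
  unfold fm
  have hT : 0 < T := by omega
  have h1 : (κ * T + t) / T = κ := by
    rw [Nat.add_comm, Nat.add_mul_div_right _ _ hT, Nat.div_eq_of_lt ht, zero_add]
  have h2 : (κ * T + t) % T = t := by
    rw [Nat.add_comm, Nat.add_mul_mod_self_right, Nat.mod_eq_of_lt ht]
  have h3 : ((κ : ℕ) * T + t) / T < r := by rw [h1]; exact κ.2
  rw [dif_pos h3, h2]
  have h4 : (⟨((κ : ℕ) * T + t) / T, h3⟩ : Fin r) = κ := Fin.ext h1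
  rw [h4]

/-- The variance at a light node. -/
lemma fam_node {T : ℕ} (hA : ∀ κ, (A κ).NRs T) (f : (Fin N → Bool) → ℝ) (L : ℝ)
    (hL : ∀ x y, |f x - f y|
      ≤ L * ∑ κ, |(A κ).ap T (Ac κ) x - (A κ).ap T (Ac κ) y|)
    (θ : ℝ) (hθ0 : 0 ≤ θ) (S : Finset (Fin N)) (a : Fin N → Bool)
    (hl : ∀ s < r * T, ∀ k ∈ Sᶜ, Ex S a (fm A T s k) ≤ θ) :
    Ex S a (fun x => (f x) ^ 2) - (Ex S a f) ^ 2 ≤ 128 * L ^ 2 * (r : ℝ) ^ 2 * (T : ℝ) ^ 8 * θ := by
  have e1 : Ex S a (fun x => (f x) ^ 2) - (Ex S a f) ^ 2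
      = Cv (fun x => f (mix S a x)) (fun x => f (mix S a x)) := by
    unfold Cv Ex
    simp only [sq]
  rw [e1]
  have h1 := fam_var (fun x => f (mix S a x)) (fun κ x => (A κ).ap T (Ac κ) (mix S a x)) L
    (fun x y => hL _ _) (128 * (T : ℝ) ^ 8 * θ) (fun κ => by
      have h2 := (A κ).node_lin (hA κ) θ hθ0 (Ac κ) S a (fun t ht k hk => by
        have h3 := hl (κ * T + t) (by
          have := κ.2
          calc (κ : ℕ) * T + t < κ * T + T := by omega
            _ = (κ + 1) * T := by ring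
            _ ≤ r * T := Nat.mul_le_mul_right _ (by omega)) k hk
        refine (le_of_eq ?_).trans h3
        unfold Ex
        apply EE_congr
        intro x
        exact (fm_eq A κ ht k _).symm)
      refine (le_of_eq ?_).trans h2
      unfold Cv Ex
      simp only [sq])
  refine h1.trans (le_of_eq ?_)
  ring

/-- A function of the family with positive variance makes a query. -/
lemma fam_pos {T : ℕ} (f : (Fin N → Bool) → ℝ) (L : ℝ)
    (hL : ∀ x y, |f x - f y|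
      ≤ L * ∑ κ, |(A κ).ap T (Ac κ) x - (A κ).ap T (Ac κ) y|)
    (hV0 : 0 < Cv f f) : 1 ≤ r ∧ 1 ≤ T := by
  by_contra hcon
  have h1 : ∀ x y, f x = f y := by
    intro x y
    have h2 := hL x y
    have h3 : ∑ κ, |(A κ).ap T (Ac κ) x - (A κ).ap T (Ac κ) y| = 0 := by
      by_cases hr : r = 0
      · subst hr; simp
      · have hT : T = 0 := by omega
        subst hT
        refine Finset.sum_eq_zero fun κ _ => ?_
        have : (A κ).ap 0 (Ac κ) x = (A κ).ap 0 (Ac κ) y := rfl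
        rw [this]; simp
    rw [h3, mul_zero] at h2
    have := abs_nonpos_iff.1 h2
    linarith
  have h2 : Cv f f = 0 := by
    rw [Cv_pair]
    have : EE (fun x => EE (fun y => (f x - f y) ^ 2)) = 0 := by
      rw [← EE_const (N := N) 0]
      apply EE_congr; intro x
      rw [← EE_const (N := N) 0]
      apply EE_congr; intro y
      rw [h1 x y]; simp
    rw [this]; simp
  linarith

/-- Influences, for functions of low degree. -/
theorem fam_lin {T : ℕ} (hA : ∀ κ, (A κ).NRs T) (f : (Fin N → Bool) → ℝ) (D : ℕ)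
    (hdeg : PD D (fun x => ((f x : ℝ) : ℂ))) (L : ℝ) (hL0 : 0 < L)
    (hL : ∀ x y, |f x - f y|
      ≤ L * ∑ κ, |(A κ).ap T (Ac κ) x - (A κ).ap T (Ac κ) y|)
    (I : ℝ) (hI0 : 0 ≤ I) (hI : ∀ l, Real.sqrt (If l f) ≤ I) :
    (Cv f f) ^ 2 ≤ 2048 * D * L ^ 2 * (r : ℝ) ^ 3 * (T : ℝ) ^ 9 * I ^ 2 := by
  rcases (Cv_self_nonneg f).eq_or_lt with h0 | hV0
  · rw [← h0, zero_pow (by norm_num)]
    positivity
  obtain ⟨hr, hT⟩ := fam_pos A Ac f L hL hV0
  have hr1 : (1 : ℝ) ≤ r := by exact_mod_cast hr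
  have hT1 : (1 : ℝ) ≤ T := by exact_mod_cast hT
  have hTI := TIf_le_var D f hdeg
  set V := Cv f f with hV
  have hD0 : D ≠ 0 := by
    rintro rfl
    have h1 : TIf f ≤ 0 := by simpa using hTI
    have h2 : ∀ i x, f (flp i x) = f x := by
      intro i x
      have h3 : If i f = 0 := by
        have := Finset.single_le_sum (f := fun i => If i f) (fun i _ => If_nonneg i f)
          (Finset.mem_univ i)
        have h4 := If_nonneg i f
        have : If i f ≤ TIf f := this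
        linarith
      by_contra hne
      have h5 : 0 < If i f := by
        unfold If EE
        apply div_pos _ (by positivity)
        refine Finset.sum_pos' (fun x _ => sq_nonneg _) ⟨x, Finset.mem_univ _, ?_⟩
        have : (f x - f (flp i x)) / 2 ≠ 0 := by
          intro h6
          apply hne
          linarith
        positivity
      linarith
    have h3 := const_of_inv f h2
    have h4 : Cv f f = 0 := by
      rw [Cv_pair]
      have : EE (fun x => EE (fun y => (f x - f y) ^ 2)) = 0 := by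
        rw [← EE_const (N := N) 0]
        apply EE_congr; intro x
        rw [← EE_const (N := N) 0]
        apply EE_congr; intro y
        rw [h3 x y]; simp
      rw [this]; simp
    linarith
  have hD1 : (0 : ℝ) < D := by exact_mod_cast Nat.pos_of_ne_zero hD0
  set θ : ℝ := V / (512 * L ^ 2 * (r : ℝ) ^ 2 * (T : ℝ) ^ 8) with hθ
  have hθ0 : 0 < θ := by positivity
  have h := osss (m := fm A T) (fm_nonneg A T) (r * T) (r * T) (by positivity) (fm_AA A T) f θ hθ0 V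
    hV hV0 (fun S a hS => by
      refine (fam_node A Ac hA f L hL θ hθ0.le S a hS).trans (le_of_eq ?_)
      rw [hθ]
      field_simp
      norm_num) (D * V) (by positivity) hTI I hI0 hI
  have h2 : V ^ 2 * θ = V * V ^ 2 / (512 * L ^ 2 * (r : ℝ) ^ 2 * (T : ℝ) ^ 8) := by
    rw [hθ]; ring
  rw [h2, div_le_iff₀ (by positivity)] at h
  have h3 : V * (V ^ 2) ≤ V * (2048 * D * L ^ 2 * (r : ℝ) ^ 3 * (T : ℝ) ^ 9 * I ^ 2) := by
    refine h.trans (le_of_eq ?_)
    ring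
  exact le_of_mul_le_mul_left h3 hV0

/-- Bit fixing. -/
theorem fam_fix {T : ℕ} (hA : ∀ κ, (A κ).NRs T) (f : (Fin N → Bool) → ℝ) (hf0 : ∀ x, 0 ≤ f x)
    (hf1 : ∀ x, f x ≤ 1) (L : ℝ) (hL0 : 0 < L)
    (hL : ∀ x y, |f x - f y|
      ≤ L * ∑ κ, |(A κ).ap T (Ac κ) x - (A κ).ap T (Ac κ) y|)
    (V : ℝ) (hV : V = EE (fun x => (f x - EE f) ^ 2)) (hV0 : 0 < V) :
    ∃ (S : Finset (Fin N)) (a : Fin N → Bool),
      (S.card : ℝ) ≤ 2048 * L ^ 2 * (r : ℝ) ^ 3 * (T : ℝ) ^ 9 / V ^ 2 ∧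
      V / 2 ≤ (Ex S a f - EE f) ^ 2 := by
  have hVC : V = Cv f f := by
    rw [hV, Cv_eq]
    simp only [sq]
  obtain ⟨hr, hT⟩ := fam_pos A Ac f L hL (by rw [← hVC]; exact hV0)
  have hr1 : (1 : ℝ) ≤ r := by exact_mod_cast hr
  have hT1 : (1 : ℝ) ≤ T := by exact_mod_cast hT
  set θ : ℝ := V / (512 * L ^ 2 * (r : ℝ) ^ 2 * (T : ℝ) ^ 8) with hθ
  have hθ0 : 0 < θ := by positivity
  set l : ℝ := θ * V / (4 * (r * T)) with hl
  have hl0 : 0 < l := by positivity
  obtain ⟨S, a, h⟩ := leaf' (m := fm A T) (fm_nonneg A T) (r * T) f (EE f) (V / 4) l θ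
    hl0.le hθ0 (fun S a hS => by
      refine (fam_node A Ac hA f L hL θ hθ0.le S a hS).trans (le_of_eq ?_)
      rw [hθ]
      field_simp
      norm_num) _ ∅ (fun _ => true) rfl
  rw [Ex_empty, ← hV, Finset.card_empty] at h
  have hA' := fm_AA A T (fun _ : Fin N => true)
  have hlA : (l / θ) * AA (fm A T) (r * T) ∅ (fun _ => true) ≤ V / 4 := by
    calc (l / θ) * AA (fm A T) (r * T) ∅ (fun _ => true) ≤ (l / θ) * (r * T) := by gcongr
      _ = V / 4 := by rw [hl]; field_simp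
  have hdev : V / 2 + l * S.card ≤ (Ex S a f - EE f) ^ 2 := by
    push_cast at h
    linarith
  have hlS : 0 ≤ l * S.card := by positivity
  refine ⟨S, a, ?_, by linarith⟩
  have hdev1 : (Ex S a f - EE f) ^ 2 ≤ 1 := by
    have e0 : 0 ≤ EE f := EE_nonneg hf0
    have e1 : EE f ≤ 1 := (EE_mono hf1).trans (le_of_eq (EE_const 1))
    have e2 : 0 ≤ Ex S a f := EE_nonneg fun x => hf0 _
    have e3 : Ex S a f ≤ 1 := (EE_mono fun x => hf1 _).trans (le_of_eq (EE_const 1))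
    nlinarith
  have hS : l * S.card ≤ 1 := by linarith
  have hfin : 1 / l = 2048 * L ^ 2 * (r : ℝ) ^ 3 * (T : ℝ) ^ 9 / V ^ 2 := by
    rw [hl, hθ]
    field_simp
    norm_num
  rw [← hfin, le_div_iff₀ hl0]
  linarith

end Family

end Pool.Agent.TH334.NR
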