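import Pool.Agent.TH334.NR.Pair

/-!
# Cube root phases: the pair of a run and its complex conjugate
-/

set_option autoImplicit false

namespace Pool.Agent.TH334.NR

open Finset Matrix Pool.Agent.H572R2
open scoped Kronecker

variable {N : ℕ} {B : Type} [Fintype B] [DecidableEq B]

/-- Average over the cube root phases. -/
noncomputable def E3 (f : (Fin N → Fin 3) → ℝ) : ℝ := (∑ z, f z) / 3 ^ N

lemma E3_mono {f g : (Fin N → Fin 3) → ℝ} (h : ∀ z, f z ≤ g z) : E3 f ≤ E3 g := by
  unfold E3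
  gcongr with z _
  exact h z

lemma E3_add (f g : (Fin N → Fin 3) → ℝ) : E3 (fun z => f z + g z) = E3 f + E3 g := by
  unfold E3
  rw [Finset.sum_add_distrib, add_div]

lemma E3_mul (c : ℝ) (f : (Fin N → Fin 3) → ℝ) : E3 (fun z => c * f z) = c * E3 f := by
  unfold E3
  rw [← Finset.mul_sum, mul_div_assoc]

lemma E3_const (c : ℝ) : E3 (fun _ : Fin N → Fin 3 => c) = c := by
  unfold E3
  simp

lemma E3_sum {ι : Type*} (s : Finset ι) (f : ι → (Fin N → Fin 3) → ℝ) :
    E3 (fun z => ∑ i ∈ s, f i z) = ∑ i ∈ s, E3 (f i) := by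
  unfold E3
  rw [Finset.sum_comm, Finset.sum_div]

lemma E3_congr {f g : (Fin N → Fin 3) → ℝ} (h : ∀ z, f z = g z) : E3 f = E3 g := by
  congr 1; funext z; exact h z

lemma E3_nonneg {f : (Fin N → Fin 3) → ℝ} (h : ∀ z, 0 ≤ f z) : 0 ≤ E3 f := by
  unfold E3
  exact div_nonneg (Finset.sum_nonneg fun z _ => h z) (by positivity)

/-- Sums over fibres with at most one nonzero term. -/
lemma fib_inj {I K : Type*} [Fintype I] [Fintype K] [DecidableEq K] (r : I → K) (a : I → ℂ)
    (J : I → Prop) (ha : ∀ i, ¬ J i → a i = 0) (hr : ∀ i i', J i → J i' → r i = r i' → i = i') :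
    ∑ γ, ‖∑ i with r i = γ, a i‖ ^ 2 = ∑ i, ‖a i‖ ^ 2 := by
  classical
  rw [← Finset.sum_fiberwise (s := (Finset.univ : Finset I)) (g := r) (f := fun i => ‖a i‖ ^ 2)]
  refine Finset.sum_congr rfl fun γ _ => ?_
  by_cases h : ∃ i, r i = γ ∧ J i
  · obtain ⟨i, hi, hJ⟩ := h
    have hm : i ∈ Finset.univ.filter (fun i => r i = γ) := by simp [hi]
    rw [Finset.sum_eq_single_of_mem i hm, Finset.sum_eq_single_of_mem i hm]
    · intro i' hi' hne
      have : a i' = 0 := by
        apply ha
        intro hJ'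
        exact hne (hr i' i hJ' hJ (by rw [(Finset.mem_filter.1 hi').2, hi]))
      rw [this]; simp
    · intro i' hi' hne
      apply ha
      intro hJ'
      exact hne (hr i' i hJ' hJ (by rw [(Finset.mem_filter.1 hi').2, hi]))
  · push Not at h
    rw [Finset.sum_eq_zero, Finset.sum_eq_zero]
    · simp
    · intro i hi
      rw [ha i (h i (Finset.mem_filter.1 hi).2)]; simp
    · intro i hi
      exact ha i (h i (Finset.mem_filter.1 hi).2)

/-- The record of a pair of sets, run and conjugate run. -/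
def rb (P : Finset (Fin N) × Finset (Fin N)) (i : Fin N) : Fin 3 :=
  (if i ∈ P.1 then 1 else 0) + (if i ∈ P.2 then 2 else 0)

lemma rb_inj (P P' : Finset (Fin N) × Finset (Fin N)) (h : Disjoint P.1 P.2)
    (h' : Disjoint P'.1 P'.2) (e : rb P = rb P') : P = P' := by
  have key : ∀ i, (i ∈ P.1 ↔ i ∈ P'.1) ∧ (i ∈ P.2 ↔ i ∈ P'.2) := by
    intro i
    have e1 := congrFun e i
    have h1 : i ∈ P.1 → i ∉ P.2 := fun a b => Finset.disjoint_left.1 h a b
    have h2 : i ∈ P'.1 → i ∉ P'.2 := fun a b => Finset.disjoint_left.1 h' a b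
    unfold rb at e1
    by_cases a1 : i ∈ P.1 <;> by_cases a2 : i ∈ P.2 <;> by_cases a3 : i ∈ P'.1 <;>
      by_cases a4 : i ∈ P'.2 <;> simp_all
  refine Prod.ext ?_ ?_
  · ext i; exact (key i).1
  · ext i; exact (key i).2

lemma mon_te_b (z : Fin N → Fin 3) (P : Finset (Fin N) × Finset (Fin N)) :
    mon (te z) P.1 * mon (fun i => star (te z i)) P.2 = ch c3 (rb P) z := by
  have e : ∀ (u : Fin N → ℂ) (S : Finset (Fin N)), mon u S = ∏ i, if i ∈ S then u i else 1 := by
    intro u S
    unfold mon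
    rw [Finset.prod_ite_mem, Finset.univ_inter]
  rw [e, e, ← Finset.prod_mul_distrib]
  unfold ch
  refine Finset.prod_congr rfl fun i _ => ?_
  unfold c3 rb te
  by_cases a1 : i ∈ P.1 <;> by_cases a2 : i ∈ P.2
  · simp only [a1, a2, if_true]
    rw [om_pow_star, ← pow_add]
    have : (((1 : Fin 3) + 2 : Fin 3) : ℕ) = 0 := rfl
    rw [this, zero_mul, pow_zero, om_mod]
    have : ((z i : ℕ) + 2 * (z i : ℕ)) % 3 = 0 := by omega
    rw [this, pow_zero]
  · simp only [a1, a2, if_true, if_false, mul_one, add_zero]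
    have : ((1 : Fin 3) : ℕ) = 1 := rfl
    rw [this, one_mul]
  · simp only [a1, a2, if_true, if_false, one_mul, zero_add]
    rw [om_pow_star]
    rfl
  · simp only [a1, a2, if_false, mul_one, add_zero]
    simp

namespace Alg

variable (A : Alg N B)

/-- The complex conjugate algorithm. -/
noncomputable def cj : Alg N B where
  W := fun t => (A.W t).map star
  hW := by
    intro t
    have h := A.hW t
    have e : ((A.W t).map star)ᴴ * (A.W t).map star = ((A.W t)ᴴ * A.W t).map star := by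
      ext i j
      simp only [Matrix.mul_apply, Matrix.map_apply, Matrix.conjTranspose_apply, star_sum,
        star_mul']
    rw [e, h]
    ext i j
    by_cases hij : i = j
    · subst hij; simp
    · simp [hij]
  pos := A.pos
  v := fun b => star (A.v b)
  hv := by
    rw [← A.hv]
    unfold nsq
    simp

lemma cj_os (b : B) : A.cj.os b = A.os b := rfl

lemma cj_st (u : Fin N → ℂ) (t : ℕ) (b : B) :
    A.cj.st (fun i => star (u i)) t b = star (A.st u t b) := by
  induction t generalizing b with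
  | zero => rfl
  | succ t ih =>
    rw [st_succ, st_succ]
    simp only [mulVec, dotProduct, star_sum, star_mul']
    refine Finset.sum_congr rfl fun c _ => ?_
    rw [ih]
    have : mon (fun i => star (u i)) (A.cj.os c) = star (mon u (A.os c)) := by
      unfold mon
      rw [star_prod]
      rfl
    rw [this]
    rfl

lemma cj_co (t : ℕ) (S : Finset (Fin N)) (b : B) : A.cj.co t S b = star (A.co t S b) := by
  induction t generalizing S b with
  | zero =>
    rw [co_zero, co_zero]
    split_ifs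
    · rfl
    · simp
  | succ t ih =>
    rw [co_succ, co_succ]
    simp only [mulVec, dotProduct, star_sum, star_mul']
    refine Finset.sum_congr rfl fun c _ => ?_
    rw [cj_os]
    split_ifs
    · rw [ih]; rfl
    · simp

lemma cj_NRc {T : ℕ} (h : A.NRc T) : A.cj.NRc T := by
  intro t ht b S hS
  rw [cj_co, h t ht b S hS, star_zero]

lemma cj_pm (t : ℕ) (j : Fin N) : A.cj.pm t j = A.pm t j := by
  unfold pm
  refine Finset.sum_congr rfl fun b _ => ?_
  have : A.cj.pos b = A.pos b := rfl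
  rw [this]
  simp_rw [cj_co, norm_star]

lemma cj_im (t : ℕ) (j : Fin N) : A.cj.im t j = A.im t j := by
  unfold im
  simp_rw [cj_co, norm_star]

end Alg

open Classical in
/-- Isometry. -/
lemma ds_b (A A' : Alg N B) (Q : Finset (Fin N) → Finset (Fin N) → Prop)
    (hQ : ∀ S S', Q S S' → Disjoint S S') (t : ℕ) (p : B × B) :
    E3 (fun z => ‖ds A A' Q (te z) (fun i => star (te z i)) t p‖ ^ 2)
      = ∑ S, ∑ S', if Q S S' then ‖A.co t S p.1‖ ^ 2 * ‖A'.co t S' p.2‖ ^ 2 else 0 := by
  have h1 : ∀ z, ds A A' Q (te z) (fun i => star (te z i)) t p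
      = ∑ P : Finset (Fin N) × Finset (Fin N), ch c3 (rb P) z *
        (if Q P.1 P.2 then A.co t P.1 p.1 * A'.co t P.2 p.2 else 0) := by
    intro z
    unfold ds
    rw [Fintype.sum_prod_type]
    refine Finset.sum_congr rfl fun S _ => Finset.sum_congr rfl fun S' _ => ?_
    rw [← mon_te_b z (S, S')]
    split_ifs <;> simp
  unfold E3
  simp_rw [h1]
  rw [pars_fib orth3 (rb : Finset (Fin N) × Finset (Fin N) → Fin N → Fin 3)
    (fun P => if Q P.1 P.2 then A.co t P.1 p.1 * A'.co t P.2 p.2 else 0),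
    fib_inj rb _ (fun P => Disjoint P.1 P.2)
      (fun P hP => if_neg fun hh => hP (hQ _ _ hh)) (fun P P' hP hP' e => rb_inj P P' hP hP' e),
    Fintype.sum_prod_type]
  have h3 : (Fintype.card (Fin 3) : ℝ) = 3 := by simp
  rw [h3, mul_comm, mul_div_assoc, div_self (by positivity), mul_one]
  refine Finset.sum_congr rfl fun S _ => Finset.sum_congr rfl fun S' _ => ?_
  split_ifs
  · rw [norm_mul, mul_pow]
  · simp

/-- Collision weight. -/
def cw (A : Alg N B) (p : B × B) : ℝ :=
  if A.pos p.1 = A.pos p.2 ∧ A.pos p.1 ≠ none then 1 else 0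

lemma cw_nonneg (A : Alg N B) (p : B × B) : 0 ≤ cw A p := by
  unfold cw; split_ifs <;> norm_num

lemma cw_le_one (A : Alg N B) (p : B × B) : cw A p ≤ 1 := by
  unfold cw; split_ifs <;> norm_num

lemma sum_cw (A : Alg N B) (f : B → ℝ) :
    ∑ j, (∑ b, if A.pos b = some j then f b else 0) ^ 2
      = ∑ p : B × B, cw A p * (f p.1 * f p.2) := by
  have h1 : ∀ j, (∑ b, if A.pos b = some j then f b else 0) ^ 2
      = ∑ b, ∑ c, (if A.pos b = some j then f b else 0) * (if A.pos c = some j then f c else 0) := by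
    intro j
    rw [pow_two, Finset.sum_mul_sum]
  rw [Finset.sum_congr rfl fun j _ => h1 j, Finset.sum_comm, Fintype.sum_prod_type]
  refine Finset.sum_congr rfl fun b _ => ?_
  rw [Finset.sum_comm]
  refine Finset.sum_congr rfl fun c _ => ?_
  unfold cw
  cases hb : A.pos b with
  | none => simp
  | some k =>
    have e : ∀ j : Fin N, (if some k = some j then f b else 0)
        * (if A.pos c = some j then f c else 0)
        = if k = j then f b * (if A.pos c = some j then f c else 0) else 0 := by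
      intro j
      by_cases hk : k = j <;> simp [hk]
    rw [Finset.sum_congr rfl fun j _ => e j, Finset.sum_ite_eq]
    simp only [Finset.mem_univ, if_true]
    by_cases hc : A.pos c = some k
    · simp [hc]
    · have : ¬ (some k = A.pos c) := fun h => hc h.symm
      simp [hc, this]

/-- Weighted square norm. -/
noncomputable def nsqC (A : Alg N B) (F : B × B → ℂ) : ℝ := ∑ p, cw A p * ‖F p‖ ^ 2

lemma nsqC_nonneg (A : Alg N B) (F : B × B → ℂ) : 0 ≤ nsqC A F :=
  Finset.sum_nonneg fun p _ => mul_nonneg (cw_nonneg A p) (by positivity)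

lemma nsqC_X (A A' : Alg N B) (u u' : Fin N → ℂ) (t : ℕ)
    (h : ∀ b, ‖A'.st u' t b‖ = ‖A.st u t b‖) :
    nsqC A (X A A' u u' t) = ∑ j, (A.qm u t j) ^ 2 := by
  unfold nsqC X
  rw [show (∑ j, (A.qm u t j) ^ 2) = ∑ p : B × B, cw A p * (‖A.st u t p.1‖ ^ 2 * ‖A.st u t p.2‖ ^ 2)
    from sum_cw A (fun b => ‖A.st u t b‖ ^ 2)]
  refine Finset.sum_congr rfl fun p _ => ?_
  rw [norm_mul, mul_pow, h]

lemma nsqC_split (A A' : Alg N B) (u u' : Fin N → ℂ) (t : ℕ) :
    nsqC A (X A A' u u' t)
      ≤ 2 * nsqC A (DD A A' u u' t) + 2 * nsq (RR A A' u u' t) := by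
  unfold nsqC nsq
  rw [Finset.mul_sum, Finset.mul_sum, ← Finset.sum_add_distrib]
  refine Finset.sum_le_sum fun p _ => ?_
  have h1 : X A A' u u' t p = DD A A' u u' t p + RR A A' u u' t p := by
    unfold RR; ring
  have h2 := norm_add_sq_le (DD A A' u u' t p) (RR A A' u u' t p) 1 one_pos
  rw [h1]
  have h3 := cw_nonneg A p
  have h4 := cw_le_one A p
  have h5 : 0 ≤ ‖RR A A' u u' t p‖ ^ 2 := by positivity
  calc cw A p * ‖DD A A' u u' t p + RR A A' u u' t p‖ ^ 2
      ≤ cw A p * ((1 + 1 / 1) * ‖DD A A' u u' t p‖ ^ 2 + (1 + 1) * ‖RR A A' u u' t p‖ ^ 2) := by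
        gcongr
    _ = 2 * (cw A p * ‖DD A A' u u' t p‖ ^ 2) + cw A p * (2 * ‖RR A A' u u' t p‖ ^ 2) := by ring
    _ ≤ 2 * (cw A p * ‖DD A A' u u' t p‖ ^ 2) + 1 * (2 * ‖RR A A' u u' t p‖ ^ 2) := by gcongr
    _ = _ := by ring

end Pool.Agent.TH334.NR
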