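import Pool.Agent.TH334.NR.KB

/-!
# Cube root phases: collisions are rare
-/

set_option autoImplicit false

namespace Pool.Agent.TH334.NR

open Finset Matrix Pool.Agent.H572R2
open scoped Kronecker

variable {N : ℕ} {B : Type} [Fintype B] [DecidableEq B]

omit [DecidableEq B] in
lemma prod_sum4 (F G : B → Finset (Fin N) → ℝ) :
    ∑ p : B × B, ∑ S, ∑ S', F p.1 S * G p.2 S' = (∑ b, ∑ S, F b S) * (∑ b, ∑ S, G b S) := by
  rw [Fintype.sum_prod_type, Finset.sum_mul_sum]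
  refine Finset.sum_congr rfl fun b _ => Finset.sum_congr rfl fun c _ => ?_
  rw [Finset.sum_mul_sum]

namespace Alg

variable (A : Alg N B)

/-- Weight at a query to `j`. -/
noncomputable def wp (t : ℕ) (j : Fin N) (b : B) (S : Finset (Fin N)) : ℝ :=
  if A.pos b = some j then ‖A.co t S b‖ ^ 2 else 0

/-- Weight of the sets containing `j`. -/
noncomputable def wi (t : ℕ) (j : Fin N) (b : B) (S : Finset (Fin N)) : ℝ :=
  if j ∈ S then ‖A.co t S b‖ ^ 2 else 0

lemma wp_nonneg (t : ℕ) (j : Fin N) (b : B) (S : Finset (Fin N)) : 0 ≤ A.wp t j b S := by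
  unfold wp; split_ifs <;> positivity

lemma wi_nonneg (t : ℕ) (j : Fin N) (b : B) (S : Finset (Fin N)) : 0 ≤ A.wi t j b S := by
  unfold wi; split_ifs <;> positivity

lemma sum_wp (t : ℕ) (j : Fin N) : ∑ b, ∑ S, A.wp t j b S = A.pm t j := by
  unfold wp pm
  refine Finset.sum_congr rfl fun b _ => ?_
  split_ifs <;> simp

lemma sum_wi (t : ℕ) (j : Fin N) : ∑ b, ∑ S, A.wi t j b S = A.im t j := rfl

open Classical in
lemma kill_le {T : ℕ} (h : A.NRc T) {t : ℕ} (ht : t < T) (p : B × B) (S S' : Finset (Fin N)) :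
    (if Disjoint S S' ∧ kill (A.os p.1) (A.os p.2) S S'
        then ‖A.co t S p.1‖ ^ 2 * ‖A.co t S' p.2‖ ^ 2 else 0)
      ≤ ∑ j, (A.wp t j p.1 S * A.wp t j p.2 S' + A.wp t j p.1 S * A.wi t j p.2 S'
          + A.wi t j p.1 S * A.wp t j p.2 S') := by
  have hnn : ∀ j, 0 ≤ A.wp t j p.1 S * A.wp t j p.2 S' + A.wp t j p.1 S * A.wi t j p.2 S'
          + A.wi t j p.1 S * A.wp t j p.2 S' := by
    intro j
    have h1 := A.wp_nonneg t j p.1 S
    have h2 := A.wp_nonneg t j p.2 S'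
    have h3 := A.wi_nonneg t j p.1 S
    have h4 := A.wi_nonneg t j p.2 S'
    positivity
  have hrhs := Finset.sum_nonneg (s := Finset.univ) fun j (_ : j ∈ Finset.univ) => hnn j
  by_cases hd : Disjoint (A.os p.1) S
  swap
  · have : A.co t S p.1 = 0 := h t ht _ _ hd
    rw [this]
    simpa using hrhs
  by_cases hd' : Disjoint (A.os p.2) S'
  swap
  · have : A.co t S' p.2 = 0 := h t ht _ _ hd'
    rw [this]
    simpa using hrhs
  split_ifs with hk
  swap
  · exact hrhs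
  have hos : ∀ (b : B) (j : Fin N), j ∈ A.os b → A.pos b = some j := by
    intro b j hj
    unfold os at hj
    rwa [Option.mem_toFinset] at hj
  have hle : ∀ j, ‖A.co t S p.1‖ ^ 2 * ‖A.co t S' p.2‖ ^ 2
      ≤ A.wp t j p.1 S * A.wp t j p.2 S' + A.wp t j p.1 S * A.wi t j p.2 S'
          + A.wi t j p.1 S * A.wp t j p.2 S' →
      ‖A.co t S p.1‖ ^ 2 * ‖A.co t S' p.2‖ ^ 2
        ≤ ∑ j, (A.wp t j p.1 S * A.wp t j p.2 S' + A.wp t j p.1 S * A.wi t j p.2 S'
          + A.wi t j p.1 S * A.wp t j p.2 S') :=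
    fun j hj => hj.trans (Finset.single_le_sum (fun j _ => hnn j) (Finset.mem_univ j))
  rcases hk.2 with h1 | h1
  · rw [Finset.not_disjoint_iff] at h1
    obtain ⟨j, hj1, hj2⟩ := h1
    apply hle j
    have e1 : A.wp t j p.1 S = ‖A.co t S p.1‖ ^ 2 := if_pos (hos _ _ hj1)
    have e2 : A.wp t j p.2 S' = ‖A.co t S' p.2‖ ^ 2 := if_pos (hos _ _ hj2)
    have e3 := A.wi_nonneg t j p.1 S
    have e4 := A.wi_nonneg t j p.2 S'
    rw [e1, e2]
    have : 0 ≤ ‖A.co t S p.1‖ ^ 2 * A.wi t j p.2 S' := by positivity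
    have : 0 ≤ A.wi t j p.1 S * ‖A.co t S' p.2‖ ^ 2 := by positivity
    linarith
  · rw [Finset.not_disjoint_iff] at h1
    obtain ⟨j, hj1, hj2⟩ := h1
    rw [Finset.mem_union] at hj1 hj2
    rcases hj1 with hj1 | hj1
    · rcases hj2 with hj2 | hj2
      · exact absurd hj2 (Finset.disjoint_left.1 hd hj1)
      · apply hle j
        have e1 : A.wp t j p.1 S = ‖A.co t S p.1‖ ^ 2 := if_pos (hos _ _ hj1)
        have e2 : A.wi t j p.2 S' = ‖A.co t S' p.2‖ ^ 2 := if_pos hj2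
        have e3 := A.wi_nonneg t j p.1 S
        have e4 := A.wp_nonneg t j p.2 S'
        rw [e1, e2]
        have : 0 ≤ ‖A.co t S p.1‖ ^ 2 * A.wp t j p.2 S' := by positivity
        have : 0 ≤ A.wi t j p.1 S * A.wp t j p.2 S' := by positivity
        linarith
    · rcases hj2 with hj2 | hj2
      · apply hle j
        have e1 : A.wp t j p.2 S' = ‖A.co t S' p.2‖ ^ 2 := if_pos (hos _ _ hj1)
        have e2 : A.wi t j p.1 S = ‖A.co t S p.1‖ ^ 2 := if_pos hj2
        have e3 := A.wi_nonneg t j p.2 S'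
        have e4 := A.wp_nonneg t j p.1 S
        rw [e1, e2]
        have : 0 ≤ A.wp t j p.1 S * ‖A.co t S' p.2‖ ^ 2 := by positivity
        have : 0 ≤ A.wp t j p.1 S * A.wi t j p.2 S' := by positivity
        linarith
      · exact absurd hj2 (Finset.disjoint_left.1 hd' hj1)

/-- The lost part, run and conjugate run. -/
lemma KK_b {T : ℕ} (h : A.NRc T) (τ : ℝ) (hτ0 : 0 ≤ τ) (hτ : ∀ t < T, ∀ j, A.pm t j ≤ τ)
    {t : ℕ} (ht : t < T) :
    E3 (fun z => nsq (KK A A.cj (te z) (fun i => star (te z i)) t)) ≤ (2 * t + 1) * τ := by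
  classical
  have h1 : E3 (fun z => nsq (KK A A.cj (te z) (fun i => star (te z i)) t))
      = ∑ p : B × B, ∑ S, ∑ S', (if Disjoint S S' ∧ kill (A.os p.1) (A.os p.2) S S'
        then ‖A.co t S p.1‖ ^ 2 * ‖A.co t S' p.2‖ ^ 2 else 0) := by
    unfold nsq KK
    rw [E3_sum]
    refine Finset.sum_congr rfl fun p _ => ?_
    rw [ds_b A A.cj _ (fun S S' hh => hh.1) t p]
    refine Finset.sum_congr rfl fun S _ => Finset.sum_congr rfl fun S' _ => ?_
    rw [A.cj_co, norm_star, A.cj_os]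
    congr
  have h2 : ∑ p : B × B, ∑ S, ∑ S', (if Disjoint S S' ∧ kill (A.os p.1) (A.os p.2) S S'
        then ‖A.co t S p.1‖ ^ 2 * ‖A.co t S' p.2‖ ^ 2 else 0)
      ≤ ∑ p : B × B, ∑ S, ∑ S', ∑ j, (A.wp t j p.1 S * A.wp t j p.2 S'
          + A.wp t j p.1 S * A.wi t j p.2 S' + A.wi t j p.1 S * A.wp t j p.2 S') :=
    Finset.sum_le_sum fun p _ => Finset.sum_le_sum fun S _ => Finset.sum_le_sum fun S' _ =>
      A.kill_le h ht p S S'
  have h3 : ∑ p : B × B, ∑ S, ∑ S', ∑ j, (A.wp t j p.1 S * A.wp t j p.2 S'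
          + A.wp t j p.1 S * A.wi t j p.2 S' + A.wi t j p.1 S * A.wp t j p.2 S')
      = ∑ j, (A.pm t j * A.pm t j + A.pm t j * A.im t j + A.im t j * A.pm t j) := by
    have e : ∀ p : B × B, ∑ S, ∑ S', ∑ j, (A.wp t j p.1 S * A.wp t j p.2 S'
          + A.wp t j p.1 S * A.wi t j p.2 S' + A.wi t j p.1 S * A.wp t j p.2 S')
        = ∑ j, ∑ S, ∑ S', (A.wp t j p.1 S * A.wp t j p.2 S'
          + A.wp t j p.1 S * A.wi t j p.2 S' + A.wi t j p.1 S * A.wp t j p.2 S') := by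
      intro p
      rw [Finset.sum_comm (s := (Finset.univ : Finset (Fin N)))]
      refine Finset.sum_congr rfl fun S _ => ?_
      rw [Finset.sum_comm]
    rw [Finset.sum_congr rfl fun p _ => e p, Finset.sum_comm]
    refine Finset.sum_congr rfl fun j _ => ?_
    simp only [Finset.sum_add_distrib]
    rw [prod_sum4 (A.wp t j) (A.wp t j), prod_sum4 (A.wp t j) (A.wi t j),
      prod_sum4 (A.wi t j) (A.wp t j), A.sum_wp, A.sum_wi]
  have h4 : ∑ j, (A.pm t j * A.pm t j + A.pm t j * A.im t j + A.im t j * A.pm t j)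
      ≤ ∑ j, A.pm t j * ((2 * t + 1) * τ) := by
    refine Finset.sum_le_sum fun j _ => ?_
    have e1 := hτ t ht j
    have e2 := A.im_le h τ hτ t ht.le j
    have e3 := A.pm_nonneg t j
    nlinarith
  rw [← Finset.sum_mul] at h4
  have h5 := A.sum_pm_le h ht.le
  have h6 : (∑ j, A.pm t j) * ((2 * t + 1) * τ) ≤ 1 * ((2 * t + 1) * τ) := by gcongr
  rw [h1]
  linarith

lemma sum_pm_sq {T : ℕ} (h : A.NRc T) (τ : ℝ) (hτ0 : 0 ≤ τ) (hτ : ∀ t < T, ∀ j, A.pm t j ≤ τ)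
    {t : ℕ} (ht : t < T) : ∑ j, (A.pm t j) ^ 2 ≤ τ := by
  have h1 : ∑ j, (A.pm t j) ^ 2 ≤ ∑ j, A.pm t j * τ := by
    refine Finset.sum_le_sum fun j _ => ?_
    have e1 := hτ t ht j
    have e3 := A.pm_nonneg t j
    nlinarith
  rw [← Finset.sum_mul] at h1
  have h5 := A.sum_pm_le h ht.le
  nlinarith

/-- The part with disjoint sets, at collisions. -/
lemma DD_b {T : ℕ} (h : A.NRc T) (τ : ℝ) (hτ0 : 0 ≤ τ) (hτ : ∀ t < T, ∀ j, A.pm t j ≤ τ)
    {t : ℕ} (ht : t < T) :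
    E3 (fun z => nsqC A (DD A A.cj (te z) (fun i => star (te z i)) t)) ≤ τ := by
  classical
  have h1 : E3 (fun z => nsqC A (DD A A.cj (te z) (fun i => star (te z i)) t))
      ≤ ∑ p : B × B, cw A p * ((∑ S, ‖A.co t S p.1‖ ^ 2) * (∑ S, ‖A.co t S p.2‖ ^ 2)) := by
    unfold nsqC DD
    rw [E3_sum]
    refine Finset.sum_le_sum fun p _ => ?_
    rw [E3_mul, ds_b A A.cj _ (fun S S' hh => hh) t p, Finset.sum_mul_sum]
    have := cw_nonneg A p
    gcongr with S _ S' _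
    split_ifs
    · rw [A.cj_co, norm_star]
    · positivity
  have h2 := sum_cw A (fun b => ∑ S, ‖A.co t S b‖ ^ 2)
  have h3 : ∑ j, (∑ b, if A.pos b = some j then ∑ S, ‖A.co t S b‖ ^ 2 else 0) ^ 2
      = ∑ j, (A.pm t j) ^ 2 := rfl
  rw [← h2, h3] at h1
  exact h1.trans (A.sum_pm_sq h τ hτ0 hτ ht)

/-- Few collisions with cube root phases. -/
lemma YC {T : ℕ} (h : A.NRc T) (τ : ℝ) (hτ0 : 0 ≤ τ) (hτ : ∀ t < T, ∀ j, A.pm t j ≤ τ)
    {t : ℕ} (ht : t < T) :
    E3 (fun z => ∑ j, (A.qm (te z) t j) ^ 2) ≤ (2 + 2 * (t : ℝ) ^ 3) * τ := by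
  have h1 : E3 (fun z => ∑ j, (A.qm (te z) t j) ^ 2)
      ≤ E3 (fun z => 2 * nsqC A (DD A A.cj (te z) (fun i => star (te z i)) t)
        + 2 * (t * ∑ s ∈ Finset.range t, nsq (KK A A.cj (te z) (fun i => star (te z i)) s))) := by
    apply E3_mono
    intro z
    have hst : ∀ b, ‖A.cj.st (fun i => star (te z i)) t b‖ = ‖A.st (te z) t b‖ := by
      intro b
      rw [A.cj_st, norm_star]
    have e1 := nsqC_X A A.cj (te z) (fun i => star (te z i)) t hst
    have e2 := nsqC_split A A.cj (te z) (fun i => star (te z i)) t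
    have e3 := RR_le h (A.cj_NRc h) (norm_te z) (u' := fun i => star (te z i))
      (fun i => by rw [norm_star]; exact norm_te z i) t ht.le
    rw [← e1]
    linarith
  rw [E3_add, E3_mul, E3_mul, E3_mul, E3_sum (Finset.range t)
    (fun s z => nsq (KK A A.cj (te z) (fun i => star (te z i)) s))] at h1
  have h2 := A.DD_b h τ hτ0 hτ ht
  have h3 : ∑ s ∈ Finset.range t, E3 (fun z => nsq (KK A A.cj (te z) (fun i => star (te z i)) s))
      ≤ ∑ s ∈ Finset.range t, (2 * (s : ℝ) + 1) * τ := by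
    refine Finset.sum_le_sum fun s hs => ?_
    exact A.KK_b h τ hτ0 hτ (by have := Finset.mem_range.1 hs; omega)
  have h4 : ∑ s ∈ Finset.range t, (2 * (s : ℝ) + 1) * τ = (t : ℝ) ^ 2 * τ := by
    rw [← Finset.sum_mul]
    congr 1
    clear h1 h2 h3 ht
    induction t with
    | zero => simp
    | succ t ih =>
      rw [Finset.sum_range_succ, ih]
      push_cast
      ring
  rw [h4] at h3
  have h5 : (t : ℝ) * ∑ s ∈ Finset.range t,
      E3 (fun z => nsq (KK A A.cj (te z) (fun i => star (te z i)) s)) ≤ t * ((t : ℝ) ^ 2 * τ) := by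
    gcongr
  refine h1.trans ?_
  have h6 : (2 + 2 * (t : ℝ) ^ 3) * τ = 2 * τ + 2 * (t * ((t : ℝ) ^ 2 * τ)) := by ring
  rw [h6]
  linarith

end Alg

end Pool.Agent.TH334.NR
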