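import Pool.Agent.TH334.NR.KB2

/-!
# Two identical copies
-/

set_option autoImplicit false

namespace Pool.Agent.TH334.NR

open Finset Matrix Pool.Agent.H572R2
open scoped Kronecker

variable {N : ℕ} {B : Type} [Fintype B] [DecidableEq B]

/-- The coefficient of `U` in the product, over disjoint pairs. -/
noncomputable def Ec (A : Alg N B) (t : ℕ) (U : Finset (Fin N)) (p : B × B) : ℂ :=
  ∑ S ∈ U.powerset, A.co t S p.1 * A.co t (U \ S) p.2

/-- The two copies collide, in terms of the union. -/
def killU (A : Alg N B) (p : B × B) (U : Finset (Fin N)) : Prop :=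
  ¬ Disjoint (A.os p.1) (A.os p.2) ∨ ¬ Disjoint (A.os p.1 ∪ A.os p.2) U

open Classical in
lemma union_sum (u : Fin N → ℂ) (P : Finset (Fin N) → Prop) (f g : Finset (Fin N) → ℂ) :
    ∑ S, ∑ S', (if Disjoint S S' ∧ P (S ∪ S') then mon u S * mon u S' * (f S * g S') else 0)
      = ∑ U, mon u U * (if P U then ∑ S ∈ U.powerset, f S * g (U \ S) else 0) := by
  have h1 : ∀ U : Finset (Fin N),
      mon u U * (if P U then ∑ S ∈ U.powerset, f S * g (U \ S) else 0)
      = ∑ S, (if P U then mon u U * f S else 0) * (if S ⊆ U then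
          (fun R => if Disjoint S R then g R else 0) (U \ S) else 0) := by
    intro U
    by_cases hP : P U
    · simp only [hP, if_true]
      have e : U.powerset = Finset.univ.filter (fun S => S ⊆ U) := by
        ext S; simp
      rw [e, Finset.sum_filter, Finset.mul_sum]
      refine Finset.sum_congr rfl fun S _ => ?_
      split_ifs with h2 h3
      · ring
      · exact absurd Finset.disjoint_sdiff h3
      · ring
    · simp [hP]
  rw [Finset.sum_congr rfl fun U _ => h1 U]
  conv_rhs => rw [Finset.sum_comm]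
  refine Finset.sum_congr rfl fun S _ => ?_
  rw [reidx S (fun U => if P U then mon u U * f S else 0)
    (fun R => if Disjoint S R then g R else 0) (fun R hR => if_neg hR)]
  refine Finset.sum_congr rfl fun R _ => ?_
  by_cases hd : Disjoint S R
  · rw [mon_union u hd]
    by_cases hP : P (S ∪ R)
    · simp only [hd, hP, and_self, if_true]; ring
    · simp only [hd, hP, and_false, if_false, if_true]; ring
  · simp [hd]

variable (A : Alg N B)

lemma DD_eq (u : Fin N → ℂ) (t : ℕ) (p : B × B) :
    DD A A u u t p = ∑ U, mon u U * Ec A t U p := by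
  classical
  have h := union_sum u (fun _ => True) (fun S => A.co t S p.1) (fun S => A.co t S p.2)
  simp only [and_true, if_true] at h
  unfold DD ds Ec
  rw [← h]
  refine Finset.sum_congr rfl fun S _ => Finset.sum_congr rfl fun S' _ => ?_
  congr

open Classical in
lemma KK_eq (u : Fin N → ℂ) (t : ℕ) (p : B × B) :
    KK A A u u t p = ∑ U, mon u U * (if killU A p U then Ec A t U p else 0) := by
  have h := union_sum u (killU A p) (fun S => A.co t S p.1) (fun S => A.co t S p.2)
  unfold KK ds Ec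
  rw [← h]
  refine Finset.sum_congr rfl fun S _ => Finset.sum_congr rfl fun S' _ => ?_
  by_cases hh : Disjoint S S' ∧ killU A p (S ∪ S')
  · rw [if_pos hh]
    exact if_pos hh
  · rw [if_neg hh]
    exact if_neg hh

/-- Total mass of the part with disjoint sets. -/
noncomputable def nE (t : ℕ) : ℝ := ∑ p : B × B, ∑ U, ‖Ec A t U p‖ ^ 2

lemma EE_DD (t : ℕ) : EE (fun x => nsq (DD A A (sg x) (sg x) t)) = nE A t := by
  unfold nsq nE
  rw [EE_sum]
  refine Finset.sum_congr rfl fun p _ => ?_
  simp_rw [DD_eq]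
  exact pars_sg _

lemma EE_DDC (t : ℕ) : EE (fun x => nsqC A (DD A A (sg x) (sg x) t))
    = ∑ p : B × B, cw A p * ∑ U, ‖Ec A t U p‖ ^ 2 := by
  unfold nsqC
  rw [EE_sum]
  refine Finset.sum_congr rfl fun p _ => ?_
  rw [EE_mul]
  simp_rw [DD_eq]
  rw [pars_sg]

lemma EE_KK (t : ℕ) :
    EE (fun x => nsq (fun p => DD A A (sg x) (sg x) t p - KK A A (sg x) (sg x) t p))
      = nE A t - EE (fun x => nsq (KK A A (sg x) (sg x) t)) := by
  classical
  have h1 : EE (fun x => nsq (KK A A (sg x) (sg x) t))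
      = ∑ p : B × B, ∑ U, ‖(if killU A p U then Ec A t U p else 0)‖ ^ 2 := by
    unfold nsq
    rw [EE_sum]
    refine Finset.sum_congr rfl fun p _ => ?_
    simp_rw [KK_eq]
    exact pars_sg _
  have h2 : EE (fun x => nsq (fun p => DD A A (sg x) (sg x) t p - KK A A (sg x) (sg x) t p))
      = ∑ p : B × B, ∑ U, ‖(if killU A p U then 0 else Ec A t U p)‖ ^ 2 := by
    unfold nsq
    rw [EE_sum]
    refine Finset.sum_congr rfl fun p _ => ?_
    rw [← pars_sg]
    apply EE_congr
    intro x
    show ‖DD A A (sg x) (sg x) t p - KK A A (sg x) (sg x) t p‖ ^ 2 = _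
    rw [DD_eq, KK_eq, ← Finset.sum_sub_distrib]
    congr 2
    refine Finset.sum_congr rfl fun U _ => ?_
    split_ifs <;> ring
  rw [h1, h2]
  unfold nE
  rw [← Finset.sum_sub_distrib]
  refine Finset.sum_congr rfl fun p _ => ?_
  rw [← Finset.sum_sub_distrib]
  refine Finset.sum_congr rfl fun U _ => ?_
  split_ifs <;> simp

lemma nE_succ {T : ℕ} (h : A.NRc T) {t : ℕ} (ht : t < T) :
    nE A (t + 1) = nE A t - EE (fun x => nsq (KK A A (sg x) (sg x) t)) := by
  rw [← EE_KK, ← EE_DD]
  apply EE_congr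
  intro x
  rw [DD_succ h h ht, nsq_unitary _ (kron_isom _ _ (A.hW t) (A.hW t)), nsq_phase]
  intro q
  rw [norm_mul, norm_mon (norm_sg x), norm_mon (norm_sg x), one_mul]

lemma nsq_X {A' : Alg N B} {u u' : Fin N → ℂ} (hu : ∀ i, ‖u i‖ = 1) (hu' : ∀ i, ‖u' i‖ = 1)
    (t : ℕ) : nsq (X A A' u u' t) = 1 := by
  have h1 := A.nst hu t
  have h2 := A'.nst hu' t
  unfold nsq at *
  unfold X
  rw [Fintype.sum_prod_type]
  have : ∀ b c, ‖A.st u t b * A'.st u' t c‖ ^ 2 = ‖A.st u t b‖ ^ 2 * ‖A'.st u' t c‖ ^ 2 := by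
    intro b c
    rw [norm_mul, mul_pow]
  simp_rw [this, ← Finset.mul_sum, h2, mul_one]
  exact h1

lemma nE_zero : nE A 0 = 1 := by
  rw [← EE_DD, ← EE_const (N := N) 1]
  apply EE_congr
  intro x
  rw [← nsq_X A (A' := A) (norm_sg x) (norm_sg x) 0]
  congr 1
  funext p
  have := RR_zero (A := A) (A' := A) (sg x) (sg x) p
  unfold RR at this
  linear_combination -this

/-- The total lost part. -/
lemma sum_KK {T : ℕ} (h : A.NRc T) :
    ∀ t ≤ T, ∑ s ∈ Finset.range t, EE (fun x => nsq (KK A A (sg x) (sg x) s)) = 1 - nE A t := by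
  intro t
  induction t with
  | zero => intro _; rw [nE_zero]; simp
  | succ t ih =>
    intro ht
    rw [Finset.sum_range_succ, ih (by omega), nE_succ A h (show t < T by omega)]
    ring

end Pool.Agent.TH334.NR
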