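import Pool.Agent.TH334.NR.KK

/-!
# Two identical copies, with cube root phases
-/

set_option autoImplicit false

namespace Pool.Agent.TH334.NR

open Finset Matrix Pool.Agent.H572R2
open scoped Kronecker

variable {N : ℕ} {B : Type} [Fintype B] [DecidableEq B]

/-- The record of a pair of sets, two identical runs. -/
def rk (P : Finset (Fin N) × Finset (Fin N)) (i : Fin N) : Fin 3 :=
  (if i ∈ P.1 then 1 else 0) + (if i ∈ P.2 then 1 else 0)

/-- The record of a set. -/
def ru (U : Finset (Fin N)) (i : Fin N) : Fin 3 := if i ∈ U then 1 else 0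

lemma mon_te_k (z : Fin N → Fin 3) (P : Finset (Fin N) × Finset (Fin N)) :
    mon (te z) P.1 * mon (te z) P.2 = ch c3 (rk P) z := by
  have e : ∀ (u : Fin N → ℂ) (S : Finset (Fin N)), mon u S = ∏ i, if i ∈ S then u i else 1 := by
    intro u S
    unfold mon
    rw [Finset.prod_ite_mem, Finset.univ_inter]
  rw [e, e, ← Finset.prod_mul_distrib]
  unfold ch
  refine Finset.prod_congr rfl fun i _ => ?_
  unfold c3 rk te
  by_cases a1 : i ∈ P.1 <;> by_cases a2 : i ∈ P.2
  · simp only [a1, a2, if_true]
    rw [← pow_add]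
    have : (((1 : Fin 3) + 1 : Fin 3) : ℕ) = 2 := rfl
    rw [this, two_mul]
  · simp only [a1, a2, if_true, if_false, mul_one, add_zero]
    have : ((1 : Fin 3) : ℕ) = 1 := rfl
    rw [this, one_mul]
  · simp only [a1, a2, if_true, if_false, one_mul, zero_add]
    have : ((1 : Fin 3) : ℕ) = 1 := rfl
    rw [this, one_mul]
  · simp only [a1, a2, if_false, mul_one, add_zero]
    simp

/-- Parseval for pairs. -/
lemma pars_k (a : Finset (Fin N) × Finset (Fin N) → ℂ) :
    E3 (fun z => ‖∑ P : Finset (Fin N) × Finset (Fin N), mon (te z) P.1 * mon (te z) P.2 * a P‖ ^ 2)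
      = ∑ γ, ‖∑ P with rk P = γ, a P‖ ^ 2 := by
  unfold E3
  simp_rw [mon_te_k]
  rw [pars_fib orth3 (rk : Finset (Fin N) × Finset (Fin N) → Fin N → Fin 3) a]
  have h3 : (Fintype.card (Fin 3) : ℝ) = 3 := by simp
  rw [h3, mul_comm, mul_div_assoc, div_self (by positivity), mul_one]

/-- The fibre over the record of a set. -/
lemma fib_ru (U : Finset (Fin N)) (a : Finset (Fin N) × Finset (Fin N) → ℂ) :
    ∑ P with rk P = ru U, a P = ∑ S ∈ U.powerset, a (S, U \ S) := by
  have key : ∀ P : Finset (Fin N) × Finset (Fin N), rk P = ru U → P.1 ⊆ U ∧ P.2 = U \ P.1 := by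
    intro P hP
    have h : ∀ i, (i ∈ P.1 → i ∈ U) ∧ (i ∈ P.2 ↔ i ∈ U ∧ i ∉ P.1) := by
      intro i
      have e := congrFun hP i
      unfold rk ru at e
      by_cases a1 : i ∈ P.1 <;> by_cases a2 : i ∈ P.2 <;> by_cases a3 : i ∈ U <;> simp_all
    refine ⟨fun i hi => (h i).1 hi, ?_⟩
    ext i
    rw [Finset.mem_sdiff]
    exact (h i).2
  refine Finset.sum_nbij' (fun P => P.1) (fun S => (S, U \ S)) ?_ ?_ ?_ ?_ ?_
  · intro P hP
    exact Finset.mem_powerset.2 (key P (Finset.mem_filter.1 hP).2).1
  · intro S hS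
    have hSU := Finset.mem_powerset.1 hS
    simp only [Finset.mem_filter, Finset.mem_univ, true_and]
    funext i
    unfold rk ru
    by_cases a1 : i ∈ S
    · have : i ∈ U := hSU a1
      simp [a1, this]
    · by_cases a2 : i ∈ U <;> simp [a1, a2]
  · intro P hP
    have := key P (Finset.mem_filter.1 hP).2
    exact Prod.ext rfl this.2.symm
  · intro S _
    rfl
  · intro P hP
    have := key P (Finset.mem_filter.1 hP).2
    show a P = a (P.1, U \ P.1)
    rw [← this.2]

lemma ru_inj : Function.Injective (ru : Finset (Fin N) → Fin N → Fin 3) := by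
  intro U V h
  ext i
  have e := congrFun h i
  unfold ru at e
  by_cases a1 : i ∈ U <;> by_cases a2 : i ∈ V <;> simp_all

/-- Lower bound for the sum over records by the records of sets. -/
lemma le_records (w : (Fin N → Fin 3) → ℝ) (hw : ∀ γ, 0 ≤ w γ) : ∑ U, w (ru U) ≤ ∑ γ, w γ := by
  rw [← Finset.sum_image (s := Finset.univ) (g := (ru : Finset (Fin N) → Fin N → Fin 3))
    (f := w) (fun a _ b _ h => ru_inj h)]
  exact Finset.sum_le_sum_of_subset_of_nonneg (Finset.subset_univ _) fun γ _ _ => hw γ

/-- The other records contain a two. -/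
lemma records_le (w : (Fin N → Fin 3) → ℝ) (hw : ∀ γ, 0 ≤ w γ) :
    ∑ γ, w γ ≤ ∑ U, w (ru U) + ∑ j, ∑ γ, (if γ j = 2 then w γ else 0) := by
  have h1 : ∀ γ, w γ ≤ (∑ U, if ru U = γ then w γ else 0)
      + ∑ j, (if γ j = 2 then w γ else 0) := by
    intro γ
    have n1 : ∀ U, 0 ≤ (if ru U = γ then w γ else 0) := by
      intro U; split_ifs
      · exact hw γ
      · exact le_rfl
    have n2 : ∀ j : Fin N, 0 ≤ (if γ j = 2 then w γ else 0) := by
      intro j; split_ifs
      · exact hw γ
      · exact le_rfl
    by_cases h : ∃ j, γ j = 2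
    · obtain ⟨j, hj⟩ := h
      have e1 : w γ ≤ ∑ j, (if γ j = 2 then w γ else 0) := by
        have := Finset.single_le_sum (f := fun j => if γ j = 2 then w γ else 0)
          (fun j _ => n2 j) (Finset.mem_univ j)
        simp only [hj, if_true] at this
        exact this
      have e2 := Finset.sum_nonneg (s := Finset.univ) fun U (_ : U ∈ Finset.univ) => n1 U
      linarith
    · push Not at h
      have e3 : ru (Finset.univ.filter (fun i => γ i = 1)) = γ := by
        funext i
        unfold ru
        by_cases hi : γ i = 1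
        · simp [hi]
        · have h2 := h i
          simp only [Finset.mem_filter, Finset.mem_univ, true_and, hi, if_false]
          generalize γ i = g at *
          fin_cases g <;> simp_all
      have e1 : w γ ≤ ∑ U, (if ru U = γ then w γ else 0) := by
        have := Finset.single_le_sum (f := fun U => if ru U = γ then w γ else 0)
          (fun U _ => n1 U) (Finset.mem_univ (Finset.univ.filter (fun i => γ i = 1)))
        simp only [e3, if_true] at this
        exact this
      have e2 := Finset.sum_nonneg (s := Finset.univ) fun j (_ : j ∈ Finset.univ) => n2 j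
      linarith
  have h2 := Finset.sum_le_sum fun γ (_ : γ ∈ Finset.univ) => h1 γ
  rw [Finset.sum_add_distrib] at h2
  have h3 : ∑ γ, ∑ U : Finset (Fin N), (if ru U = γ then w γ else 0) = ∑ U, w (ru U) := by
    rw [Finset.sum_comm]
    refine Finset.sum_congr rfl fun U _ => ?_
    rw [Finset.sum_ite_eq]
    simp
  have h4 : ∑ γ : Fin N → Fin 3, ∑ j, (if γ j = 2 then w γ else 0)
      = ∑ j, ∑ γ, (if γ j = 2 then w γ else 0) := Finset.sum_comm
  rw [h3, h4] at h2
  exact h2

variable (A : Alg N B)

/-- The part of the state which has read `j`. -/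
noncomputable def Pj (u : Fin N → ℂ) (t : ℕ) (j : Fin N) (b : B) : ℂ :=
  ∑ S, if j ∈ S then mon u S * A.co t S b else 0

lemma Pj_zero (u : Fin N → ℂ) (j : Fin N) (b : B) : Pj A u 0 j b = 0 := by
  unfold Pj
  refine Finset.sum_eq_zero fun S _ => ?_
  split_ifs with h
  · rw [Alg.co_zero, if_neg]
    · simp
    · rintro rfl
      simp at h
  · rfl

lemma Pj_succ {T : ℕ} (h : A.NRc T) {t : ℕ} (ht : t < T) (u : Fin N → ℂ) (j : Fin N) :
    Pj A u (t + 1) j = A.W t *ᵥ (fun b => mon u (A.os b)
      * (if A.pos b = some j then A.st u t b else Pj A u t j b)) := by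
  have h1 : ∀ b, mon u (A.os b) * (if A.pos b = some j then A.st u t b else Pj A u t j b)
      = ∑ S, (if j ∈ S then mon u S else 0)
        * (if A.os b ⊆ S then A.co t (S \ A.os b) b else 0) := by
    intro b
    rw [reidx (A.os b) (fun S => if j ∈ S then mon u S else 0) (fun R => A.co t R b) (h t ht b)]
    by_cases hb : A.pos b = some j
    · rw [if_pos hb, A.expand h u t ht.le b, Finset.mul_sum]
      refine Finset.sum_congr rfl fun R _ => ?_
      have hj : j ∈ A.os b ∪ R := by
        apply Finset.mem_union_left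
        unfold Alg.os
        rw [Option.mem_toFinset]
        exact hb
      rw [if_pos hj]
      by_cases hd : Disjoint (A.os b) R
      · rw [mon_union u hd]; ring
      · rw [h t ht b R hd]; ring
    · rw [if_neg hb]
      unfold Pj
      rw [Finset.mul_sum]
      refine Finset.sum_congr rfl fun R _ => ?_
      have hj : j ∉ A.os b := by
        unfold Alg.os
        rw [Option.mem_toFinset]
        exact hb
      by_cases hd : Disjoint (A.os b) R
      · by_cases hR : j ∈ R
        · rw [if_pos hR, if_pos (Finset.mem_union_right _ hR), mon_union u hd]; ring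
        · have : j ∉ A.os b ∪ R := by
            rw [Finset.mem_union]
            exact fun hh => hh.elim hj hR
          rw [if_neg hR, if_neg this]; ring
      · rw [h t ht b R hd]; simp
  rw [funext h1]
  funext b
  unfold Pj
  simp only [Alg.co_succ, mulVec, dotProduct]
  simp_rw [Finset.mul_sum]
  rw [Finset.sum_comm]
  refine Finset.sum_congr rfl fun S _ => ?_
  split_ifs with hS
  · refine Finset.sum_congr rfl fun b' _ => ?_
    ring
  · simp

lemma nsq_Pj {T : ℕ} (h : A.NRc T) {u : Fin N → ℂ} (hu : ∀ i, ‖u i‖ = 1) (j : Fin N) :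
    ∀ t ≤ T, nsq (Pj A u t j) = ∑ s ∈ Finset.range t, A.qm u s j := by
  intro t
  induction t with
  | zero =>
    intro _
    unfold nsq
    simp [Pj_zero]
  | succ t ih =>
    intro ht
    rw [Finset.sum_range_succ, ← ih (by omega), Pj_succ A h (show t < T by omega),
      nsq_unitary _ (A.hW t), nsq_phase _ _ (fun b => norm_mon hu _)]
    unfold nsq Alg.qm
    rw [← Finset.sum_add_distrib]
    refine Finset.sum_congr rfl fun b _ => ?_
    by_cases hb : A.pos b = some j
    · have h0 : Pj A u t j b = 0 := by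
        unfold Pj
        refine Finset.sum_eq_zero fun S _ => ?_
        split_ifs with hS
        · rw [h t (by omega) b S, mul_zero]
          rw [Finset.not_disjoint_iff]
          refine ⟨j, ?_, hS⟩
          unfold Alg.os
          rw [Option.mem_toFinset]
          exact hb
        · rfl
      simp only [if_pos hb, h0]
      simp
    · simp only [if_neg hb, add_zero]

/-- Mass of the records with a two at `j`. -/
lemma two_le (t : ℕ) (p : B × B) (j : Fin N) :
    ∑ γ, (if γ j = 2 then ‖∑ P with rk P = γ, A.co t P.1 p.1 * A.co t P.2 p.2‖ ^ 2 else 0)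
      ≤ E3 (fun z => ‖Pj A (te z) t j p.1 * Pj A (te z) t j p.2‖ ^ 2) := by
  have h1 := pars_k (N := N) (fun P => if j ∈ P.1 ∧ j ∈ P.2 then
    A.co t P.1 p.1 * A.co t P.2 p.2 else 0)
  have h2 : E3 (fun z => ‖Pj A (te z) t j p.1 * Pj A (te z) t j p.2‖ ^ 2)
      = E3 (fun z => ‖∑ P : Finset (Fin N) × Finset (Fin N), mon (te z) P.1 * mon (te z) P.2 *
        (if j ∈ P.1 ∧ j ∈ P.2 then A.co t P.1 p.1 * A.co t P.2 p.2 else 0)‖ ^ 2) := by
    apply E3_congr
    intro z
    congr 2
    unfold Pj
    rw [Finset.sum_mul_sum, Fintype.sum_prod_type]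
    refine Finset.sum_congr rfl fun S _ => Finset.sum_congr rfl fun S' _ => ?_
    by_cases a1 : j ∈ S <;> by_cases a2 : j ∈ S' <;> simp [a1, a2]
    ring
  rw [h2, h1]
  refine Finset.sum_le_sum fun γ _ => ?_
  split_ifs with hγ
  · refine le_of_eq ?_
    congr 2
    refine Finset.sum_congr rfl fun P hP => ?_
    have e := congrFun (Finset.mem_filter.1 hP).2 j
    rw [hγ] at e
    unfold rk at e
    rw [if_pos]
    by_cases a1 : j ∈ P.1 <;> by_cases a2 : j ∈ P.2 <;> simp_all
  · positivity

end Pool.Agent.TH334.NR
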