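import Pool.Agent.TH334.NR.Real
import Pool.Agent.H572R2.ReadsMain

/-!
# Variance of an algorithm that never re-reads and has no heavy average query
-/

set_option autoImplicit false

namespace Pool.Agent.TH334.NR

open Finset Matrix Pool.Agent.H572R2

variable {N : ℕ} {B : Type} [Fintype B] [DecidableEq B]

lemma sg_sq (x : Fin N → Bool) (i : Fin N) : sg x i * sg x i = 1 := by
  unfold sg; split_ifs <;> norm_num

lemma sg_star (x : Fin N → Bool) (i : Fin N) : star (sg x i) = sg x i := by
  unfold sg; split_ifs <;> simp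

namespace Alg

variable (A : Alg N B)

/-- The layered evolution of an algorithm. -/
noncomputable def evo : Evo N B 1 where
  W := A.W
  hW := A.hW
  hW' := fun t => mul_eq_one_comm.1 (A.hW t)
  d := fun x s => mon (sg x) (A.os s)
  dsq := fun x s => by
    unfold mon
    rw [← Finset.prod_mul_distrib]
    exact Finset.prod_eq_one fun i _ => sg_sq x i
  dst := fun x s => by
    unfold mon
    rw [star_prod]
    exact Finset.prod_congr rfl fun i _ => sg_star x i
  dn := fun x s => by
    unfold mon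
    rw [norm_prod]
    exact Finset.prod_eq_one fun i _ => norm_sg x i
  Qs := A.os
  Qcard := fun s => by
    unfold os
    cases A.pos s <;> simp
  flip := fun x s i => mon_flp x i _
  st := fun t x => A.st (sg x) t
  st0 := fun _ _ => rfl
  nst0 := fun _ => A.hv
  stS := fun _ _ => rfl

lemma mem_os (b : B) (k : Fin N) : k ∈ A.os b ↔ A.pos b = some k := by
  unfold os
  rw [Option.mem_toFinset, Option.mem_def]

lemma mag_eq (t : ℕ) (k : Fin N) (x : Fin N → Bool) : A.evo.mag t k x = A.qm (sg x) t k := by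
  unfold Evo.mag Evo.pr qm
  rw [Finset.sum_filter]
  refine Finset.sum_congr rfl fun b _ => ?_
  have : (k ∈ A.evo.Qs b) ↔ A.pos b = some k := A.mem_os b k
  simp only [this]
  rfl

lemma young' (ω m θ : ℝ) (hω : 0 ≤ ω) (hω1 : ω ≤ 1) (hθ : 0 < θ) :
    ω * m ≤ θ * ω + m ^ 2 / (4 * θ) := by
  have h1 : ω * m ≤ θ * ω ^ 2 + m ^ 2 / (4 * θ) := by
    have h2 : θ * ω ^ 2 + m ^ 2 / (4 * θ) - ω * m = (2 * θ * ω - m) ^ 2 / (4 * θ) := by
      field_simp
      ring
    have h3 : 0 ≤ (2 * θ * ω - m) ^ 2 / (4 * θ) := by positivity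
    linarith
  have h4 : ω ^ 2 ≤ ω := by nlinarith
  have h5 : θ * ω ^ 2 ≤ θ * ω := by gcongr
  linarith

/-- The variance at a light node. -/
theorem var_light {T : ℕ} (h : A.NRs T) (b : ℝ) (hb : 0 < b)
    (hl : ∀ t < T, ∀ k, EE (fun x => A.qm (sg x) t k) ≤ b ^ 2) (Ac : Finset B) :
    EE (fun x => (A.evo.pr Ac T x) ^ 2) - (EE (fun x => A.evo.pr Ac T x)) ^ 2
      ≤ 24 * (T : ℝ) ^ 5 * b := by
  have hc : A.NRc T := A.NRc_of_NRs h T le_rfl
  have hpm : ∀ t < T, ∀ j, A.pm t j ≤ b ^ 2 := by
    intro t ht j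
    rw [← A.pm_eq hc ht.le j]
    exact hl t ht j
  have hfew : ∀ t < T, EE (fun x => ∑ j, (A.qm (sg x) t j) ^ 2) ≤ 8 * (T : ℝ) ^ 6 * b ^ 2 :=
    fun t ht => few_heavy A hc (b ^ 2) (by positivity) hpm ht
  have hP := poincare (fun x => A.evo.pr Ac T x)
  refine hP.trans ?_
  rcases Nat.eq_zero_or_pos T with h0 | hT
  · have e : ∀ i, EE (fun x => (A.evo.pr Ac T x - A.evo.pr Ac T (flp i x)) ^ 2) = 0 := by
      intro i
      rw [← EE_const (N := N) 0]
      apply EE_congr
      intro x
      have : A.evo.pr Ac T x = A.evo.pr Ac T (flp i x) := by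
        subst h0; rfl
      rw [this]; simp
    rw [Finset.sum_congr rfl fun i _ => e i]
    simp [h0]
  have hT1 : (1 : ℝ) ≤ T := by exact_mod_cast hT
  set θ : ℝ := 3 / 2 * (T : ℝ) ^ 3 * b with hθ
  have hθ0 : 0 < θ := by positivity
  choose ω hω0 hω1 hω2 using fun x => A.evo.grad Ac T x
  have hωs : ∀ x u, ∑ i, ω x u i ≤ 1 := by
    intro x u
    have h1 := hω1 x u
    have h2 := A.evo.pr_le_one Ac T x
    push_cast at h1
    linarith
  have hωle : ∀ x u i, ω x u i ≤ 1 := by
    intro x u i
    exact (Finset.single_le_sum (f := fun i => ω x u i) (fun i _ => hω0 x u i)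
      (Finset.mem_univ i)).trans (hωs x u)
  have hmain : ∑ i, EE (fun x => (max 0 (A.evo.pr Ac T x - A.evo.pr Ac T (flp i x))) ^ 2)
      ≤ 16 * T * (T * (θ + 8 * (T : ℝ) ^ 6 * b ^ 2 / (4 * θ))) := by
    calc ∑ i, EE (fun x => (max 0 (A.evo.pr Ac T x - A.evo.pr Ac T (flp i x))) ^ 2)
        ≤ ∑ i, EE (fun x => 16 * T * ∑ u ∈ Finset.range T,
            (θ * ω x u i + (A.qm (sg (flp i x)) u i) ^ 2 / (4 * θ))) := by
          refine Finset.sum_le_sum fun i _ => EE_mono fun x => ?_
          refine (hω2 x i).trans ?_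
          gcongr with u _
          rw [A.mag_eq]
          exact young' _ _ _ (hω0 x u i) (hωle x u i) hθ0
      _ = 16 * T * ∑ u ∈ Finset.range T, (θ * EE (fun x => ∑ i, ω x u i)
            + EE (fun x => ∑ i, (A.qm (sg x) u i) ^ 2) / (4 * θ)) := by
          have e1 : ∀ i, EE (fun x => 16 * T * ∑ u ∈ Finset.range T,
              (θ * ω x u i + (A.qm (sg (flp i x)) u i) ^ 2 / (4 * θ)))
              = 16 * T * ∑ u ∈ Finset.range T, (θ * EE (fun x => ω x u i)
                + EE (fun x => (A.qm (sg x) u i) ^ 2) / (4 * θ)) := by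
            intro i
            rw [EE_mul, EE_sum]
            congr 1
            refine Finset.sum_congr rfl fun u _ => ?_
            rw [EE_add, EE_mul]
            congr 1
            rw [← EE_flp i (fun x => (A.qm (sg x) u i) ^ 2), div_eq_inv_mul, ← EE_mul]
            apply EE_congr
            intro x
            rw [div_eq_inv_mul]
          rw [Finset.sum_congr rfl fun i _ => e1 i, ← Finset.mul_sum, Finset.sum_comm]
          congr 1
          refine Finset.sum_congr rfl fun u _ => ?_
          rw [Finset.sum_add_distrib, ← Finset.mul_sum, ← Finset.sum_div, EE_sum, EE_sum]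
      _ ≤ 16 * T * ∑ u ∈ Finset.range T, (θ * 1 + 8 * (T : ℝ) ^ 6 * b ^ 2 / (4 * θ)) := by
          gcongr with u hu
          · refine (EE_mono fun x => hωs x u).trans (le_of_eq (EE_const 1))
          · exact hfew u (Finset.mem_range.1 hu)
      _ = _ := by
          rw [Finset.sum_const, Finset.card_range, nsmul_eq_mul, mul_one]
  have hfin : θ + 8 * (T : ℝ) ^ 6 * b ^ 2 / (4 * θ) ≤ 3 * (T : ℝ) ^ 3 * b := by
    have e : 8 * (T : ℝ) ^ 6 * b ^ 2 / (4 * θ) = 4 / 3 * (T : ℝ) ^ 3 * b := by
      rw [hθ]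
      field_simp
      ring
    rw [e, hθ]
    have : 0 ≤ (T : ℝ) ^ 3 * b := by positivity
    linarith
  calc 1 / 4 * ∑ i, EE (fun x => (A.evo.pr Ac T x - A.evo.pr Ac T (flp i x)) ^ 2)
      = 1 / 2 * ∑ i, EE (fun x => (max 0 (A.evo.pr Ac T x - A.evo.pr Ac T (flp i x))) ^ 2) := by
        rw [Finset.sum_congr rfl fun i _ => EE_diff_sq i (fun x => A.evo.pr Ac T x),
          ← Finset.mul_sum]
        ring
    _ ≤ 1 / 2 * (16 * T * (T * (3 * (T : ℝ) ^ 3 * b))) := by
        have : T * (θ + 8 * (T : ℝ) ^ 6 * b ^ 2 / (4 * θ)) ≤ T * (3 * (T : ℝ) ^ 3 * b) := by gcongr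
        have h2 : 16 * (T : ℝ) * (T * (θ + 8 * (T : ℝ) ^ 6 * b ^ 2 / (4 * θ)))
            ≤ 16 * T * (T * (3 * (T : ℝ) ^ 3 * b)) := by gcongr
        linarith
    _ = _ := by ring

/-! ### Restriction -/

/-- The signs of the fixed positions. -/
noncomputable def fx (S : Finset (Fin N)) (a : Fin N → Bool) (b : B) : ℂ :=
  match A.pos b with
  | none => 1
  | some j => if j ∈ S then sg a j else 1

lemma fx_star_mul (S : Finset (Fin N)) (a : Fin N → Bool) (b : B) :
    star (A.fx S a b) * A.fx S a b = 1 := by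
  unfold fx
  cases A.pos b with
  | none => simp
  | some j =>
    simp only
    split_ifs
    · rw [sg_star, sg_sq]
    · simp

/-- The algorithm with the positions in `S` fixed to `a`. -/
noncomputable def res (S : Finset (Fin N)) (a : Fin N → Bool) : Alg N B where
  W := fun t => A.W t * Matrix.diagonal (A.fx S a)
  hW := fun t => by
    rw [conjTranspose_mul, Matrix.mul_assoc, ← Matrix.mul_assoc _ (A.W t), A.hW t, Matrix.one_mul,
      diagonal_conjTranspose, diagonal_mul_diagonal]
    rw [← Matrix.diagonal_one]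
    congr 1
    funext b
    exact A.fx_star_mul S a b
  pos := fun b => match A.pos b with
    | none => none
    | some j => if j ∈ S then none else some j
  v := A.v
  hv := A.hv

lemma res_os (S : Finset (Fin N)) (a x : Fin N → Bool) (b : B) :
    A.fx S a b * mon (sg x) ((A.res S a).os b) = mon (sg (mix S a x)) (A.os b) := by
  have e1 : (A.res S a).os b = (match A.pos b with
    | none => none
    | some j => if j ∈ S then none else some j : Option (Fin N)).toFinset := rfl
  rw [e1]
  unfold fx os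
  cases A.pos b with
  | none => simp [mon]
  | some j =>
    simp only
    by_cases hj : j ∈ S
    · simp [hj, mon, sg, mix]
    · simp [hj, mon, sg, mix]

lemma res_st (S : Finset (Fin N)) (a x : Fin N → Bool) (t : ℕ) :
    (A.res S a).st (sg x) t = A.st (sg (mix S a x)) t := by
  induction t with
  | zero => rfl
  | succ t ih =>
    rw [st_succ, st_succ, ih]
    show (A.W t * Matrix.diagonal (A.fx S a)) *ᵥ _ = _
    rw [← mulVec_mulVec]
    congr 1
    funext b
    rw [mulVec_diagonal, ← mul_assoc, A.res_os S a x b]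

lemma res_pos {S : Finset (Fin N)} {a : Fin N → Bool} {b : B} {j : Fin N} :
    (A.res S a).pos b = some j ↔ A.pos b = some j ∧ j ∉ S := by
  have e1 : (A.res S a).pos b = (match A.pos b with
    | none => none
    | some j => if j ∈ S then none else some j : Option (Fin N)) := rfl
  rw [e1]
  cases A.pos b with
  | none => simp
  | some k =>
    simp only
    by_cases hk : k ∈ S
    · simp only [hk, if_true]
      constructor
      · intro h; cases h
      · rintro ⟨h1, h2⟩
        cases h1
        exact absurd hk h2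
    · simp only [hk, if_false]
      constructor
      · intro h
        cases h
        exact ⟨rfl, hk⟩
      · rintro ⟨h1, _⟩
        exact h1

lemma res_NRs {T : ℕ} (h : A.NRs T) (S : Finset (Fin N)) (a : Fin N → Bool) :
    (A.res S a).NRs T := by
  intro t ht b j hb x
  obtain ⟨h1, h2⟩ := A.res_pos.1 hb
  rw [A.res_st, A.res_st, mix_flp_not_mem h2]
  exact h t ht b j h1 _

lemma res_qm (S : Finset (Fin N)) (a x : Fin N → Bool) (t : ℕ) (j : Fin N) :
    (A.res S a).qm (sg x) t j = if j ∈ S then 0 else A.qm (sg (mix S a x)) t j := by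
  unfold qm
  split_ifs with hj
  · refine Finset.sum_eq_zero fun b _ => ?_
    rw [if_neg]
    intro h
    exact (A.res_pos.1 h).2 hj
  · refine Finset.sum_congr rfl fun b _ => ?_
    rw [A.res_st]
    by_cases hb : A.pos b = some j
    · rw [if_pos hb, if_pos (A.res_pos.2 ⟨hb, hj⟩)]
    · rw [if_neg hb, if_neg fun h => hb (A.res_pos.1 h).1]

/-- The variance at a light node of the restriction tree. -/
theorem light_node {T : ℕ} (h : A.NRs T) (b : ℝ) (hb : 0 < b) (Ac : Finset B)
    (S : Finset (Fin N)) (a : Fin N → Bool)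
    (hl : ∀ t < T, ∀ k ∈ Sᶜ, Ex S a (fun x => A.evo.mag t k x) ≤ b ^ 2) :
    Ex S a (fun x => (A.evo.pr Ac T x) ^ 2) - (Ex S a (fun x => A.evo.pr Ac T x)) ^ 2
      ≤ 24 * (T : ℝ) ^ 5 * b := by
  have hpr : ∀ x, (A.res S a).evo.pr Ac T x = A.evo.pr Ac T (mix S a x) := by
    intro x
    unfold Evo.pr
    refine Finset.sum_congr rfl fun s _ => ?_
    show ‖(A.res S a).st (sg x) T s‖ ^ 2 = ‖A.st (sg (mix S a x)) T s‖ ^ 2
    rw [A.res_st]
  have h1 := (A.res S a).var_light (A.res_NRs h S a) b hb (fun t ht k => by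
    by_cases hk : k ∈ S
    · have : EE (fun x => (A.res S a).qm (sg x) t k) = 0 := by
        rw [← EE_const (N := N) 0]
        apply EE_congr
        intro x
        rw [A.res_qm, if_pos hk]
      rw [this]
      positivity
    · have h2 := hl t ht k (by simpa using hk)
      refine (le_of_eq ?_).trans h2
      unfold Ex
      apply EE_congr
      intro x
      rw [A.res_qm, if_neg hk]
      show _ = A.evo.mag t k (mix S a x)
      rw [A.mag_eq]) Ac
  have e1 : EE (fun x => ((A.res S a).evo.pr Ac T x) ^ 2)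
      = Ex S a (fun x => (A.evo.pr Ac T x) ^ 2) := by
    unfold Ex
    apply EE_congr
    intro x
    rw [hpr]
  have e2 : EE (fun x => (A.res S a).evo.pr Ac T x) = Ex S a (fun x => A.evo.pr Ac T x) := by
    unfold Ex
    apply EE_congr
    intro x
    rw [hpr]
  rw [e1, e2] at h1
  exact h1

end Alg

end Pool.Agent.TH334.NR
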