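import Pool.Agent.TH334.NR.Light

/-!
# Bit fixing and influences for algorithms that never re-read
-/

set_option autoImplicit false

namespace Pool.Agent.TH334.NR

open Finset Matrix Pool.Agent.H572R2

variable {N : ℕ} {B : Type} [Fintype B] [DecidableEq B]

namespace Alg

variable (A : Alg N B)

/-- Acceptance probability. -/
noncomputable def ap (T : ℕ) (Ac : Finset B) (x : Fin N → Bool) : ℝ :=
  ∑ s ∈ Ac, ‖A.st (sg x) T s‖ ^ 2

lemma ap_eq (T : ℕ) (Ac : Finset B) (x : Fin N → Bool) : A.ap T Ac x = A.evo.pr Ac T x := rfl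

lemma ap_nonneg (T : ℕ) (Ac : Finset B) (x : Fin N → Bool) : 0 ≤ A.ap T Ac x :=
  A.evo.pr_nonneg Ac T x

lemma ap_le_one (T : ℕ) (Ac : Finset B) (x : Fin N → Bool) : A.ap T Ac x ≤ 1 :=
  A.evo.pr_le_one Ac T x

lemma mag_nonneg (t : ℕ) (k : Fin N) (x : Fin N → Bool) : 0 ≤ A.evo.mag t k x :=
  A.evo.pr_nonneg _ t x

lemma sum_mag_le (t : ℕ) (x : Fin N → Bool) : ∑ k, A.evo.mag t k x ≤ 1 := by
  have := A.evo.sum_card_le (A.evo.st t x)
  rw [A.evo.nst t x, mul_one] at this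
  push_cast at this
  exact this

/-- An algorithm with positive variance makes a query. -/
lemma T_pos {T : ℕ} (Ac : Finset B) (V : ℝ)
    (hV : V = EE (fun x => (A.ap T Ac x - EE (A.ap T Ac)) ^ 2)) (hV0 : 0 < V) : 1 ≤ T := by
  by_contra hcon
  have h0 : T = 0 := by omega
  have h1 : ∀ x y, A.ap T Ac x = A.ap T Ac y := by
    intro x y
    subst h0; rfl
  have h2 : ∀ x, A.ap T Ac x = EE (A.ap T Ac) := by
    intro x
    have : EE (A.ap T Ac) = EE (fun _ : Fin N → Bool => A.ap T Ac x) := EE_congr fun y => h1 y x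
    rw [this, EE_const]
  have h3 : V = 0 := by
    rw [hV, ← EE_const (N := N) 0]
    apply EE_congr
    intro x
    rw [← h2 x]; simp
  linarith

lemma light_quarter {T : ℕ} (hT : 1 ≤ T) (h : A.NRs T) (Ac : Finset B) (V : ℝ) (hV0 : 0 < V)
    (S : Finset (Fin N)) (a : Fin N → Bool)
    (hl : ∀ t < T, ∀ k ∈ Sᶜ, Ex S a (fun x => A.evo.mag t k x) ≤ (V / (96 * (T : ℝ) ^ 5)) ^ 2) :
    Ex S a (fun x => (A.ap T Ac x) ^ 2) - (Ex S a (A.ap T Ac)) ^ 2 ≤ V / 4 := by
  have hT1 : (1 : ℝ) ≤ T := by exact_mod_cast hT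
  have hb : 0 < V / (96 * (T : ℝ) ^ 5) := by positivity
  refine (A.light_node h _ hb Ac S a hl).trans (le_of_eq ?_)
  field_simp
  ring

/-- Bit fixing. -/
theorem fix {T : ℕ} (h : A.NRs T) (Ac : Finset B) (V : ℝ)
    (hV : V = EE (fun x => (A.ap T Ac x - EE (A.ap T Ac)) ^ 2)) (hV0 : 0 < V) :
    ∃ (S : Finset (Fin N)) (a : Fin N → Bool),
      (S.card : ℝ) ≤ 36864 * (T : ℝ) ^ 11 / V ^ 3 ∧
      V / 2 ≤ (Ex S a (A.ap T Ac) - EE (A.ap T Ac)) ^ 2 := by
  have hT : 1 ≤ T := A.T_pos Ac V hV hV0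
  have hT1 : (1 : ℝ) ≤ T := by exact_mod_cast hT
  have hT0 : (0 : ℝ) < T := by linarith
  set p := A.ap T Ac with hp
  have hp0 : ∀ x, 0 ≤ p x := A.ap_nonneg T Ac
  have hp1 : ∀ x, p x ≤ 1 := A.ap_le_one T Ac
  set b : ℝ := V / (96 * (T : ℝ) ^ 5) with hb
  set τ : ℝ := b ^ 2 with hτ
  have hτ0 : 0 < τ := by positivity
  set l : ℝ := τ * V / (4 * T) with hl
  have hl0 : 0 < l := by positivity
  obtain ⟨S, a, h⟩ := leaf' (m := fun t k x => A.evo.mag t k x) A.mag_nonneg T p (EE p) (V / 4) l τ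
    hl0.le hτ0 (fun S a hS => A.light_quarter hT h Ac V hV0 S a hS) _ ∅ (fun _ => true) rfl
  rw [Ex_empty, ← hV, Finset.card_empty] at h
  have hA := AA_root (m := fun t k x => A.evo.mag t k x) (q := 1) A.mag_nonneg A.sum_mag_le T
    (fun _ : Fin N => true)
  rw [mul_one] at hA
  have hlA : (l / τ) * AA (fun t k x => A.evo.mag t k x) T ∅ (fun _ => true) ≤ V / 4 := by
    calc (l / τ) * AA (fun t k x => A.evo.mag t k x) T ∅ (fun _ => true) ≤ (l / τ) * T := by gcongr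
      _ = V / 4 := by rw [hl]; field_simp
  have hdev : V / 2 + l * S.card ≤ (Ex S a p - EE p) ^ 2 := by
    push_cast at h
    linarith
  have hlS : 0 ≤ l * S.card := by positivity
  refine ⟨S, a, ?_, by linarith⟩
  have hdev1 : (Ex S a p - EE p) ^ 2 ≤ 1 := by
    have e0 : 0 ≤ EE p := EE_nonneg hp0
    have e1 : EE p ≤ 1 := (EE_mono hp1).trans (le_of_eq (EE_const 1))
    have e2 : 0 ≤ Ex S a p := EE_nonneg fun x => hp0 _
    have e3 : Ex S a p ≤ 1 := (EE_mono fun x => hp1 _).trans (le_of_eq (EE_const 1))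
    nlinarith
  have hS : l * S.card ≤ 1 := by linarith
  have hfin : 1 / l = 36864 * (T : ℝ) ^ 11 / V ^ 3 := by
    rw [hl, hτ, hb]
    field_simp
    ring
  rw [← hfin, le_div_iff₀ hl0]
  linarith

/-- Influence, absolute form: all average effects at most `2 lam` forces a small variance. -/
theorem inf_abs {T : ℕ} (h : A.NRs T) (Ac : Finset B) (V : ℝ)
    (hV : V = EE (fun x => (A.ap T Ac x - EE (A.ap T Ac)) ^ 2)) (hV0 : 0 < V)
    (lam : ℝ) (hlam : 0 ≤ lam)
    (hinf : ∀ i, EE (fun x => |A.ap T Ac x - A.ap T Ac (flp i x)|) ≤ 2 * lam) :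
    V ^ 3 ≤ 24576 * (T : ℝ) ^ 11 * lam := by
  have hT : 1 ≤ T := A.T_pos Ac V hV hV0
  have hT1 : (1 : ℝ) ≤ T := by exact_mod_cast hT
  have hT0 : (0 : ℝ) < T := by linarith
  set p := A.ap T Ac with hp
  have hp0 : ∀ x, 0 ≤ p x := A.ap_nonneg T Ac
  have hp1 : ∀ x, p x ≤ 1 := A.ap_le_one T Ac
  set b : ℝ := V / (96 * (T : ℝ) ^ 5) with hb
  set τ : ℝ := b ^ 2 with hτ
  have hτ0 : 0 < τ := by positivity
  obtain ⟨g, _, _, _, hgβ, hgc⟩ := tree (m := fun t k x => A.evo.mag t k x) A.mag_nonneg T p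
    hp0 hp1 (V / 4) τ lam hτ0 hlam hinf
    (fun S a hS => A.light_quarter hT h Ac V hV0 S a hS) _ ∅ (fun _ => true) rfl
  have hA := AA_root (m := fun t k x => A.evo.mag t k x) (q := 1) A.mag_nonneg A.sum_mag_le T
    (fun _ : Fin N => true)
  rw [mul_one] at hA
  have hEA : ∀ x, EA ∅ p x = p x := by
    intro x
    unfold EA
    simp only [mix_empty]
    exact EE_const _
  simp only [hEA, mix_empty] at hgc hgβ
  have hcov : EE (fun x => p x * g x) - EE p * EE g ≤ lam / τ * T := by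
    refine (le_abs_self _).trans (hgc.trans ?_)
    gcongr
  have hid : V = EE (fun x => (p x - EE p) * (p x - g x))
      + (EE (fun x => p x * g x) - EE p * EE g) := by
    have h1 : EE (fun x => (p x - EE p) ^ 2)
        = EE (fun x => ((p x - EE p) * (p x - g x) + (p x * g x - EE p * g x))
          - (EE p * p x - EE p * EE p)) := by
      apply EE_congr; intro x; ring
    rw [hV, h1, EE_sub, EE_add, EE_sub, EE_sub, EE_mul, EE_mul, EE_const]
    ring
  have hyoung : EE (fun x => (p x - EE p) * (p x - g x)) ≤ 1 / 2 * V + 1 / 2 * (V / 4) := by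
    have h1 : EE (fun x => (p x - EE p) * (p x - g x))
        ≤ EE (fun x => 1 / 2 * (p x - EE p) ^ 2 + 1 / 2 * (p x - g x) ^ 2) := by
      apply EE_mono; intro x
      nlinarith [sq_nonneg ((p x - EE p) - (p x - g x))]
    rw [EE_add, EE_mul, EE_mul, ← hV] at h1
    linarith
  have h1 : 3 * V / 8 ≤ lam / τ * T := by linarith
  have h2 : lam / τ * T = 9216 * (T : ℝ) ^ 11 * lam / V ^ 2 := by
    rw [hτ, hb]
    field_simp
    ring
  rw [h2, le_div_iff₀ (by positivity)] at h1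
  nlinarith

/-- Influence. -/
theorem inf {T : ℕ} (h : A.NRs T) (Ac : Finset B) (V : ℝ)
    (hV : V = EE (fun x => (A.ap T Ac x - EE (A.ap T Ac)) ^ 2)) (hV0 : 0 < V) :
    ∃ i : Fin N, (V ^ 3 / (24576 * (T : ℝ) ^ 11)) ^ 2
      ≤ EE (fun x => ((A.ap T Ac x - A.ap T Ac (flp i x)) / 2) ^ 2) := by
  have hT : 1 ≤ T := A.T_pos Ac V hV hV0
  have hT1 : (1 : ℝ) ≤ T := by exact_mod_cast hT
  have hT0 : (0 : ℝ) < T := by linarith
  set p := A.ap T Ac with hp
  set lam0 : ℝ := V ^ 3 / (24576 * (T : ℝ) ^ 11) with hlam0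
  have hlam0pos : 0 < lam0 := by positivity
  by_contra hcon
  push Not at hcon
  have hL1 : ∀ i, EE (fun x => |p x - p (flp i x)|) < 2 * lam0 := by
    intro i
    have h1 := EE_cs (fun x => |(p x - p (flp i x)) / 2|) (fun _ => (1 : ℝ))
    have h2 : EE (fun x => |(p x - p (flp i x)) / 2| ^ 2)
        = EE (fun x => ((p x - p (flp i x)) / 2) ^ 2) := by
      apply EE_congr; intro x; rw [sq_abs]
    have h3 : EE (fun _ : Fin N → Bool => (1 : ℝ) ^ 2) = 1 := by
      rw [EE_const]; norm_num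
    have h4 : EE (fun x => |(p x - p (flp i x)) / 2| * 1)
        = (1 / 2) * EE (fun x => |p x - p (flp i x)|) := by
      rw [← EE_mul]; apply EE_congr; intro x
      rw [abs_div]
      have : |(2 : ℝ)| = 2 := by norm_num
      rw [this]; ring
    rw [h2, h3, h4, mul_one] at h1
    have h5 := h1.trans_lt (hcon i)
    have h6 : 1 / 2 * EE (fun x => |p x - p (flp i x)|) < lam0 := by
      by_contra hc
      push Not at hc
      have : lam0 ^ 2 ≤ (1 / 2 * EE (fun x => |p x - p (flp i x)|)) ^ 2 :=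
        pow_le_pow_left₀ hlam0pos.le hc 2
      linarith
    linarith
  obtain ⟨lam, hlam, hlamlt, hlamb⟩ : ∃ lam : ℝ, 0 ≤ lam ∧ lam < lam0 ∧
      ∀ i, EE (fun x => |p x - p (flp i x)|) ≤ 2 * lam := by
    rcases isEmpty_or_nonempty (Fin N) with he | hne
    · exact ⟨0, le_rfl, hlam0pos, fun i => (he.false i).elim⟩
    · obtain ⟨i0, hi0⟩ := Finite.exists_max (fun i => EE (fun x => |p x - p (flp i x)|))
      refine ⟨EE (fun x => |p x - p (flp i0 x)|) / 2, ?_, ?_, fun i => ?_⟩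
      · exact div_nonneg (EE_nonneg fun x => abs_nonneg _) (by norm_num)
      · have := hL1 i0
        linarith
      · have := hi0 i
        linarith
  have h3 := A.inf_abs h Ac V hV hV0 lam hlam hlamb
  have h4 : 24576 * (T : ℝ) ^ 11 * lam < V ^ 3 := by
    calc 24576 * (T : ℝ) ^ 11 * lam < 24576 * (T : ℝ) ^ 11 * lam0 := by gcongr
      _ = V ^ 3 := by rw [hlam0]; field_simp
  linarith

end Alg

end Pool.Agent.TH334.NR
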