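import Pool.Agent.TH334.NR.Alg

/-!
# Masses of the coefficients
-/

set_option autoImplicit false

namespace Pool.Agent.TH334.NR

open Finset Matrix Pool.Agent.H572R2

variable {N : ℕ} {B : Type} [Fintype B] [DecidableEq B]

namespace Alg

variable (A : Alg N B)

/-- The query magnitude of position `j` at time `t`, with phases `u`. -/
noncomputable def qm (u : Fin N → ℂ) (t : ℕ) (j : Fin N) : ℝ :=
  ∑ b, if A.pos b = some j then ‖A.st u t b‖ ^ 2 else 0

/-- The average query magnitude. -/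
noncomputable def pm (t : ℕ) (j : Fin N) : ℝ :=
  ∑ b, if A.pos b = some j then ∑ S, ‖A.co t S b‖ ^ 2 else 0

/-- The mass of the sets containing `j`. -/
noncomputable def im (t : ℕ) (j : Fin N) : ℝ :=
  ∑ b, ∑ S, if j ∈ S then ‖A.co t S b‖ ^ 2 else 0

lemma qm_nonneg (u : Fin N → ℂ) (t : ℕ) (j : Fin N) : 0 ≤ A.qm u t j :=
  Finset.sum_nonneg fun b _ => by split_ifs <;> positivity

lemma pm_nonneg (t : ℕ) (j : Fin N) : 0 ≤ A.pm t j :=
  Finset.sum_nonneg fun b _ => by split_ifs <;> positivity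

lemma im_nonneg (t : ℕ) (j : Fin N) : 0 ≤ A.im t j :=
  Finset.sum_nonneg fun b _ => Finset.sum_nonneg fun S _ => by split_ifs <;> positivity

/-- Mass at a basis state. -/
lemma mass_b {T : ℕ} (h : A.NRc T) {t : ℕ} (ht : t ≤ T) (b : B) :
    EE (fun x => ‖A.st (sg x) t b‖ ^ 2) = ∑ S, ‖A.co t S b‖ ^ 2 := by
  rw [← pars_sg]
  apply EE_congr
  intro x
  rw [A.expand h _ t ht b]

lemma pm_eq {T : ℕ} (h : A.NRc T) {t : ℕ} (ht : t ≤ T) (j : Fin N) :
    EE (fun x => A.qm (sg x) t j) = A.pm t j := by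
  unfold qm pm
  rw [EE_sum]
  refine Finset.sum_congr rfl fun b _ => ?_
  by_cases hb : A.pos b = some j
  · simp only [hb, if_true]
    exact A.mass_b h ht b
  · simp only [hb, if_false]
    exact EE_const 0

lemma mass_total {T : ℕ} (h : A.NRc T) {t : ℕ} (ht : t ≤ T) :
    ∑ b, ∑ S, ‖A.co t S b‖ ^ 2 = 1 := by
  have h1 : EE (fun x : Fin N → Bool => nsq (A.st (sg x) t)) = 1 := by
    rw [← EE_const (N := N) 1]
    apply EE_congr
    intro x
    exact A.nst (norm_sg x) t
  rw [← h1]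
  unfold nsq
  rw [EE_sum]
  exact Finset.sum_congr rfl fun b _ => (A.mass_b h ht b).symm

lemma sum_pos_le (f : B → ℝ) (hf : ∀ b, 0 ≤ f b) :
    ∑ j, ∑ b, (if A.pos b = some j then f b else 0) ≤ ∑ b, f b := by
  rw [Finset.sum_comm]
  refine Finset.sum_le_sum fun b _ => ?_
  cases hb : A.pos b with
  | none => simpa using hf b
  | some k =>
    have : ∀ j : Fin N, (if some k = some j then f b else 0) = if k = j then f b else 0 := by
      intro j
      simp
    rw [Finset.sum_congr rfl fun j _ => this j, Finset.sum_ite_eq]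
    simp

lemma sum_qm_le {u : Fin N → ℂ} (hu : ∀ i, ‖u i‖ = 1) (t : ℕ) : ∑ j, A.qm u t j ≤ 1 := by
  rw [← A.nst hu t]
  exact A.sum_pos_le (fun b => ‖A.st u t b‖ ^ 2) fun b => by positivity

lemma sum_pm_le {T : ℕ} (h : A.NRc T) {t : ℕ} (ht : t ≤ T) : ∑ j, A.pm t j ≤ 1 := by
  rw [← A.mass_total h ht]
  exact A.sum_pos_le (fun b => ∑ S, ‖A.co t S b‖ ^ 2) fun b =>
    Finset.sum_nonneg fun S _ => by positivity

lemma im_zero (j : Fin N) : A.im 0 j = 0 := by
  unfold im
  refine Finset.sum_eq_zero fun b _ => Finset.sum_eq_zero fun S _ => ?_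
  rw [co_zero]
  split_ifs with h1 h2
  · subst h2; simp at h1
  · simp
  · rfl

lemma im_succ {T : ℕ} (h : A.NRc T) {t : ℕ} (ht : t < T) (j : Fin N) :
    A.im (t + 1) j ≤ A.im t j + A.pm t j := by
  have h1 : A.im (t + 1) j
      = ∑ b, ∑ S, (if j ∈ S then (1 : ℝ) else 0)
        * (if A.os b ⊆ S then (fun R => ‖A.co t R b‖ ^ 2) (S \ A.os b) else 0) := by
    have e : A.im (t + 1) j = ∑ S, (if j ∈ S then (1 : ℝ) else 0) * nsq (A.co (t + 1) S) := by
      unfold im nsq
      rw [Finset.sum_comm]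
      refine Finset.sum_congr rfl fun S _ => ?_
      rw [Finset.mul_sum]
      refine Finset.sum_congr rfl fun b _ => ?_
      split_ifs <;> simp
    rw [e, Finset.sum_comm]
    refine Finset.sum_congr rfl fun S _ => ?_
    rw [co_succ, nsq_unitary _ (A.hW t), ← Finset.mul_sum]
    congr 1
    unfold nsq
    refine Finset.sum_congr rfl fun b _ => ?_
    by_cases hb : A.os b ⊆ S <;> simp [hb]
  rw [h1]
  unfold im pm
  rw [← Finset.sum_add_distrib]
  refine Finset.sum_le_sum fun b _ => ?_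
  rw [reidx (A.os b) (fun S => if j ∈ S then (1 : ℝ) else 0) (fun R => ‖A.co t R b‖ ^ 2)
    (fun R hR => by
      show ‖A.co t R b‖ ^ 2 = 0
      rw [h t ht b R hR]; simp)]
  by_cases hb : A.pos b = some j
  · rw [if_pos hb]
    have h2 : ∑ R, (if j ∈ A.os b ∪ R then (1 : ℝ) else 0) * ‖A.co t R b‖ ^ 2
        ≤ ∑ R, ‖A.co t R b‖ ^ 2 := by
      refine Finset.sum_le_sum fun R _ => ?_
      split_ifs
      · rw [one_mul]
      · rw [zero_mul]; positivity
    have h3 : 0 ≤ ∑ S, (if j ∈ S then ‖A.co t S b‖ ^ 2 else 0) :=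
      Finset.sum_nonneg fun S _ => by split_ifs <;> positivity
    linarith
  · rw [if_neg hb, add_zero]
    refine Finset.sum_le_sum fun R _ => ?_
    have hj : j ∉ A.os b := by
      unfold os
      rw [Option.mem_toFinset]
      exact hb
    have : j ∈ A.os b ∪ R ↔ j ∈ R := by
      rw [Finset.mem_union]
      exact ⟨fun h => h.resolve_left hj, Or.inr⟩
    by_cases hR : j ∈ R
    · rw [if_pos (this.2 hR), if_pos hR, one_mul]
    · rw [if_neg (fun h => hR (this.1 h)), if_neg hR, zero_mul]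

lemma im_le {T : ℕ} (h : A.NRc T) (τ : ℝ) (hτ : ∀ t < T, ∀ j, A.pm t j ≤ τ) :
    ∀ t ≤ T, ∀ j, A.im t j ≤ t * τ := by
  intro t
  induction t with
  | zero => intro _ j; rw [im_zero]; simp
  | succ t ih =>
    intro ht j
    have h1 := A.im_succ h (show t < T by omega) j
    have h2 := ih (by omega) j
    have h3 := hτ t (by omega) j
    push_cast
    linarith

end Alg

end Pool.Agent.TH334.NR
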