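import Pool.Agent.TH334.NR.Fam

/-!
# Post-processing, and functions close to a function of a family
-/

set_option autoImplicit false

namespace Pool.Agent.TH334.NR

open Finset Matrix Pool.Agent.H572R2

section Post

variable {r : ℕ}

/-- The expectation of `G` at independent bits which are `1` with the probabilities `u κ`. -/
noncomputable def pp (G : (Fin r → Bool) → ℝ) (u : Fin r → ℝ) : ℝ :=
  ∑ y : Fin r → Bool, G y * ∏ κ, (if y κ then u κ else 1 - u κ)

lemma pp_one (u : Fin r → ℝ) : ∑ y : Fin r → Bool, ∏ κ, (if y κ then u κ else 1 - u κ) = 1 := by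
  have h : ∏ κ : Fin r, ∑ b : Bool, (if b then u κ else 1 - u κ)
      = ∑ y : Fin r → Bool, ∏ κ, (if y κ then u κ else 1 - u κ) := by
    rw [Finset.prod_univ_sum, Fintype.piFinset_univ]
  rw [← h]
  refine Finset.prod_eq_one fun κ _ => ?_
  simp

lemma pp_nonneg (G : (Fin r → Bool) → ℝ) (hG : ∀ y, 0 ≤ G y) (u : Fin r → ℝ)
    (hu0 : ∀ κ, 0 ≤ u κ) (hu1 : ∀ κ, u κ ≤ 1) : 0 ≤ pp G u := by
  unfold pp
  refine Finset.sum_nonneg fun y _ => mul_nonneg (hG y) (Finset.prod_nonneg fun κ _ => ?_)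
  have := hu0 κ
  have := hu1 κ
  split_ifs <;> linarith

lemma pp_le_one (G : (Fin r → Bool) → ℝ) (hG1 : ∀ y, G y ≤ 1) (u : Fin r → ℝ)
    (hu0 : ∀ κ, 0 ≤ u κ) (hu1 : ∀ κ, u κ ≤ 1) : pp G u ≤ 1 := by
  rw [← pp_one u]
  unfold pp
  refine Finset.sum_le_sum fun y _ => ?_
  have h : 0 ≤ ∏ κ, (if y κ then u κ else 1 - u κ) := Finset.prod_nonneg fun κ _ => by
    have := hu0 κ
    have := hu1 κ
    split_ifs <;> linarith
  nlinarith [hG1 y]

lemma pp_affine (G : (Fin r → Bool) → ℝ) (u : Fin r → ℝ) (k : Fin r) (s : ℝ) :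
    pp G (Function.update u k s)
      = s * pp G (Function.update u k 1) + (1 - s) * pp G (Function.update u k 0) := by
  have h : ∀ (s : ℝ) (y : Fin r → Bool), ∏ κ, (if y κ then Function.update u k s κ
      else 1 - Function.update u k s κ)
      = (if y k then s else 1 - s) * ∏ κ ∈ Finset.univ.erase k, (if y κ then u κ else 1 - u κ) := by
    intro s y
    rw [← Finset.mul_prod_erase _ _ (Finset.mem_univ k)]
    simp only [Function.update_self]
    congr 1
    refine Finset.prod_congr rfl fun κ hκ => ?_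
    rw [Function.update_of_ne (Finset.ne_of_mem_erase hκ)]
  unfold pp
  simp_rw [h]
  rw [Finset.mul_sum, Finset.mul_sum, ← Finset.sum_add_distrib]
  refine Finset.sum_congr rfl fun y _ => ?_
  split_ifs <;> ring

lemma pp_step (G : (Fin r → Bool) → ℝ) (hG0 : ∀ y, 0 ≤ G y) (hG1 : ∀ y, G y ≤ 1) (u : Fin r → ℝ)
    (hu0 : ∀ κ, 0 ≤ u κ) (hu1 : ∀ κ, u κ ≤ 1) (k : Fin r) (s s' : ℝ) :
    |pp G (Function.update u k s) - pp G (Function.update u k s')| ≤ |s - s'| := by
  rw [pp_affine G u k s, pp_affine G u k s']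
  have e : s * pp G (Function.update u k 1) + (1 - s) * pp G (Function.update u k 0)
      - (s' * pp G (Function.update u k 1) + (1 - s') * pp G (Function.update u k 0))
      = (s - s') * (pp G (Function.update u k 1) - pp G (Function.update u k 0)) := by ring
  rw [e, abs_mul]
  have hb : ∀ c : ℝ, 0 ≤ c → c ≤ 1 → 0 ≤ pp G (Function.update u k c)
      ∧ pp G (Function.update u k c) ≤ 1 := by
    intro c hc0 hc1
    have h0 : ∀ κ, 0 ≤ Function.update u k c κ := by
      intro κ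
      by_cases hκ : κ = k
      · subst hκ; simpa using hc0
      · rw [Function.update_of_ne hκ]; exact hu0 κ
    have h1 : ∀ κ, Function.update u k c κ ≤ 1 := by
      intro κ
      by_cases hκ : κ = k
      · subst hκ; simpa using hc1
      · rw [Function.update_of_ne hκ]; exact hu1 κ
    exact ⟨pp_nonneg G hG0 _ h0 h1, pp_le_one G hG1 _ h0 h1⟩
  obtain ⟨a1, a2⟩ := hb 1 (by norm_num) le_rfl
  obtain ⟨b1, b2⟩ := hb 0 le_rfl (by norm_num)
  have h : |pp G (Function.update u k 1) - pp G (Function.update u k 0)| ≤ 1 := by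
    rw [abs_le]; constructor <;> linarith
  calc |s - s'| * |pp G (Function.update u k 1) - pp G (Function.update u k 0)|
      ≤ |s - s'| * 1 := by gcongr
    _ = _ := mul_one _

lemma pp_lip (G : (Fin r → Bool) → ℝ) (hG0 : ∀ y, 0 ≤ G y) (hG1 : ∀ y, G y ≤ 1) (u v : Fin r → ℝ)
    (hu0 : ∀ κ, 0 ≤ u κ) (hu1 : ∀ κ, u κ ≤ 1) (hv0 : ∀ κ, 0 ≤ v κ) (hv1 : ∀ κ, v κ ≤ 1) :
    |pp G u - pp G v| ≤ ∑ κ, |u κ - v κ| := by
  classical
  have key : ∀ K : Finset (Fin r), |pp G (fun κ => if κ ∈ K then u κ else v κ) - pp G v|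
      ≤ ∑ κ ∈ K, |u κ - v κ| := by
    intro K
    induction K using Finset.induction_on with
    | empty => simp
    | insert k K hk ih =>
      rw [Finset.sum_insert hk]
      set w : Fin r → ℝ := fun κ => if κ ∈ K then u κ else v κ with hw
      have e1 : (fun κ => if κ ∈ insert k K then u κ else v κ) = Function.update w k (u k) := by
        funext κ
        by_cases hκ : κ = k
        · subst hκ; simp
        · rw [Function.update_of_ne hκ]
          simp [hw, hκ]
      have e2 : w = Function.update w k (v k) := by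
        funext κ
        by_cases hκ : κ = k
        · subst hκ; simp [hw, hk]
        · rw [Function.update_of_ne hκ]
      have hw0 : ∀ κ, 0 ≤ w κ := by
        intro κ; simp only [hw]; split_ifs
        · exact hu0 κ
        · exact hv0 κ
      have hw1 : ∀ κ, w κ ≤ 1 := by
        intro κ; simp only [hw]; split_ifs
        · exact hu1 κ
        · exact hv1 κ
      have h1 := pp_step G hG0 hG1 w hw0 hw1 k (u k) (v k)
      rw [← e2] at h1
      rw [e1]
      have h2 := abs_add_le (pp G (Function.update w k (u k)) - pp G w) (pp G w - pp G v)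
      rw [sub_add_sub_cancel] at h2
      linarith
  have := key Finset.univ
  simpa using this

variable {N : ℕ}

lemma pp_PD (G : (Fin r → Bool) → ℝ) (D : ℕ) (P : Fin r → (Fin N → Bool) → ℝ)
    (hP : ∀ κ, PD D (fun x => ((P κ x : ℝ) : ℂ))) :
    PD (D * r) (fun x => ((pp G (fun κ => P κ x) : ℝ) : ℂ)) := by
  have h : PD (D * r) (fun x => ∑ y : Fin r → Bool, ((G y : ℝ) : ℂ)
      * ∏ κ, (if y κ then ((P κ x : ℝ) : ℂ) else 1 + (-1) * ((P κ x : ℝ) : ℂ))) := by
    refine PD.sum _ fun y _ => PD.smul _ ?_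
    have h1 := PD.prod (N := N) (D := D) (Finset.univ : Finset (Fin r))
      (F := fun κ x => if y κ then ((P κ x : ℝ) : ℂ) else 1 + (-1) * ((P κ x : ℝ) : ℂ))
      (fun κ _ => by
        by_cases hy : y κ = true
        · simp only [hy, if_true]; exact hP κ
        · simp only [hy, if_false, Bool.false_eq_true]
          exact (PD.const D 1).add ((hP κ).smul (-1)))
    rwa [Finset.card_univ, Fintype.card_fin] at h1
  refine h.congr fun x => ?_
  unfold pp
  push_cast
  refine Finset.sum_congr rfl fun y _ => ?_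
  congr 1
  refine Finset.prod_congr rfl fun κ _ => ?_
  split_ifs
  · rfl
  · push_cast; ring

end Post

section Close

variable {N : ℕ} {m : ℕ → Fin N → (Fin N → Bool) → ℝ}

/-- Influences of a function `f` close to a function `g` with a light lemma. -/
theorem osss2 (hm : ∀ t k x, 0 ≤ m t k x) (r : ℕ) (R : ℝ) (hR : 0 < R)
    (hAA : ∀ a : Fin N → Bool, AA m r ∅ a ≤ R)
    (g f : (Fin N → Bool) → ℝ) (θ : ℝ) (hθ : 0 < θ) (V : ℝ) (hV : V = Cv f f) (hV0 : 0 < V)
    (hclose : EE (fun x => (f x - g x) ^ 2) ≤ V / 64)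
    (hlight : ∀ (S : Finset (Fin N)) (a : Fin N → Bool),
      (∀ t < r, ∀ k ∈ Sᶜ, Ex S a (m t k) ≤ θ) →
      Ex S a (fun x => (g x) ^ 2) - (Ex S a g) ^ 2 ≤ V / 16)
    (Y : ℝ) (hY0 : 0 < Y) (hTI : TIf g ≤ Y) (I : ℝ) (hI0 : 0 ≤ I)
    (hI : ∀ l, Real.sqrt (If l f) ≤ I) :
    V ^ 2 * θ ≤ 3 * (Y * R) * I ^ 2 := by
  set w := Real.sqrt (R / (Y * θ)) with hw
  have hw0 : 0 < w := Real.sqrt_pos.2 (by positivity)
  have hw2 : w ^ 2 = R / (Y * θ) := Real.sq_sqrt (by positivity)
  have h1 := cov_bound hm r g (V / 16) θ hθ hlight f I hI0 hI w hw0 _ ∅ (fun _ => true) rfl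
  simp only [mix_empty] at h1
  rw [← hV] at h1
  have hsq : ∀ c : ℝ, 0 < c → Real.sqrt (V / c ^ 2) * Real.sqrt V = V / c := by
    intro c hc
    have e : V / c ^ 2 = (Real.sqrt V / c) ^ 2 := by
      rw [div_pow, Real.sq_sqrt hV0.le]
    have h1 : Real.sqrt (V / c ^ 2) = Real.sqrt V / c := by
      rw [e, Real.sqrt_sq (by positivity)]
    rw [h1, div_mul_eq_mul_div, Real.mul_self_sqrt hV0.le]
  have h16 : Real.sqrt (V / 16) * Real.sqrt V = V / 4 := by
    have := hsq 4 (by norm_num)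
    rwa [show (4 : ℝ) ^ 2 = 16 by norm_num] at this
  have h64 : Real.sqrt (V / 64) * Real.sqrt V = V / 8 := by
    have := hsq 8 (by norm_num)
    rwa [show (8 : ℝ) ^ 2 = 64 by norm_num] at this
  rw [h16] at h1
  have hgf : V * (7 / 8) ≤ |Cv g f| := by
    have e1 : Cv f f = Cv g f + Cv (fun x => f x - g x) f := by
      unfold Cv
      have a1 : EE (fun x => (f x - g x) * f x) = EE (fun x => f x * f x) - EE (fun x => g x * f x) := by
        rw [← EE_sub]; apply EE_congr; intro x; ring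
      rw [a1, EE_sub f g]
      ring
    have e2 := abs_Cv_le (fun x => f x - g x) f
    have e3 : Cv (fun x => f x - g x) (fun x => f x - g x) ≤ V / 64 := by
      refine le_trans ?_ hclose
      unfold Cv
      have : EE (fun x => (f x - g x) * (f x - g x)) = EE (fun x => (f x - g x) ^ 2) := by
        apply EE_congr; intro x; ring
      rw [this]
      nlinarith [mul_self_nonneg (EE (fun x => f x - g x))]
    have e4 : Real.sqrt (Cv (fun x => f x - g x) (fun x => f x - g x)) * Real.sqrt (Cv f f)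
        ≤ V / 8 := by
      rw [← hV, ← h64]
      exact mul_le_mul_of_nonneg_right (Real.sqrt_le_sqrt e3) (Real.sqrt_nonneg _)
    have e5 := le_abs_self (Cv (fun x => f x - g x) f)
    have e6 := le_abs_self (Cv g f)
    rw [← hV] at e1
    linarith
  have h2 : AA m r ∅ (fun _ => true) / (w * θ) ≤ R / (w * θ) := by
    gcongr
    exact hAA _
  have h3 : w * TIf g ≤ w * Y := by gcongr
  have h4 : R / (w * θ) = w * Y := by
    rw [div_eq_iff (by positivity)]
    have : w * Y * (w * θ) = w ^ 2 * (Y * θ) := by ring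
    rw [this, hw2]
    field_simp
  have h5 : (w * TIf g + AA m r ∅ (fun _ => true) / (w * θ)) / 2 * I ≤ w * Y * I := by
    have : (w * TIf g + AA m r ∅ (fun _ => true) / (w * θ)) / 2 ≤ w * Y := by
      rw [h4] at h2
      linarith
    exact mul_le_mul_of_nonneg_right this hI0
  have h6 : V * (5 / 8) ≤ w * Y * I := by linarith
  have h7 := pow_le_pow_left₀ (by positivity) h6 2
  have h8 : (w * Y * I) ^ 2 = R * Y / θ * I ^ 2 := by
    rw [mul_pow, mul_pow, hw2]
    field_simp
  rw [h8] at h7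
  have h9 : R * Y / θ * I ^ 2 * θ = Y * R * I ^ 2 := by
    field_simp
  have h10 := mul_le_mul_of_nonneg_right h7 hθ.le
  rw [h9] at h10
  have h11 : 0 ≤ Y * R * I ^ 2 := by positivity
  nlinarith

variable {B : Type} [Fintype B] [DecidableEq B] {r : ℕ} (A : Fin r → Alg N B)
  (Ac : Fin r → Finset B)

/-- Influences of a function close to a Lipschitz function of a family. -/
theorem fam_close {T : ℕ} (hA : ∀ κ, (A κ).NRs T) (f g : (Fin N → Bool) → ℝ) (L : ℝ)
    (hL0 : 0 < L)
    (hL : ∀ x y, |g x - g y|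
      ≤ L * ∑ κ, |(A κ).ap T (Ac κ) x - (A κ).ap T (Ac κ) y|)
    (hV0 : 0 < Cv f f) (hclose : EE (fun x => (f x - g x) ^ 2) ≤ Cv f f / 64)
    (I : ℝ) (hI0 : 0 ≤ I) (hI : ∀ l, Real.sqrt (If l f) ≤ I) :
    (Cv f f) ^ 3 ≤ 3072 * L ^ 4 * (r : ℝ) ^ 5 * (T : ℝ) ^ 10 * I ^ 2 := by
  set V := Cv f f with hV
  have hg0 : 0 < Cv g g := by
    by_contra hcon
    have h0 : Cv g g = 0 := le_antisymm (not_lt.1 hcon) (Cv_self_nonneg g)
    have e2 := abs_Cv_le g f
    rw [h0, Real.sqrt_zero, zero_mul] at e2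
    have e3 : Cv g f = 0 := abs_nonpos_iff.1 e2
    have e1 : Cv f f = Cv g f + Cv (fun x => f x - g x) f := by
      unfold Cv
      have a1 : EE (fun x => (f x - g x) * f x) = EE (fun x => f x * f x) - EE (fun x => g x * f x) := by
        rw [← EE_sub]; apply EE_congr; intro x; ring
      rw [a1, EE_sub f g]
      ring
    have e4 := abs_Cv_le (fun x => f x - g x) f
    have e5 : Cv (fun x => f x - g x) (fun x => f x - g x) ≤ V / 64 := by
      refine le_trans ?_ hclose
      unfold Cv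
      have : EE (fun x => (f x - g x) * (f x - g x)) = EE (fun x => (f x - g x) ^ 2) := by
        apply EE_congr; intro x; ring
      rw [this]
      nlinarith [mul_self_nonneg (EE (fun x => f x - g x))]
    have e6 : Real.sqrt (Cv (fun x => f x - g x) (fun x => f x - g x)) * Real.sqrt (Cv f f)
        ≤ Real.sqrt (V / 64) * Real.sqrt V :=
      mul_le_mul_of_nonneg_right (Real.sqrt_le_sqrt e5) (Real.sqrt_nonneg _)
    have e7 : Real.sqrt (V / 64) * Real.sqrt V = V / 8 := by
      have e : V / 64 = (Real.sqrt V / 8) ^ 2 := by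
        rw [div_pow, Real.sq_sqrt hV0.le]; norm_num
      have h1 : Real.sqrt (V / 64) = Real.sqrt V / 8 := by
        rw [e, Real.sqrt_sq (by positivity)]
      rw [h1, div_mul_eq_mul_div, Real.mul_self_sqrt hV0.le]
    have e8 := le_abs_self (Cv (fun x => f x - g x) f)
    rw [e3, zero_add, ← hV] at e1
    linarith
  obtain ⟨hr, hT⟩ := fam_pos A Ac g L hL hg0
  have hr1 : (1 : ℝ) ≤ r := by exact_mod_cast hr
  have hT1 : (1 : ℝ) ≤ T := by exact_mod_cast hT
  set θ : ℝ := V / (2048 * L ^ 2 * (r : ℝ) ^ 2 * (T : ℝ) ^ 8) with hθ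
  have hθ0 : 0 < θ := by positivity
  have hTI : TIf g ≤ L ^ 2 * (r : ℝ) ^ 2 * T / 2 := by
    refine (fam_TI g (fun κ x => (A κ).ap T (Ac κ) x) L hL).trans ?_
    have h1 : ∀ κ, TIf (fun x => (A κ).ap T (Ac κ) x) ≤ (T : ℝ) / 2 := by
      intro κ
      have h2 := TIf_le_var (2 * T) (fun x => (A κ).ap T (Ac κ) x) ((A κ).PD_ap T (Ac κ))
      have h3 := Cv_le_quarter (fun x => (A κ).ap T (Ac κ) x) ((A κ).ap_nonneg T (Ac κ))
        ((A κ).ap_le_one T (Ac κ))
      have h4 : ((2 * T : ℕ) : ℝ) * Cv (fun x => (A κ).ap T (Ac κ) x) (fun x => (A κ).ap T (Ac κ) x)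
          ≤ ((2 * T : ℕ) : ℝ) * (1 / 4) := by gcongr
      refine h2.trans (h4.trans (le_of_eq ?_))
      push_cast; ring
    have h5 : ∑ κ, TIf (fun x => (A κ).ap T (Ac κ) x) ≤ ∑ _κ : Fin r, (T : ℝ) / 2 :=
      Finset.sum_le_sum fun κ _ => h1 κ
    rw [Finset.sum_const, Finset.card_univ, Fintype.card_fin, nsmul_eq_mul] at h5
    calc L ^ 2 * r * ∑ κ, TIf (fun x => (A κ).ap T (Ac κ) x)
        ≤ L ^ 2 * r * (r * ((T : ℝ) / 2)) := by gcongr
      _ = _ := by ring
  have h := osss2 (m := fm A T) (fm_nonneg A T) (r * T) (r * T) (by positivity) (fm_AA A T) g f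
    θ hθ0 V hV hV0 hclose (fun S a hS => by
      refine (fam_node A Ac hA g L hL θ hθ0.le S a hS).trans (le_of_eq ?_)
      rw [hθ]
      field_simp
      norm_num) (L ^ 2 * (r : ℝ) ^ 2 * T / 2) (by positivity) hTI I hI0 hI
  have h2 : V ^ 2 * θ = V ^ 3 / (2048 * L ^ 2 * (r : ℝ) ^ 2 * (T : ℝ) ^ 8) := by
    rw [hθ]; ring
  rw [h2, div_le_iff₀ (by positivity)] at h
  refine h.trans (le_of_eq ?_)
  ring

end Close

end Pool.Agent.TH334.NR
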