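import Pool.Agent.TH334.NR.Tree
import Pool.Agent.TH334.NR.Post
import Pool.Agent.H572R2.ModelR

/-!
# Quantum query algorithms that never re-read a position

The basis states of a quantum query algorithm are pairs (position of the oracle or null, workspace).
The algorithm starts at the basis state `s₀`, applies `U 0`, and then, for `k = 1, 2, ...`, the phase
query (the basis state `(i, w)` is multiplied by `-1` if `x i` is true) followed by `U k`.
-/

set_option autoImplicit false

namespace Pool.Agent.TH334.NR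

open Finset Matrix Pool.Agent.H572R2

/-- The state after `t` queries to the oracle `x`. -/
noncomputable def state {N m : ℕ} (U : ℕ → Matrix.unitaryGroup (Option (Fin N) × Fin m) ℂ)
    (s₀ : Option (Fin N) × Fin m) (t : ℕ) (x : Fin N → Bool) (s : Option (Fin N) × Fin m) : ℂ :=
  ((List.ofFn (fun k : Fin t => (U ((k : ℕ) + 1)).1 *
      Matrix.diagonal (fun q : Option (Fin N) × Fin m =>
        Option.elim q.1 (1 : ℂ) (fun i => if x i then -1 else 1)))).reverse.prod * (U 0).1) s s₀

/-- The algorithm making `T` queries never re-reads: just before each query, the amplitude of a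
basis state about to query the position `i` does not depend on the bit `x i`. -/
def NeverRereads {N m : ℕ} (U : ℕ → Matrix.unitaryGroup (Option (Fin N) × Fin m) ℂ)
    (s₀ : Option (Fin N) × Fin m) (T : ℕ) : Prop :=
  ∀ t < T, ∀ (i : Fin N) (w : Fin m) (x : Fin N → Bool),
    state U s₀ t (Function.update x i (!x i)) (some i, w) = state U s₀ t x (some i, w)

/-- The probability that the measurement after `T` queries to the oracle `x` gives an outcome in
`Acc`. -/
noncomputable def acc {N m : ℕ} (U : ℕ → Matrix.unitaryGroup (Option (Fin N) × Fin m) ℂ)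
    (s₀ : Option (Fin N) × Fin m) (Acc : Finset (Option (Fin N) × Fin m)) (T : ℕ)
    (x : Fin N → Bool) : ℝ :=
  ∑ s ∈ Acc, ‖state U s₀ T x s‖ ^ 2

section Link

variable {N m : ℕ} (U : ℕ → Matrix.unitaryGroup (Option (Fin N) × Fin m) ℂ)
  (s₀ : Option (Fin N) × Fin m)

/-- The abstract algorithm. -/
noncomputable def toAlg : Alg N (Option (Fin N) × Fin m) where
  W := fun t => (U (t + 1)).1
  hW := fun t => Matrix.UnitaryGroup.star_mul_self _
  pos := Prod.fst
  v := fun s => (U 0).1 s s₀
  hv := by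
    have h1 : (fun s => (U 0).1 s s₀) = (U 0).1 *ᵥ (Pi.single s₀ 1) := by
      funext s
      rw [Matrix.mulVec_single_one]
      rfl
    rw [h1, nsq_unitary _ (Matrix.UnitaryGroup.star_mul_self _)]
    unfold nsq
    rw [Finset.sum_eq_single s₀]
    · simp
    · intro s _ hs
      simp [hs]
    · intro h; exact absurd (Finset.mem_univ _) h

lemma state_eq (t : ℕ) (x : Fin N → Bool) (s : Option (Fin N) × Fin m) :
    state U s₀ t x s = (ModelR.lay (fun k => (U (k + 1)).1 *
      Matrix.diagonal (fun q : Option (Fin N) × Fin m =>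
        Option.elim q.1 (1 : ℂ) (fun i => if x i then -1 else 1))) t * (U 0).1) s s₀ := rfl

lemma toAlg_st (t : ℕ) (x : Fin N → Bool) : (toAlg U s₀).st (sg x) t = state U s₀ t x := by
  induction t with
  | zero =>
    funext s
    rw [state_eq, ModelR.lay_zero, Matrix.one_mul]
    rfl
  | succ t ih =>
    funext s
    rw [Alg.st_succ, ih, state_eq, ModelR.lay_succ, Matrix.mul_assoc, Matrix.mul_assoc,
      Matrix.mul_apply]
    rw [Matrix.mulVec, dotProduct]
    apply Finset.sum_congr rfl
    intro s' _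
    rw [Matrix.diagonal_mul, state_eq]
    congr 2
    show mon (sg x) (s'.1).toFinset = _
    cases s'.1 with
    | none => simp [mon]
    | some i => simp [mon, sg]

lemma toAlg_NRs {T : ℕ} (h : NeverRereads U s₀ T) : (toAlg U s₀).NRs T := by
  intro t ht b j hb x
  rw [toAlg_st, toAlg_st]
  have hb' : b.1 = some j := hb
  have e : b = (some j, b.2) := Prod.ext hb' rfl
  rw [e]
  exact h t ht j b.2 x

lemma toAlg_ap (Acc : Finset (Option (Fin N) × Fin m)) (T : ℕ) (x : Fin N → Bool) :
    (toAlg U s₀).ap T Acc x = acc U s₀ Acc T x := by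
  unfold Alg.ap acc
  rw [toAlg_st]

lemma acc_nonneg (Acc : Finset (Option (Fin N) × Fin m)) (T : ℕ) (x : Fin N → Bool) :
    0 ≤ acc U s₀ Acc T x := by
  rw [← toAlg_ap]; exact (toAlg U s₀).ap_nonneg T Acc x

lemma acc_le_one (Acc : Finset (Option (Fin N) × Fin m)) (T : ℕ) (x : Fin N → Bool) :
    acc U s₀ Acc T x ≤ 1 := by
  rw [← toAlg_ap]; exact (toAlg U s₀).ap_le_one T Acc x

end Link

/-- The expectation of `G y`, when the bits `y κ` are independent and `y κ` is `1` with probability
`u κ`. -/
noncomputable def expect {r : ℕ} (G : (Fin r → Bool) → ℝ) (u : Fin r → ℝ) : ℝ :=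
  ∑ y : Fin r → Bool, G y * ∏ κ, (if y κ then u κ else 1 - u κ)

lemma expect_eq {r : ℕ} (G : (Fin r → Bool) → ℝ) (u : Fin r → ℝ) : expect G u = pp G u := rfl

lemma pp_lip_osc {r : ℕ} (G : (Fin r → Bool) → ℝ) (c : ℝ) (hc : 0 < c)
    (hG : ∀ y y', G y - G y' ≤ c) (u v : Fin r → ℝ)
    (hu0 : ∀ κ, 0 ≤ u κ) (hu1 : ∀ κ, u κ ≤ 1) (hv0 : ∀ κ, 0 ≤ v κ) (hv1 : ∀ κ, v κ ≤ 1) :
    |pp G u - pp G v| ≤ c * ∑ κ, |u κ - v κ| := by
  obtain ⟨y0, hy0⟩ := Finite.exists_min G
  have h1 : ∀ w : Fin r → ℝ, pp G w = G y0 + c * pp (fun y => (G y - G y0) / c) w := by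
    intro w
    have h2 : G y0 = ∑ y : Fin r → Bool, G y0 * ∏ κ, (if y κ then w κ else 1 - w κ) := by
      rw [← Finset.mul_sum, pp_one, mul_one]
    conv_rhs => rw [h2]
    unfold pp
    rw [Finset.mul_sum, ← Finset.sum_add_distrib]
    refine Finset.sum_congr rfl fun y _ => ?_
    have h3 := h2
    rw [← h2]
    field_simp
    ring
  have h2 := pp_lip (fun y => (G y - G y0) / c)
    (fun y => div_nonneg (by have := hy0 y; linarith) hc.le)
    (fun y => by rw [div_le_one hc]; exact hG y y0) u v hu0 hu1 hv0 hv1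
  rw [h1 u, h1 v]
  have e : G y0 + c * pp (fun y => (G y - G y0) / c) u
      - (G y0 + c * pp (fun y => (G y - G y0) / c) v)
      = c * (pp (fun y => (G y - G y0) / c) u - pp (fun y => (G y - G y0) / c) v) := by ring
  rw [e, abs_mul, abs_of_pos hc]
  gcongr

end Pool.Agent.TH334.NR
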