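import Pool.Agent.TH334.NR.VarL

/-!
# Influences from a light lemma, with the total influence as a potential
-/

set_option autoImplicit false

namespace Pool.Agent.TH334.NR

open Finset Matrix Pool.Agent.H572R2

variable {N : ℕ}

/-- Covariance. -/
noncomputable def Cv (f h : (Fin N → Bool) → ℝ) : ℝ := EE (fun x => f x * h x) - EE f * EE h

/-- Influence of the coordinate `i`. -/
noncomputable def If (i : Fin N) (f : (Fin N → Bool) → ℝ) : ℝ :=
  EE (fun x => ((f x - f (flp i x)) / 2) ^ 2)

/-- Total influence. -/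
noncomputable def TIf (f : (Fin N → Bool) → ℝ) : ℝ := ∑ i, If i f

lemma If_nonneg (i : Fin N) (f : (Fin N → Bool) → ℝ) : 0 ≤ If i f := EE_nonneg fun _ => sq_nonneg _

lemma TIf_nonneg (f : (Fin N → Bool) → ℝ) : 0 ≤ TIf f := Finset.sum_nonneg fun i _ => If_nonneg i f

lemma Cv_eq (f h : (Fin N → Bool) → ℝ) :
    Cv f h = EE (fun x => (f x - EE f) * (h x - EE h)) := by
  have h1 : EE (fun x => (f x - EE f) * (h x - EE h))
      = EE (fun x => (f x * h x - EE h * f x) - (EE f * h x - EE f * EE h)) := by
    apply EE_congr; intro x; ring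
  rw [h1, EE_sub, EE_sub, EE_sub, EE_mul, EE_mul, EE_const]
  unfold Cv
  ring

lemma Cv_self_nonneg (f : (Fin N → Bool) → ℝ) : 0 ≤ Cv f f := by
  rw [Cv_eq]
  exact EE_nonneg fun x => mul_self_nonneg _

lemma abs_EE_mul_le (f h : (Fin N → Bool) → ℝ) :
    |EE (fun x => f x * h x)| ≤ Real.sqrt (EE (fun x => f x ^ 2)) * Real.sqrt (EE (fun x => h x ^ 2)) := by
  rw [← Real.sqrt_mul (EE_nonneg fun x => sq_nonneg _)]
  apply Real.abs_le_sqrt
  exact EE_cs f h

lemma abs_Cv_le (f h : (Fin N → Bool) → ℝ) :
    |Cv f h| ≤ Real.sqrt (Cv f f) * Real.sqrt (Cv h h) := by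
  rw [Cv_eq, Cv_eq f f, Cv_eq h h]
  have := abs_EE_mul_le (fun x => f x - EE f) (fun x => h x - EE h)
  simpa only [sq] using this

/-- Splitting over a coordinate. -/
lemma Cv_split (i : Fin N) (q q1 q0 h : (Fin N → Bool) → ℝ)
    (hq : ∀ x, q x = if x i then q1 x else q0 x) (h1 : ∀ x, q1 (flp i x) = q1 x)
    (h0 : ∀ x, q0 (flp i x) = q0 x) :
    Cv q h = (Cv q1 h + Cv q0 h) / 2
      + EE (fun x => ((q x - q (flp i x)) / 2) * ((h x - h (flp i x)) / 2)) := by
  have e1 : EE q = (EE q1 + EE q0) / 2 := by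
    have : EE q = EE (fun x => if x i then q1 x else q0 x) := EE_congr hq
    rw [this, EE_ite i q1 q0 h1 h0]
  have e2 : ∀ x, q x + q (flp i x) = q1 x + q0 x := by
    intro x
    rw [hq, hq, flp_same, h1, h0]
    cases x i <;> simp [add_comm]
  have e3 : EE (fun x => ((q x - q (flp i x)) / 2) * ((h x - h (flp i x)) / 2))
      = EE (fun x => q x * h x) - (EE (fun x => q1 x * h x) + EE (fun x => q0 x * h x)) / 2 := by
    have f1 : EE (fun x => ((q x - q (flp i x)) / 2) * ((h x - h (flp i x)) / 2))
        = (EE (fun x => ((q x - q (flp i x)) / 4) * h x)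
          + EE (fun x => ((q (flp i x) - q x) / 4) * h (flp i x))) := by
      rw [← EE_add]; apply EE_congr; intro x; ring
    have f2 : EE (fun x => ((q (flp i x) - q x) / 4) * h (flp i x))
        = EE (fun x => ((q x - q (flp i x)) / 4) * h x) := by
      rw [← EE_flp i (fun x => ((q x - q (flp i x)) / 4) * h x)]
      apply EE_congr; intro x
      rw [flp_flp]
    have f3 : EE (fun x => ((q x - q (flp i x)) / 4) * h x)
        = EE (fun x => (1 / 2) * (q x * h x) - (1 / 4) * (q1 x * h x + q0 x * h x)) := by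
      apply EE_congr; intro x
      have := e2 x
      have e4 : q (flp i x) = q1 x + q0 x - q x := by linarith
      rw [e4]; ring
    rw [f1, f2, f3, EE_sub, EE_mul, EE_mul, EE_add]
    ring
  rw [e3]
  unfold Cv
  rw [e1]
  ring

lemma TIf_split (i : Fin N) (q q1 q0 : (Fin N → Bool) → ℝ)
    (hq : ∀ x, q x = if x i then q1 x else q0 x) (h1 : ∀ x, q1 (flp i x) = q1 x)
    (h0 : ∀ x, q0 (flp i x) = q0 x) :
    (TIf q1 + TIf q0) / 2 = TIf q - If i q := by
  have hk : ∀ k, k ≠ i → If k q = (If k q1 + If k q0) / 2 := by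
    intro k hk
    have e1 : If k q = EE (fun x => if x i then ((q1 x - q1 (flp k x)) / 2) ^ 2
        else ((q0 x - q0 (flp k x)) / 2) ^ 2) := by
      unfold If
      apply EE_congr
      intro x
      rw [hq, hq, flp_ne hk.symm]
      split_ifs <;> rfl
    rw [e1, EE_ite i]
    · rfl
    · intro x
      show ((q1 (flp i x) - q1 (flp k (flp i x))) / 2) ^ 2 = _
      rw [flp_comm k i, h1, h1]
    · intro x
      show ((q0 (flp i x) - q0 (flp k (flp i x))) / 2) ^ 2 = _
      rw [flp_comm k i, h0, h0]
  have hi1 : If i q1 = 0 := by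
    unfold If
    rw [← EE_const (N := N) 0]
    apply EE_congr; intro x
    rw [h1]; simp
  have hi0 : If i q0 = 0 := by
    unfold If
    rw [← EE_const (N := N) 0]
    apply EE_congr; intro x
    rw [h0]; simp
  unfold TIf
  rw [← Finset.sum_add_distrib, Finset.sum_div,
    ← Finset.add_sum_erase _ _ (Finset.mem_univ i),
    ← Finset.add_sum_erase _ (fun k => If k q) (Finset.mem_univ i), hi1, hi0]
  rw [Finset.sum_congr rfl fun k hk' => (hk k (Finset.ne_of_mem_erase hk')).symm]
  ring

variable {m : ℕ → Fin N → (Fin N → Bool) → ℝ}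

/-- The covariance bound. -/
theorem cov_bound (hm : ∀ t k x, 0 ≤ m t k x) (r : ℕ) (p : (Fin N → Bool) → ℝ) (Bd θ : ℝ)
    (hθ : 0 < θ)
    (hlight : ∀ (S : Finset (Fin N)) (a : Fin N → Bool),
      (∀ t < r, ∀ k ∈ Sᶜ, Ex S a (m t k) ≤ θ) →
      Ex S a (fun x => (p x) ^ 2) - (Ex S a p) ^ 2 ≤ Bd)
    (h : (Fin N → Bool) → ℝ) (I : ℝ) (hI0 : 0 ≤ I) (hI : ∀ l, Real.sqrt (If l h) ≤ I)
    (al : ℝ) (hal : 0 < al) :
    ∀ (n : ℕ) (S : Finset (Fin N)) (a : Fin N → Bool), (Sᶜ).card = n →
      |Cv (fun x => p (mix S a x)) h| ≤ Real.sqrt Bd * Real.sqrt (Cv h h)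
        + (al * TIf (fun x => p (mix S a x)) + AA m r S a / (al * θ)) / 2 * I := by
  classical
  have hdone : ∀ (S : Finset (Fin N)) (a : Fin N → Bool),
      (∀ t < r, ∀ k ∈ Sᶜ, Ex S a (m t k) ≤ θ) →
      |Cv (fun x => p (mix S a x)) h| ≤ Real.sqrt Bd * Real.sqrt (Cv h h)
        + (al * TIf (fun x => p (mix S a x)) + AA m r S a / (al * θ)) / 2 * I := by
    intro S a hl
    have h1 := hlight S a hl
    have h2 := abs_Cv_le (fun x => p (mix S a x)) h
    have h3 : Cv (fun x => p (mix S a x)) (fun x => p (mix S a x)) ≤ Bd := by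
      refine le_trans (le_of_eq ?_) h1
      unfold Cv Ex
      simp only [sq]
    have h4 : Real.sqrt (Cv (fun x => p (mix S a x)) (fun x => p (mix S a x)))
        * Real.sqrt (Cv h h) ≤ Real.sqrt Bd * Real.sqrt (Cv h h) :=
      mul_le_mul_of_nonneg_right (Real.sqrt_le_sqrt h3) (Real.sqrt_nonneg _)
    have h5 : 0 ≤ (al * TIf (fun x => p (mix S a x)) + AA m r S a / (al * θ)) / 2 * I := by
      have := TIf_nonneg (fun x => p (mix S a x))
      have := AA_nonneg hm r S a
      positivity
    linarith
  intro n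
  induction n with
  | zero =>
    intro S a hS
    have hS' : Sᶜ = ∅ := Finset.card_eq_zero.1 hS
    exact hdone S a (by intro t _ k hk; rw [hS'] at hk; simp at hk)
  | succ n ih =>
    intro S a hS
    by_cases hlt : ∀ t < r, ∀ k ∈ Sᶜ, Ex S a (m t k) ≤ θ
    · exact hdone S a hlt
    · push Not at hlt
      obtain ⟨t, ht, i, hi, hti⟩ := hlt
      have hi' : i ∉ S := by simpa using hi
      have hc : ((insert i S)ᶜ).card = n := by
        have : (insert i S)ᶜ = (Sᶜ).erase i := by
          ext k; simp
        rw [this, Finset.card_erase_of_mem hi, hS]; rfl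
      have i1 := ih (insert i S) (Function.update a i true) hc
      have i0 := ih (insert i S) (Function.update a i false) hc
      set q : (Fin N → Bool) → ℝ := fun x => p (mix S a x) with hq
      set q1 : (Fin N → Bool) → ℝ := fun x => p (mix (insert i S) (Function.update a i true) x)
        with hq1
      set q0 : (Fin N → Bool) → ℝ := fun x => p (mix (insert i S) (Function.update a i false) x)
        with hq0
      have hiins : i ∈ insert i S := Finset.mem_insert_self i S
      have hmix : ∀ c (x : Fin N → Bool), x i = c → mix S a x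
          = mix (insert i S) (Function.update a i c) x := by
        intro c x hx
        funext k
        by_cases hk : k = i
        · subst hk; simp [mix, hi', hx]
        · simp [mix, hk]
      have hqq : ∀ x, q x = if x i then q1 x else q0 x := by
        intro x
        cases hx : x i
        · simp only [Bool.false_eq_true, if_false, hq, hq0]
          rw [hmix false x hx]
        · simp only [if_true, hq, hq1]
          rw [hmix true x hx]
      have hq1i : ∀ x, q1 (flp i x) = q1 x := by
        intro x; simp only [hq1]; rw [mix_flp_mem hiins]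
      have hq0i : ∀ x, q0 (flp i x) = q0 x := by
        intro x; simp only [hq0]; rw [mix_flp_mem hiins]
      have hC := Cv_split i q q1 q0 h hqq hq1i hq0i
      have hT := TIf_split i q q1 q0 hqq hq1i hq0i
      set μ := Ex S a (m t i) with hμ
      have hA := AA_split' hm r hi' a ht (le_refl μ)
      have hB := abs_EE_mul_le (fun x => (q x - q (flp i x)) / 2) (fun x => (h x - h (flp i x)) / 2)
      set J := If i q with hJ
      have hJ0 : 0 ≤ J := If_nonneg _ _
      have hB' : |EE (fun x => ((q x - q (flp i x)) / 2) * ((h x - h (flp i x)) / 2))|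
          ≤ Real.sqrt J * I := by
        refine hB.trans ?_
        exact mul_le_mul_of_nonneg_left (hI i) (Real.sqrt_nonneg _)
      have h3 : 2 * Real.sqrt J ≤ al * J + μ / (al * θ) := by
        have h4 := sq_nonneg (Real.sqrt al * Real.sqrt J - 1 / Real.sqrt al)
        have h5 : 0 < Real.sqrt al := Real.sqrt_pos.2 hal
        have e : (Real.sqrt al * Real.sqrt J - 1 / Real.sqrt al) ^ 2
            = al * J - 2 * Real.sqrt J + 1 / al := by
          rw [sub_sq, mul_pow, Real.sq_sqrt hal.le, Real.sq_sqrt hJ0, div_pow,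
            Real.sq_sqrt hal.le]
          field_simp
        have h6 : 1 / al ≤ μ / (al * θ) := by
          rw [div_le_div_iff₀ hal (by positivity)]
          nlinarith
        linarith
      have hA2 : (AA m r (insert i S) (Function.update a i true) / (al * θ)
          + AA m r (insert i S) (Function.update a i false) / (al * θ)) / 2
          ≤ (AA m r S a - μ) / (al * θ) := by
        have := div_le_div_of_nonneg_right hA (by positivity : 0 ≤ al * θ)
        refine le_trans (le_of_eq ?_) this
        ring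
      have hkey : ((al * TIf q1 + AA m r (insert i S) (Function.update a i true) / (al * θ)) / 2
          + (al * TIf q0 + AA m r (insert i S) (Function.update a i false) / (al * θ)) / 2) / 2
          + Real.sqrt J
          ≤ (al * TIf q + AA m r S a / (al * θ)) / 2 := by
        have e1 : (al * TIf q1 + al * TIf q0) / 2 = al * (TIf q - J) := by
          rw [← hT]; ring
        have e2 : (AA m r S a - μ) / (al * θ) = AA m r S a / (al * θ) - μ / (al * θ) := by ring
        rw [e2] at hA2
        have e3 : al * (TIf q - J) = al * TIf q - al * J := by ring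
        rw [e3] at e1
        linarith
      have hkey2 := mul_le_mul_of_nonneg_right hkey hI0
      have h7 := abs_add_le ((Cv q1 h + Cv q0 h) / 2)
        (EE (fun x => ((q x - q (flp i x)) / 2) * ((h x - h (flp i x)) / 2)))
      have h8 : |(Cv q1 h + Cv q0 h) / 2| ≤ (|Cv q1 h| + |Cv q0 h|) / 2 := by
        rw [abs_div, abs_of_pos (by norm_num : (0 : ℝ) < 2)]
        have := abs_add_le (Cv q1 h) (Cv q0 h)
        linarith
      rw [hC]
      have e9 : (((al * TIf q1 + AA m r (insert i S) (Function.update a i true) / (al * θ)) / 2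
          + (al * TIf q0 + AA m r (insert i S) (Function.update a i false) / (al * θ)) / 2) / 2
          + Real.sqrt J) * I
          = ((al * TIf q1 + AA m r (insert i S) (Function.update a i true) / (al * θ)) / 2 * I
          + (al * TIf q0 + AA m r (insert i S) (Function.update a i false) / (al * θ)) / 2 * I) / 2
          + Real.sqrt J * I := by ring
      rw [e9] at hkey2
      linarith

/-- Influences from a light lemma. -/
theorem osss (hm : ∀ t k x, 0 ≤ m t k x) (r : ℕ) (R : ℝ) (hR : 0 < R)
    (hAA : ∀ a : Fin N → Bool, AA m r ∅ a ≤ R)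
    (p : (Fin N → Bool) → ℝ) (θ : ℝ) (hθ : 0 < θ) (V : ℝ) (hV : V = Cv p p) (hV0 : 0 < V)
    (hlight : ∀ (S : Finset (Fin N)) (a : Fin N → Bool),
      (∀ t < r, ∀ k ∈ Sᶜ, Ex S a (m t k) ≤ θ) →
      Ex S a (fun x => (p x) ^ 2) - (Ex S a p) ^ 2 ≤ V / 4)
    (Y : ℝ) (hY0 : 0 < Y) (hTI : TIf p ≤ Y) (I : ℝ) (hI0 : 0 ≤ I)
    (hI : ∀ l, Real.sqrt (If l p) ≤ I) :
    V ^ 2 * θ ≤ 4 * (Y * R) * I ^ 2 := by
  -- the parameter
  set w := Real.sqrt (R / (Y * θ)) with hw
  have hw0 : 0 < w := Real.sqrt_pos.2 (by positivity)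
  have hw2 : w ^ 2 = R / (Y * θ) := Real.sq_sqrt (by positivity)
  have h1 := cov_bound hm r p (V / 4) θ hθ hlight p I hI0 hI w hw0 _ ∅ (fun _ => true) rfl
  simp only [mix_empty] at h1
  rw [← hV, abs_of_pos hV0] at h1
  have hsq : Real.sqrt (V / 4) * Real.sqrt V = V / 2 := by
    have e : V / 4 = (Real.sqrt V / 2) ^ 2 := by
      rw [div_pow, Real.sq_sqrt hV0.le]; norm_num
    have h1 : Real.sqrt (V / 4) = Real.sqrt V / 2 := by
      rw [e, Real.sqrt_sq (by positivity)]
    rw [h1, div_mul_eq_mul_div, Real.mul_self_sqrt hV0.le]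
  rw [hsq] at h1
  have h2 : AA m r ∅ (fun _ => true) / (w * θ) ≤ R / (w * θ) := by
    gcongr
    exact hAA _
  have h3 : w * TIf p ≤ w * Y := by gcongr
  have h4 : R / (w * θ) = w * Y := by
    rw [div_eq_iff (by positivity)]
    have : w * Y * (w * θ) = w ^ 2 * (Y * θ) := by ring
    rw [this, hw2]
    field_simp
  have h5 : (w * TIf p + AA m r ∅ (fun _ => true) / (w * θ)) / 2 * I ≤ w * Y * I := by
    have : (w * TIf p + AA m r ∅ (fun _ => true) / (w * θ)) / 2 ≤ w * Y := by
      rw [h4] at h2
      linarith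
    exact mul_le_mul_of_nonneg_right this hI0
  have h6 : V / 2 ≤ w * Y * I := by linarith
  have h7 := pow_le_pow_left₀ (by positivity) h6 2
  have h8 : (w * Y * I) ^ 2 = R * Y / θ * I ^ 2 := by
    rw [mul_pow, mul_pow, hw2]
    field_simp
  rw [h8] at h7
  have h9 : R * Y / θ * I ^ 2 * θ = Y * R * I ^ 2 := by
    field_simp
  have h10 := mul_le_mul_of_nonneg_right h7 hθ.le
  rw [h9] at h10
  nlinarith

end Pool.Agent.TH334.NR
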