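import Pool.Agent.TH334.NR.Mass

/-!
# Two copies of an algorithm: the part without collisions
-/

set_option autoImplicit false

namespace Pool.Agent.TH334.NR

open Finset Matrix Pool.Agent.H572R2
open scoped Kronecker

variable {N : ℕ} {B : Type} [Fintype B] [DecidableEq B]

/-- The two copies collide when queries `o`, `o'` are made with sets `S`, `S'`. -/
def kill (o o' S S' : Finset (Fin N)) : Prop := ¬ Disjoint o o' ∨ ¬ Disjoint (o ∪ o') (S ∪ S')

section NS

variable {C : Type} [Fintype C]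

lemma norm_add_sq_le (a b : ℂ) (c : ℝ) (hc : 0 < c) :
    ‖a + b‖ ^ 2 ≤ (1 + 1 / c) * ‖a‖ ^ 2 + (1 + c) * ‖b‖ ^ 2 := by
  have h1 := norm_add_le a b
  have h2 : ‖a + b‖ ^ 2 ≤ (‖a‖ + ‖b‖) ^ 2 := pow_le_pow_left₀ (norm_nonneg _) h1 2
  have h3 : 2 * (‖a‖ * ‖b‖) ≤ 1 / c * ‖a‖ ^ 2 + c * ‖b‖ ^ 2 := by
    have h4 : 0 ≤ (‖a‖ - c * ‖b‖) ^ 2 / c := by positivity
    have h5 : (‖a‖ - c * ‖b‖) ^ 2 / c = 1 / c * ‖a‖ ^ 2 + c * ‖b‖ ^ 2 - 2 * (‖a‖ * ‖b‖) := by
      field_simp
      ring
    linarith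
  nlinarith

lemma nsq_nonneg (F : C → ℂ) : 0 ≤ nsq F := Finset.sum_nonneg fun _ _ => by positivity

lemma nsq_add_le (F G : C → ℂ) (c : ℝ) (hc : 0 < c) :
    nsq (fun p => F p + G p) ≤ (1 + 1 / c) * nsq F + (1 + c) * nsq G := by
  unfold nsq
  rw [Finset.mul_sum, Finset.mul_sum, ← Finset.sum_add_distrib]
  exact Finset.sum_le_sum fun p _ => norm_add_sq_le _ _ c hc

lemma nsq_phase (c F : C → ℂ) (hc : ∀ p, ‖c p‖ = 1) : nsq (fun p => c p * F p) = nsq F := by
  unfold nsq
  refine Finset.sum_congr rfl fun p _ => ?_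
  rw [norm_mul, hc, one_mul]

end NS

lemma norm_mon {u : Fin N → ℂ} (hu : ∀ i, ‖u i‖ = 1) (S : Finset (Fin N)) : ‖mon u S‖ = 1 := by
  unfold mon
  rw [norm_prod]
  exact Finset.prod_eq_one fun i _ => hu i

omit [DecidableEq B] in
lemma kron_prod (W W' : Matrix B B ℂ) (f g : B → ℂ) (p : B × B) :
    ((W ⊗ₖ W') *ᵥ (fun q => f q.1 * g q.2)) p = (W *ᵥ f) p.1 * (W' *ᵥ g) p.2 := by
  simp only [mulVec, dotProduct, kroneckerMap_apply]
  rw [Fintype.sum_prod_type, Finset.sum_mul_sum]
  refine Finset.sum_congr rfl fun b _ => Finset.sum_congr rfl fun c _ => ?_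
  ring

lemma kron_isom (W W' : Matrix B B ℂ) (h : Wᴴ * W = 1) (h' : W'ᴴ * W' = 1) :
    (W ⊗ₖ W')ᴴ * (W ⊗ₖ W') = 1 := by
  rw [conjTranspose_kronecker, ← mul_kronecker_mul, h, h', one_kronecker_one]

section Two

variable (A A' : Alg N B)

/-- Two copies. -/
noncomputable def X (u u' : Fin N → ℂ) (t : ℕ) (p : B × B) : ℂ := A.st u t p.1 * A'.st u' t p.2

open Classical in
/-- A restricted double sum of coefficients. -/
noncomputable def ds (Q : Finset (Fin N) → Finset (Fin N) → Prop) (u u' : Fin N → ℂ) (t : ℕ)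
    (p : B × B) : ℂ :=
  ∑ S, ∑ S', if Q S S' then mon u S * mon u' S' * (A.co t S p.1 * A'.co t S' p.2) else 0

/-- The part with disjoint sets. -/
noncomputable def DD (u u' : Fin N → ℂ) (t : ℕ) (p : B × B) : ℂ :=
  ds A A' (fun S S' => Disjoint S S') u u' t p

/-- The part of `DD` about to collide. -/
noncomputable def KK (u u' : Fin N → ℂ) (t : ℕ) (p : B × B) : ℂ :=
  ds A A' (fun S S' => Disjoint S S' ∧ kill (A.os p.1) (A'.os p.2) S S') u u' t p

/-- The remaining part. -/
noncomputable def RR (u u' : Fin N → ℂ) (t : ℕ) (p : B × B) : ℂ :=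
  X A A' u u' t p - DD A A' u u' t p

variable {A A'}

lemma X_succ (u u' : Fin N → ℂ) (t : ℕ) :
    X A A' u u' (t + 1) = (A.W t ⊗ₖ A'.W t) *ᵥ
      (fun q => (mon u (A.os q.1) * mon u' (A'.os q.2)) * X A A' u u' t q) := by
  funext p
  have h : (fun q : B × B => (mon u (A.os q.1) * mon u' (A'.os q.2)) * X A A' u u' t q)
      = fun q => (fun b => mon u (A.os b) * A.st u t b) q.1
        * (fun b => mon u' (A'.os b) * A'.st u' t b) q.2 := by
    funext q
    unfold X
    ring
  rw [h]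
  exact (kron_prod (A.W t) (A'.W t) (fun b => mon u (A.os b) * A.st u t b)
    (fun b => mon u' (A'.os b) * A'.st u' t b) p).symm

lemma disj_iff {o o' R R' : Finset (Fin N)} (h : Disjoint o R) (h' : Disjoint o' R') :
    Disjoint (o ∪ R) (o' ∪ R') ↔ Disjoint R R' ∧ ¬ kill o o' R R' := by
  unfold kill
  push Not
  simp only [Finset.disjoint_union_left, Finset.disjoint_union_right]
  constructor
  · rintro ⟨⟨a1, a2⟩, a3, a4⟩
    exact ⟨a4, a1, ⟨h, a2.symm⟩, a3, h'⟩
  · rintro ⟨b1, b2, ⟨_, b4⟩, b5, _⟩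
    exact ⟨⟨b2, b4.symm⟩, b5, b1⟩

open Classical in
/-- One step of the part with disjoint sets: inner identity. -/
lemma inner_step {T : ℕ} (h : A.NRc T) (h' : A'.NRc T) {t : ℕ} (ht : t < T) (u u' : Fin N → ℂ)
    (q : B × B) :
    ∑ S, ∑ S', (if Disjoint S S' then mon u S * mon u' S' *
        ((if A.os q.1 ⊆ S then A.co t (S \ A.os q.1) q.1 else 0)
          * (if A'.os q.2 ⊆ S' then A'.co t (S' \ A'.os q.2) q.2 else 0)) else 0)
      = (mon u (A.os q.1) * mon u' (A'.os q.2)) * (DD A A' u u' t q - KK A A' u u' t q) := by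
  set o := A.os q.1 with ho
  set o' := A'.os q.2 with ho'
  have hz : ∀ R, ¬ Disjoint o R → A.co t R q.1 = 0 := h t ht q.1
  have hz' : ∀ R, ¬ Disjoint o' R → A'.co t R q.2 = 0 := h' t ht q.2
  -- reindex the second set
  have e1 : ∀ S, ∑ S', (if Disjoint S S' then mon u S * mon u' S' *
        ((if o ⊆ S then A.co t (S \ o) q.1 else 0)
          * (if o' ⊆ S' then A'.co t (S' \ o') q.2 else 0)) else 0)
      = ∑ R', (if Disjoint S (o' ∪ R') then mon u S * mon u' (o' ∪ R') else 0)
          * A'.co t R' q.2 * (if o ⊆ S then A.co t (S \ o) q.1 else 0) := by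
    intro S
    have := reidx o' (fun S' => (if Disjoint S S' then mon u S * mon u' S' else 0)
      * (if o ⊆ S then A.co t (S \ o) q.1 else 0)) (fun R' => A'.co t R' q.2) hz'
    refine Eq.trans ?_ (this.trans ?_)
    · refine Finset.sum_congr rfl fun S' _ => ?_
      by_cases hd : Disjoint S S'
      · simp only [hd, if_true]; ring
      · simp only [hd, if_false]; ring
    · refine Finset.sum_congr rfl fun R' _ => ?_
      ring
  rw [Finset.sum_congr rfl fun S _ => e1 S, Finset.sum_comm]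
  have e2 : ∀ R', ∑ S, (if Disjoint S (o' ∪ R') then mon u S * mon u' (o' ∪ R') else 0)
          * A'.co t R' q.2 * (if o ⊆ S then A.co t (S \ o) q.1 else 0)
      = ∑ R, (if Disjoint (o ∪ R) (o' ∪ R') then mon u (o ∪ R) * mon u' (o' ∪ R') else 0)
          * A'.co t R' q.2 * A.co t R q.1 := by
    intro R'
    exact reidx o (fun S => (if Disjoint S (o' ∪ R') then mon u S * mon u' (o' ∪ R') else 0)
          * A'.co t R' q.2) (fun R => A.co t R q.1) hz
  rw [Finset.sum_congr rfl fun R' _ => e2 R', Finset.sum_comm]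
  unfold DD KK ds
  rw [← Finset.sum_sub_distrib, Finset.mul_sum]
  refine Finset.sum_congr rfl fun R _ => ?_
  rw [← Finset.sum_sub_distrib, Finset.mul_sum]
  refine Finset.sum_congr rfl fun R' _ => ?_
  rw [← ho, ← ho']
  by_cases hR : Disjoint o R
  · by_cases hR' : Disjoint o' R'
    · rw [mon_union u hR, mon_union u' hR']
      by_cases hd : Disjoint R R'
      · by_cases hk : kill o o' R R'
        · have : ¬ Disjoint (o ∪ R) (o' ∪ R') := fun hh => ((disj_iff hR hR').1 hh).2 hk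
          simp only [this, hd, hk, if_false, if_true, and_self]
          ring
        · have : Disjoint (o ∪ R) (o' ∪ R') := (disj_iff hR hR').2 ⟨hd, hk⟩
          simp only [this, hd, hk, if_false, if_true, and_false]
          ring
      · have : ¬ Disjoint (o ∪ R) (o' ∪ R') := fun hh => hd ((disj_iff hR hR').1 hh).1
        simp only [this, hd, if_false, false_and]
        ring
    · rw [hz' R' hR']
      simp
  · rw [hz R hR]
    simp

lemma DD_succ {T : ℕ} (h : A.NRc T) (h' : A'.NRc T) {t : ℕ} (ht : t < T) (u u' : Fin N → ℂ) :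
    DD A A' u u' (t + 1) = (A.W t ⊗ₖ A'.W t) *ᵥ
      (fun q => (mon u (A.os q.1) * mon u' (A'.os q.2))
        * (DD A A' u u' t q - KK A A' u u' t q)) := by
  classical
  have hf : (fun q : B × B => (mon u (A.os q.1) * mon u' (A'.os q.2))
        * (DD A A' u u' t q - KK A A' u u' t q))
      = fun q => ∑ S, ∑ S', (if Disjoint S S' then mon u S * mon u' S' *
        ((if A.os q.1 ⊆ S then A.co t (S \ A.os q.1) q.1 else 0)
          * (if A'.os q.2 ⊆ S' then A'.co t (S' \ A'.os q.2) q.2 else 0)) else 0) := by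
    funext q
    rw [inner_step h h' ht u u' q]
  rw [hf]
  funext p
  unfold DD ds
  have e : ((A.W t ⊗ₖ A'.W t) *ᵥ (fun q => ∑ S, ∑ S', (if Disjoint S S' then mon u S * mon u' S' *
        ((if A.os q.1 ⊆ S then A.co t (S \ A.os q.1) q.1 else 0)
          * (if A'.os q.2 ⊆ S' then A'.co t (S' \ A'.os q.2) q.2 else 0)) else 0))) p
      = ∑ S, ∑ S', (if Disjoint S S' then mon u S * mon u' S' *
        (((A.W t ⊗ₖ A'.W t) *ᵥ (fun q => (if A.os q.1 ⊆ S then A.co t (S \ A.os q.1) q.1 else 0)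
          * (if A'.os q.2 ⊆ S' then A'.co t (S' \ A'.os q.2) q.2 else 0))) p) else 0) := by
    simp only [mulVec, dotProduct]
    simp_rw [Finset.mul_sum]
    rw [Finset.sum_comm]
    refine Finset.sum_congr rfl fun S _ => ?_
    rw [Finset.sum_comm]
    refine Finset.sum_congr rfl fun S' _ => ?_
    by_cases hd : Disjoint S S'
    · simp only [hd, if_true]
      refine Finset.sum_congr rfl fun q _ => ?_
      ring
    · simp only [hd, if_false, mul_zero, Finset.sum_const_zero]
  rw [e]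
  refine Finset.sum_congr rfl fun S _ => Finset.sum_congr rfl fun S' _ => ?_
  have hk := kron_prod (A.W t) (A'.W t) (fun b => if A.os b ⊆ S then A.co t (S \ A.os b) b else 0)
    (fun b => if A'.os b ⊆ S' then A'.co t (S' \ A'.os b) b else 0) p
  rw [hk]
  by_cases hd : Disjoint S S'
  · simp only [hd, if_true]
    rfl
  · simp only [hd, if_false]

lemma RR_succ {T : ℕ} (h : A.NRc T) (h' : A'.NRc T) {t : ℕ} (ht : t < T) (u u' : Fin N → ℂ) :
    RR A A' u u' (t + 1) = (A.W t ⊗ₖ A'.W t) *ᵥ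
      (fun q => (mon u (A.os q.1) * mon u' (A'.os q.2))
        * (RR A A' u u' t q + KK A A' u u' t q)) := by
  have e : RR A A' u u' (t + 1) = X A A' u u' (t + 1) - DD A A' u u' (t + 1) := rfl
  rw [e, X_succ, DD_succ h h' ht, ← mulVec_sub]
  congr 1
  funext q
  simp only [Pi.sub_apply, RR]
  ring

lemma RR_zero (u u' : Fin N → ℂ) (p : B × B) : RR A A' u u' 0 p = 0 := by
  classical
  unfold RR X DD ds
  rw [Finset.sum_eq_single ∅, Finset.sum_eq_single ∅]
  · simp [mon, Alg.co_zero, Alg.st_zero]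
  · intro S' _ hS'
    simp [Alg.co_zero, hS']
  · intro h; exact absurd (Finset.mem_univ _) h
  · intro S _ hS
    refine Finset.sum_eq_zero fun S' _ => ?_
    simp [Alg.co_zero, hS]
  · intro h; exact absurd (Finset.mem_univ _) h

/-- The remaining part is controlled by the parts lost. -/
lemma RR_le {T : ℕ} (h : A.NRc T) (h' : A'.NRc T) {u u' : Fin N → ℂ} (hu : ∀ i, ‖u i‖ = 1)
    (hu' : ∀ i, ‖u' i‖ = 1) :
    ∀ t ≤ T, nsq (RR A A' u u' t) ≤ t * ∑ s ∈ Finset.range t, nsq (KK A A' u u' s) := by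
  intro t
  induction t with
  | zero =>
    intro _
    unfold nsq
    simp [RR_zero]
  | succ t ih =>
    intro ht
    have e : nsq (RR A A' u u' (t + 1))
        = nsq (fun q => RR A A' u u' t q + KK A A' u u' t q) := by
      rw [RR_succ h h' (show t < T by omega), nsq_unitary _ (kron_isom _ _ (A.hW t) (A'.hW t)),
        nsq_phase]
      intro q
      rw [norm_mul, norm_mon hu, norm_mon hu', one_mul]
    rw [e, Finset.sum_range_succ]
    rcases Nat.eq_zero_or_pos t with h0 | h0
    · subst h0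
      have : (fun q => RR A A' u u' 0 q + KK A A' u u' 0 q) = KK A A' u u' 0 := by
        funext q
        rw [RR_zero, zero_add]
      rw [this]
      simp
    · have hc : (0 : ℝ) < t := by exact_mod_cast h0
      have h1 := nsq_add_le (RR A A' u u' t) (KK A A' u u' t) t hc
      have h2 := ih (by omega)
      have h3 : (1 + 1 / (t : ℝ)) * nsq (RR A A' u u' t)
          ≤ (1 + 1 / (t : ℝ)) * (t * ∑ s ∈ Finset.range t, nsq (KK A A' u u' s)) := by
        gcongr
      have h4 : (1 + 1 / (t : ℝ)) * (t * ∑ s ∈ Finset.range t, nsq (KK A A' u u' s))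
          = (t + 1) * ∑ s ∈ Finset.range t, nsq (KK A A' u u' s) := by
        field_simp
      push_cast
      linarith

end Two

end Pool.Agent.TH334.NR
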