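import Pool.Agent.TH334.NR.SG3
import Pool.Agent.TH334.NR.Light

/-!
# Degrees, backward vectors, and the variance of a light algorithm
-/

set_option autoImplicit false

namespace Pool.Agent.TH334.NR

open Finset Matrix Pool.Agent.H572R2

variable {N : ℕ} {B : Type} [Fintype B] [DecidableEq B]

/-- Complex functions of degree at most `D` on the cube. -/
def PD (D : ℕ) (F : (Fin N → Bool) → ℂ) : Prop :=
  ∃ a : Finset (Fin N) → ℂ, (∀ R, D < R.card → a R = 0) ∧ ∀ x, F x = gv a (sg x)

lemma PD.mono {D D' : ℕ} (h : D ≤ D') {F : (Fin N → Bool) → ℂ} (hF : PD D F) : PD D' F := by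
  obtain ⟨a, h1, h2⟩ := hF
  exact ⟨a, fun R hR => h1 R (by omega), h2⟩

lemma PD.const (D : ℕ) (c : ℂ) : PD D (fun _ : Fin N → Bool => c) := by
  refine ⟨fun R => if R = ∅ then c else 0, fun R hR => ?_, fun x => ?_⟩
  · show (if R = ∅ then c else 0) = 0
    rw [if_neg]
    rintro rfl
    simp at hR
  · unfold gv
    rw [Finset.sum_eq_single ∅]
    · simp [mon]
    · intro R _ hR
      simp [hR]
    · intro h; exact absurd (Finset.mem_univ _) h

lemma PD.sum {ι : Type*} {D : ℕ} (s : Finset ι) {F : ι → (Fin N → Bool) → ℂ}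
    (hF : ∀ i ∈ s, PD D (F i)) : PD D (fun x => ∑ i ∈ s, F i x) := by
  classical
  induction s using Finset.induction_on with
  | empty => simpa using PD.const D 0
  | insert i s hi ih =>
    obtain ⟨a, h1, h2⟩ := hF i (Finset.mem_insert_self i s)
    obtain ⟨b, h3, h4⟩ := ih fun k hk => hF k (Finset.mem_insert_of_mem hk)
    refine ⟨fun R => a R + b R, fun R hR => by simp only [h1 R hR, h3 R hR, add_zero],
      fun x => ?_⟩
    show ∑ i ∈ insert i s, F i x = _
    have h5 : ∑ i ∈ s, F i x = gv b (sg x) := h4 x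
    rw [Finset.sum_insert hi, h2, h5]
    unfold gv
    rw [← Finset.sum_add_distrib]
    refine Finset.sum_congr rfl fun R _ => ?_
    ring

lemma PD.smul {D : ℕ} (c : ℂ) {F : (Fin N → Bool) → ℂ} (hF : PD D F) :
    PD D (fun x => c * F x) := by
  obtain ⟨a, h1, h2⟩ := hF
  refine ⟨fun R => c * a R, fun R hR => by simp only [h1 R hR, mul_zero], fun x => ?_⟩
  show c * F x = _
  rw [h2]
  unfold gv
  rw [Finset.mul_sum]
  refine Finset.sum_congr rfl fun R _ => ?_
  ring

lemma sg_mul_mon (x : Fin N → Bool) (j : Fin N) (R : Finset (Fin N)) :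
    sg x j * mon (sg x) R = mon (sg x) (if j ∈ R then R.erase j else insert j R) := by
  unfold mon
  split_ifs with h
  · rw [← Finset.mul_prod_erase R _ h, ← mul_assoc, sg_sq, one_mul]
  · rw [Finset.prod_insert h]

lemma PD.sgn {D : ℕ} (j : Fin N) {F : (Fin N → Bool) → ℂ} (hF : PD D F) :
    PD (D + 1) (fun x => sg x j * F x) := by
  obtain ⟨a, h1, h2⟩ := hF
  have hinv : Function.Involutive
      (fun R : Finset (Fin N) => if j ∈ R then R.erase j else insert j R) := by
    intro R
    by_cases h : j ∈ R
    · simp [h]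
    · simp [h]
  refine ⟨fun R => a (if j ∈ R then R.erase j else insert j R), fun R hR => ?_, fun x => ?_⟩
  · apply h1
    split_ifs with h
    · rw [Finset.card_erase_of_mem h]; omega
    · rw [Finset.card_insert_of_notMem h]; omega
  · show sg x j * F x = _
    rw [h2]
    unfold gv
    rw [Finset.mul_sum]
    rw [← Equiv.sum_comp hinv.toPerm]
    refine Finset.sum_congr rfl fun R _ => ?_
    show sg x j * (mon (sg x) (if j ∈ R then R.erase j else insert j R)
      * a (if j ∈ R then R.erase j else insert j R)) = _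
    rw [← mul_assoc, sg_mul_mon]
    congr 2
    exact hinv R

omit [DecidableEq B] in
lemma PD.mulVec {D : ℕ} (M : Matrix B B ℂ) {F : (Fin N → Bool) → B → ℂ}
    (hF : ∀ b, PD D (fun x => F x b)) (b : B) : PD D (fun x => (M *ᵥ F x) b) := by
  have : (fun x => (M *ᵥ F x) b) = fun x => ∑ c, M b c * F x c := by
    funext x; rfl
  rw [this]
  exact PD.sum _ fun c _ => (hF c).smul _

namespace Alg

variable (A : Alg N B)

lemma PD_os {D : ℕ} (b : B) {F : (Fin N → Bool) → ℂ} (hF : PD D F) :
    PD (D + 1) (fun x => mon (sg x) (A.os b) * F x) := by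
  unfold os
  cases hb : A.pos b with
  | none =>
    have : (fun x => mon (sg x) (none : Option (Fin N)).toFinset * F x) = F := by
      funext x; simp [mon]
    rw [this]
    exact hF.mono (by omega)
  | some j =>
    have : (fun x => mon (sg x) (some j : Option (Fin N)).toFinset * F x)
        = fun x => sg x j * F x := by
      funext x; simp [mon]
    rw [this]
    exact hF.sgn j

lemma PD_st (t : ℕ) (b : B) : PD t (fun x => A.st (sg x) t b) := by
  induction t generalizing b with
  | zero => exact PD.const 0 _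
  | succ t ih =>
    exact PD.mulVec (A.W t) (F := fun x b => mon (sg x) (A.os b) * A.st (sg x) t b)
      (fun c => A.PD_os c (ih c)) b

/-- Backward vectors, with their degrees. -/
lemma backP : ∀ (t D : ℕ) (v : (Fin N → Bool) → B → ℂ), (∀ b, PD D (fun x => v x b)) →
    ∃ w : ℕ → (Fin N → Bool) → B → ℂ,
    (∀ u x, nsq (w u x) = nsq (v x)) ∧ (∀ u b, PD (D + t) (fun x => w u x b)) ∧
    ∀ x i, ip (v x) (fun s => A.st (sg x) t s - A.st (sg (flp i x)) t s)
      = 2 * ∑ u ∈ Finset.range t,
          ∑ s, (if i ∈ A.os s then star (w u x s) * A.st (sg (flp i x)) u s else 0) := by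
  intro t
  induction t with
  | zero =>
    intro D v hv
    refine ⟨fun _ => v, fun _ _ => rfl, fun _ b => hv b, fun x i => ?_⟩
    simp [ip, st_zero]
  | succ t ih =>
    intro D v hv
    set v' : (Fin N → Bool) → B → ℂ :=
      fun x s => mon (sg x) (A.os s) * ((A.W t)ᴴ *ᵥ v x) s with hv'
    obtain ⟨w, hw1, hwd, hw2⟩ := ih (D + 1) v' fun b =>
      A.PD_os b (PD.mulVec (A.W t)ᴴ (F := v) hv b)
    have hn : ∀ x, nsq (v' x) = nsq (v x) := by
      intro x
      have h1 : nsq (v' x) = nsq ((A.W t)ᴴ *ᵥ v x) :=
        nsq_phase _ _ fun s => norm_mon (norm_sg x) _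
      rw [h1, nsq_unitary]
      rw [conjTranspose_conjTranspose]
      exact mul_eq_one_comm.1 (A.hW t)
    refine ⟨fun u => if u = t then v' else w u, fun u x => ?_, fun u b => ?_, fun x i => ?_⟩
    · by_cases hu : u = t
      · simp only [hu, if_true]
        exact hn x
      · simp only [hu, if_false]
        rw [hw1, hn]
    · have e : D + 1 + t = D + (t + 1) := by ring
      rw [← e]
      by_cases hu : u = t
      · simp only [hu, if_true]
        exact (A.PD_os b (PD.mulVec (A.W t)ᴴ (F := v) hv b)).mono (by omega)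
      · simp only [hu, if_false]
        exact hwd u b
    · have h1 : (fun s => A.st (sg x) (t + 1) s - A.st (sg (flp i x)) (t + 1) s)
          = A.W t *ᵥ (fun s => mon (sg x) (A.os s) * ((A.st (sg x) t s - A.st (sg (flp i x)) t s)
              + if i ∈ A.os s then 2 * A.st (sg (flp i x)) t s else 0)) := by
        have h2 : (fun s => mon (sg x) (A.os s) * ((A.st (sg x) t s - A.st (sg (flp i x)) t s)
              + if i ∈ A.os s then 2 * A.st (sg (flp i x)) t s else 0))
            = (fun s => mon (sg x) (A.os s) * A.st (sg x) t s)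
              - (fun s => mon (sg (flp i x)) (A.os s) * A.st (sg (flp i x)) t s) := by
          funext s
          simp only [Pi.sub_apply]
          rw [mon_flp]
          split_ifs <;> ring
        rw [h2, mulVec_sub, ← st_succ, ← st_succ]
        rfl
      rw [h1, ip_mulVec]
      have h3 : ip ((A.W t)ᴴ *ᵥ v x) (fun s => mon (sg x) (A.os s)
            * ((A.st (sg x) t s - A.st (sg (flp i x)) t s)
              + if i ∈ A.os s then 2 * A.st (sg (flp i x)) t s else 0))
          = ip (v' x) (fun s => A.st (sg x) t s - A.st (sg (flp i x)) t s)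
            + 2 * ∑ s, (if i ∈ A.os s then star (v' x s) * A.st (sg (flp i x)) t s else 0) := by
        unfold ip
        rw [Finset.mul_sum, ← Finset.sum_add_distrib]
        apply Finset.sum_congr rfl
        intro s _
        have h4 : star (v' x s) = mon (sg x) (A.os s) * star (((A.W t)ᴴ *ᵥ v x) s) := by
          rw [hv']
          simp only
          rw [star_mul']
          congr 1
          unfold mon
          rw [star_prod]
          exact Finset.prod_congr rfl fun i _ => sg_star x i
        rw [h4]
        by_cases hi : i ∈ A.os s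
        · simp only [hi, if_true]; ring
        · simp only [hi, if_false]; ring
      rw [h3, hw2 x i, Finset.sum_range_succ, mul_add]
      congr 1
      · congr 1
        apply Finset.sum_congr rfl
        intro u hu
        have : u ≠ t := (Finset.mem_range.1 hu).ne
        simp [this]
      · simp

/-- Multiplication bound for functions of low degree. -/
lemma multP {T : ℕ} (h : A.NRc T) (τ : ℝ) (hτ0 : 0 ≤ τ) (hτ : ∀ t < T, ∀ j, A.pm t j ≤ τ)
    (D : ℕ) {F : (Fin N → Bool) → ℂ} (hF : PD D F) {t : ℕ} (ht : t < T) (j : Fin N) :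
    EE (fun x => ‖F x‖ ^ 2 * A.qm (sg x) t j)
      ≤ 4 * (1 + (t : ℝ) ^ 2 * D) ^ 2 * τ * EE (fun x => ‖F x‖ ^ 2) := by
  obtain ⟨a, h1, h2⟩ := hF
  simp_rw [h2]
  exact mult A a h τ hτ0 hτ D h1 ht j

end Alg

end Pool.Agent.TH334.NR
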