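import Pool.Agent.TH334.NR.KK2

/-!
# Few heavy queries
-/

set_option autoImplicit false

namespace Pool.Agent.TH334.NR

open Finset Matrix Pool.Agent.H572R2
open scoped Kronecker

variable {N : ℕ} {B : Type} [Fintype B] [DecidableEq B] (A : Alg N B)

/-- The mass of a record. -/
noncomputable def wr (t : ℕ) (p : B × B) (γ : Fin N → Fin 3) : ℝ :=
  ‖∑ P with rk P = γ, A.co t P.1 p.1 * A.co t P.2 p.2‖ ^ 2

lemma wr_nonneg (t : ℕ) (p : B × B) (γ : Fin N → Fin 3) : 0 ≤ wr A t p γ := by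
  unfold wr; positivity

lemma wr_ru (t : ℕ) (p : B × B) (U : Finset (Fin N)) : wr A t p (ru U) = ‖Ec A t U p‖ ^ 2 := by
  unfold wr Ec
  rw [fib_ru U (fun P => A.co t P.1 p.1 * A.co t P.2 p.2)]

lemma X_pars {T : ℕ} (h : A.NRc T) {t : ℕ} (ht : t ≤ T) (p : B × B) :
    E3 (fun z => ‖X A A (te z) (te z) t p‖ ^ 2) = ∑ γ, wr A t p γ := by
  unfold wr
  rw [← pars_k (fun P => A.co t P.1 p.1 * A.co t P.2 p.2)]
  apply E3_congr
  intro z
  congr 2
  unfold X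
  rw [A.expand h _ t ht, A.expand h _ t ht, Finset.sum_mul_sum, Fintype.sum_prod_type]
  refine Finset.sum_congr rfl fun S _ => Finset.sum_congr rfl fun S' _ => ?_
  ring

lemma one_sub_nE {T : ℕ} (h : A.NRc T) {t : ℕ} (ht : t ≤ T) :
    1 - nE A t ≤ ∑ j, E3 (fun z => (nsq (Pj A (te z) t j)) ^ 2) := by
  have h1 : (1 : ℝ) = ∑ p : B × B, ∑ γ, wr A t p γ := by
    rw [← Finset.sum_congr rfl fun p _ => X_pars A h ht p, ← E3_sum, ← E3_const (N := N) 1]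
    apply E3_congr
    intro z
    exact (nsq_X A (norm_te z) (norm_te z) t).symm
  have h2 : ∑ p : B × B, ∑ γ, wr A t p γ
      ≤ ∑ p : B × B, (∑ U, wr A t p (ru U) + ∑ j, ∑ γ, (if γ j = 2 then wr A t p γ else 0)) :=
    Finset.sum_le_sum fun p _ => records_le _ (wr_nonneg A t p)
  rw [Finset.sum_add_distrib] at h2
  have h3 : ∑ p : B × B, ∑ U, wr A t p (ru U) = nE A t := by
    unfold nE
    exact Finset.sum_congr rfl fun p _ => Finset.sum_congr rfl fun U _ => wr_ru A t p U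
  have h4 : ∑ p : B × B, ∑ j, ∑ γ, (if γ j = 2 then wr A t p γ else 0)
      ≤ ∑ j, E3 (fun z => (nsq (Pj A (te z) t j)) ^ 2) := by
    rw [Finset.sum_comm]
    refine Finset.sum_le_sum fun j _ => ?_
    have e : E3 (fun z => (nsq (Pj A (te z) t j)) ^ 2)
        = ∑ p : B × B, E3 (fun z => ‖Pj A (te z) t j p.1 * Pj A (te z) t j p.2‖ ^ 2) := by
      rw [← E3_sum]
      apply E3_congr
      intro z
      unfold nsq
      rw [pow_two, Finset.sum_mul_sum, Fintype.sum_prod_type]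
      refine Finset.sum_congr rfl fun b _ => Finset.sum_congr rfl fun c _ => ?_
      rw [norm_mul, mul_pow]
    rw [e]
    exact Finset.sum_le_sum fun p _ => two_le A t p j
  rw [h3] at h2
  linarith

lemma DDC_le {T : ℕ} (h : A.NRc T) {t : ℕ} (ht : t ≤ T) :
    EE (fun x => nsqC A (DD A A (sg x) (sg x) t))
      ≤ E3 (fun z => ∑ j, (A.qm (te z) t j) ^ 2) := by
  rw [EE_DDC]
  have h1 : E3 (fun z => ∑ j, (A.qm (te z) t j) ^ 2)
      = ∑ p : B × B, cw A p * ∑ γ, wr A t p γ := by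
    have e : E3 (fun z => ∑ j, (A.qm (te z) t j) ^ 2)
        = E3 (fun z => nsqC A (X A A (te z) (te z) t)) := by
      apply E3_congr
      intro z
      exact (nsqC_X A A (te z) (te z) t fun b => rfl).symm
    rw [e]
    unfold nsqC
    rw [E3_sum]
    refine Finset.sum_congr rfl fun p _ => ?_
    rw [E3_mul, X_pars A h ht]
  rw [h1]
  refine Finset.sum_le_sum fun p _ => ?_
  have h2 : ∑ U, ‖Ec A t U p‖ ^ 2 ≤ ∑ γ, wr A t p γ := by
    rw [← Finset.sum_congr rfl fun U _ => wr_ru A t p U]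
    exact le_records _ (wr_nonneg A t p)
  exact mul_le_mul_of_nonneg_left h2 (cw_nonneg A p)

lemma cube_bound {T t : ℕ} (ht : t < T) : (2 + 2 * (t : ℝ) ^ 3) ≤ 2 * (T : ℝ) ^ 3 := by
  have h1 : ((t : ℝ) + 1) ≤ T := by exact_mod_cast ht
  have h0 : (0 : ℝ) ≤ t := Nat.cast_nonneg t
  have h2 : ((t : ℝ) + 1) ^ 3 ≤ (T : ℝ) ^ 3 := pow_le_pow_left₀ (by linarith) h1 3
  nlinarith [mul_nonneg h0 h0]

/-- The mass of the pairs with an overlap, with cube root phases. -/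
lemma overlap_le {T : ℕ} (h : A.NRc T) (τ : ℝ) (hτ0 : 0 ≤ τ) (hτ : ∀ t < T, ∀ j, A.pm t j ≤ τ)
    {t : ℕ} (ht : t ≤ T) : 1 - nE A t ≤ 2 * (T : ℝ) ^ 5 * τ := by
  refine (one_sub_nE A h ht).trans ?_
  have h1 : ∀ j, E3 (fun z => (nsq (Pj A (te z) t j)) ^ 2)
      ≤ t * ∑ s ∈ Finset.range t, E3 (fun z => (A.qm (te z) s j) ^ 2) := by
    intro j
    rw [← E3_sum, ← E3_mul]
    apply E3_mono
    intro z
    rw [nsq_Pj A h (norm_te z) j t ht]
    have := sq_sum_le_card_mul_sum_sq (s := Finset.range t) (f := fun s => A.qm (te z) s j)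
    rwa [Finset.card_range] at this
  have h2 := Finset.sum_le_sum fun j (_ : j ∈ Finset.univ) => h1 j
  rw [← Finset.mul_sum, Finset.sum_comm] at h2
  have h3 : ∑ s ∈ Finset.range t, ∑ j, E3 (fun z => (A.qm (te z) s j) ^ 2)
      ≤ ∑ s ∈ Finset.range t, 2 * (T : ℝ) ^ 3 * τ := by
    refine Finset.sum_le_sum fun s hs => ?_
    have hs' : s < T := by have := Finset.mem_range.1 hs; omega
    rw [← E3_sum]
    refine (A.YC h τ hτ0 hτ hs').trans ?_
    have := cube_bound hs'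
    gcongr
  rw [Finset.sum_const, Finset.card_range, nsmul_eq_mul] at h3
  have h0 : (0 : ℝ) ≤ t := Nat.cast_nonneg t
  have hT : (t : ℝ) ≤ T := by exact_mod_cast ht
  calc ∑ j, E3 (fun z => (nsq (Pj A (te z) t j)) ^ 2)
      ≤ t * ∑ s ∈ Finset.range t, ∑ j, E3 (fun z => (A.qm (te z) s j) ^ 2) := h2
    _ ≤ t * (t * (2 * (T : ℝ) ^ 3 * τ)) := by gcongr
    _ ≤ T * (T * (2 * (T : ℝ) ^ 3 * τ)) := by gcongr
    _ = _ := by ring

/-- Few heavy queries: the second moments of the query magnitudes are small. -/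
theorem few_heavy {T : ℕ} (h : A.NRc T) (τ : ℝ) (hτ0 : 0 ≤ τ) (hτ : ∀ t < T, ∀ j, A.pm t j ≤ τ)
    {t : ℕ} (ht : t < T) :
    EE (fun x => ∑ j, (A.qm (sg x) t j) ^ 2) ≤ 8 * (T : ℝ) ^ 6 * τ := by
  have h1 : EE (fun x => ∑ j, (A.qm (sg x) t j) ^ 2)
      ≤ EE (fun x => 2 * nsqC A (DD A A (sg x) (sg x) t)
        + 2 * (t * ∑ s ∈ Finset.range t, nsq (KK A A (sg x) (sg x) s))) := by
    apply EE_mono
    intro x
    have e1 := nsqC_X A A (sg x) (sg x) t fun b => rfl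
    have e2 := nsqC_split A A (sg x) (sg x) t
    have e3 := RR_le h h (norm_sg x) (norm_sg x) t ht.le
    rw [← e1]
    linarith
  rw [EE_add, EE_mul, EE_mul, EE_mul, EE_sum (Finset.range t)
    (fun s x => nsq (KK A A (sg x) (sg x) s)), sum_KK A h t ht.le] at h1
  have h2 := DDC_le A h ht.le
  have h3 := A.YC h τ hτ0 hτ ht
  have h4 := cube_bound ht
  have h5 := overlap_le A h τ hτ0 hτ ht.le
  have h6 : (2 + 2 * (t : ℝ) ^ 3) * τ ≤ 2 * (T : ℝ) ^ 3 * τ := by gcongr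
  have hT1 : (1 : ℝ) ≤ T := by exact_mod_cast (show 1 ≤ T by omega)
  have htT : (t : ℝ) ≤ T := by exact_mod_cast ht.le
  have h0 : (0 : ℝ) ≤ t := Nat.cast_nonneg t
  have h7 : (t : ℝ) * (1 - nE A t) ≤ T * (2 * (T : ℝ) ^ 5 * τ) := by
    calc (t : ℝ) * (1 - nE A t) ≤ t * (2 * (T : ℝ) ^ 5 * τ) := by gcongr
      _ ≤ _ := by gcongr
  have h8 : (T : ℝ) ^ 3 * τ ≤ (T : ℝ) ^ 6 * τ := by
    have : (T : ℝ) ^ 3 ≤ (T : ℝ) ^ 6 := pow_le_pow_right₀ hT1 (by norm_num)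
    gcongr
  calc EE (fun x => ∑ j, (A.qm (sg x) t j) ^ 2)
      ≤ 2 * EE (fun x => nsqC A (DD A A (sg x) (sg x) t)) + 2 * (t * (1 - nE A t)) := h1
    _ ≤ 2 * (2 * (T : ℝ) ^ 3 * τ) + 2 * (T * (2 * (T : ℝ) ^ 5 * τ)) := by linarith
    _ = 4 * ((T : ℝ) ^ 3 * τ) + 4 * ((T : ℝ) ^ 6 * τ) := by ring
    _ ≤ 4 * ((T : ℝ) ^ 6 * τ) + 4 * ((T : ℝ) ^ 6 * τ) := by linarith
    _ = _ := by ring

end Pool.Agent.TH334.NR
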