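import Pool.Agent.TH334.NR.KK2

/-!
# A low degree function times a run: the part without collisions
-/

set_option autoImplicit false

namespace Pool.Agent.TH334.NR

open Finset Matrix Pool.Agent.H572R2

variable {N : ℕ} {B : Type} [Fintype B] [DecidableEq B]

/-- The function with coefficients `a`, at the phases `u`. -/
noncomputable def gv (a : Finset (Fin N) → ℂ) (u : Fin N → ℂ) : ℂ := ∑ R, mon u R * a R

/-- Total mass of the coefficients. -/
noncomputable def ns (a : Finset (Fin N) → ℂ) : ℝ := ∑ R, ‖a R‖ ^ 2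

lemma ns_nonneg (a : Finset (Fin N) → ℂ) : 0 ≤ ns a := Finset.sum_nonneg fun _ _ => by positivity

section One

variable (A : Alg N B) (a : Finset (Fin N) → ℂ)

open Classical in
/-- A restricted double sum of coefficients. -/
noncomputable def dsg (Q : Finset (Fin N) → Finset (Fin N) → Prop) (w u : Fin N → ℂ) (t : ℕ)
    (b : B) : ℂ :=
  ∑ R, ∑ S, if Q R S then mon w R * mon u S * (a R * A.co t S b) else 0

/-- The part with disjoint sets. -/
noncomputable def DDg (w u : Fin N → ℂ) (t : ℕ) (b : B) : ℂ :=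
  dsg A a (fun R S => Disjoint R S) w u t b

/-- The part of `DDg` about to collide. -/
noncomputable def KKg (w u : Fin N → ℂ) (t : ℕ) (b : B) : ℂ :=
  dsg A a (fun R S => Disjoint R S ∧ ¬ Disjoint (A.os b) (R ∪ S)) w u t b

/-- The remaining part. -/
noncomputable def RRg (w u : Fin N → ℂ) (t : ℕ) (b : B) : ℂ :=
  gv a w * A.st u t b - DDg A a w u t b

variable {A a}

open Classical in
/-- One step of the part with disjoint sets: inner identity. -/
lemma inner_stepg {T : ℕ} (h : A.NRc T) {t : ℕ} (ht : t < T) (w u : Fin N → ℂ) (b : B) :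
    ∑ R, ∑ S, (if Disjoint R S then mon w R * mon u S *
        (a R * (if A.os b ⊆ S then A.co t (S \ A.os b) b else 0)) else 0)
      = mon u (A.os b) * (DDg A a w u t b - KKg A a w u t b) := by
  set o := A.os b with ho
  have hz : ∀ S, ¬ Disjoint o S → A.co t S b = 0 := h t ht b
  have e1 : ∀ R, ∑ S, (if Disjoint R S then mon w R * mon u S *
        (a R * (if o ⊆ S then A.co t (S \ o) b else 0)) else 0)
      = ∑ S, (if Disjoint R (o ∪ S) then mon w R * mon u (o ∪ S) * a R else 0)
          * A.co t S b := by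
    intro R
    have := reidx o (fun S => (if Disjoint R S then mon w R * mon u S * a R else 0))
      (fun S => A.co t S b) hz
    refine Eq.trans ?_ this
    refine Finset.sum_congr rfl fun S _ => ?_
    by_cases hd : Disjoint R S
    · simp only [hd, if_true]; ring
    · simp only [hd, if_false]; ring
  rw [Finset.sum_congr rfl fun R _ => e1 R]
  unfold DDg KKg dsg
  rw [← Finset.sum_sub_distrib, Finset.mul_sum]
  refine Finset.sum_congr rfl fun R _ => ?_
  rw [← Finset.sum_sub_distrib, Finset.mul_sum]
  refine Finset.sum_congr rfl fun S _ => ?_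
  rw [← ho]
  by_cases hS : Disjoint o S
  · rw [mon_union u hS]
    by_cases hd : Disjoint R S
    · by_cases hk : Disjoint o R
      · have h1 : Disjoint R (o ∪ S) := by
          rw [Finset.disjoint_union_right]; exact ⟨hk.symm, hd⟩
        have h2 : ¬ (Disjoint R S ∧ ¬ Disjoint o (R ∪ S)) := by
          rintro ⟨_, h3⟩
          exact h3 (by rw [Finset.disjoint_union_right]; exact ⟨hk, hS⟩)
        rw [if_pos h1, if_pos hd, if_neg h2]
        ring
      · have h1 : ¬ Disjoint R (o ∪ S) := by
          rw [Finset.disjoint_union_right]; exact fun hh => hk hh.1.symm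
        have h2 : Disjoint R S ∧ ¬ Disjoint o (R ∪ S) :=
          ⟨hd, fun hh => hk (Finset.disjoint_union_right.1 hh).1⟩
        rw [if_neg h1, if_pos hd, if_pos h2]
        ring
    · have h1 : ¬ Disjoint R (o ∪ S) := by
        rw [Finset.disjoint_union_right]; exact fun hh => hd hh.2
      have h2 : ¬ (Disjoint R S ∧ ¬ Disjoint o (R ∪ S)) := fun hh => hd hh.1
      rw [if_neg h1, if_neg hd, if_neg h2]
      ring
  · rw [hz S hS]
    simp

lemma DDg_succ {T : ℕ} (h : A.NRc T) {t : ℕ} (ht : t < T) (w u : Fin N → ℂ) :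
    DDg A a w u (t + 1) = A.W t *ᵥ
      (fun b => mon u (A.os b) * (DDg A a w u t b - KKg A a w u t b)) := by
  classical
  have hf : (fun b : B => mon u (A.os b) * (DDg A a w u t b - KKg A a w u t b))
      = fun b => ∑ R, ∑ S, (if Disjoint R S then mon w R * mon u S *
        (a R * (if A.os b ⊆ S then A.co t (S \ A.os b) b else 0)) else 0) := by
    funext b
    rw [inner_stepg h ht w u b]
  rw [hf]
  funext p
  unfold DDg dsg
  simp only [Alg.co_succ, mulVec, dotProduct]
  simp_rw [Finset.mul_sum]
  conv_rhs => rw [Finset.sum_comm]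
  refine Finset.sum_congr rfl fun R _ => ?_
  conv_rhs => rw [Finset.sum_comm]
  refine Finset.sum_congr rfl fun S _ => ?_
  by_cases hd : Disjoint R S
  · simp only [hd, if_true]
    refine Finset.sum_congr rfl fun q _ => ?_
    ring
  · simp only [hd, if_false, mul_zero, Finset.sum_const_zero]

lemma RRg_succ {T : ℕ} (h : A.NRc T) {t : ℕ} (ht : t < T) (w u : Fin N → ℂ) :
    RRg A a w u (t + 1) = A.W t *ᵥ
      (fun b => mon u (A.os b) * (RRg A a w u t b + KKg A a w u t b)) := by
  have e : RRg A a w u (t + 1)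
      = (fun b => gv a w * A.st u (t + 1) b) - DDg A a w u (t + 1) := rfl
  have e2 : (fun b => gv a w * A.st u (t + 1) b)
      = A.W t *ᵥ (fun b => mon u (A.os b) * (gv a w * A.st u t b)) := by
    funext b
    rw [Alg.st_succ]
    simp only [mulVec, dotProduct]
    rw [Finset.mul_sum]
    refine Finset.sum_congr rfl fun c _ => ?_
    ring
  rw [e, e2, DDg_succ h ht, ← mulVec_sub]
  congr 1
  funext q
  simp only [Pi.sub_apply, RRg]
  ring

lemma RRg_zero (w u : Fin N → ℂ) (b : B) : RRg A a w u 0 b = 0 := by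
  classical
  unfold RRg DDg dsg gv
  rw [Finset.sum_mul, ← Finset.sum_sub_distrib]
  refine Finset.sum_eq_zero fun R _ => ?_
  rw [Finset.sum_eq_single ∅]
  · simp [mon, Alg.co_zero, Alg.st_zero]
    ring
  · intro S _ hS
    simp [Alg.co_zero, hS]
  · intro h; exact absurd (Finset.mem_univ _) h

/-- The remaining part is controlled by the parts lost. -/
lemma RRg_le {T : ℕ} (h : A.NRc T) {w u : Fin N → ℂ} (hu : ∀ i, ‖u i‖ = 1) :
    ∀ t ≤ T, nsq (RRg A a w u t) ≤ t * ∑ s ∈ Finset.range t, nsq (KKg A a w u s) := by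
  intro t
  induction t with
  | zero =>
    intro _
    unfold nsq
    simp [RRg_zero]
  | succ t ih =>
    intro ht
    have e : nsq (RRg A a w u (t + 1))
        = nsq (fun q => RRg A a w u t q + KKg A a w u t q) := by
      rw [RRg_succ h (show t < T by omega), nsq_unitary _ (A.hW t), nsq_phase]
      intro q
      exact norm_mon hu _
    rw [e, Finset.sum_range_succ]
    rcases Nat.eq_zero_or_pos t with h0 | h0
    · subst h0
      have : (fun q => RRg A a w u 0 q + KKg A a w u 0 q) = KKg A a w u 0 := by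
        funext q
        rw [RRg_zero, zero_add]
      rw [this]
      simp
    · have hc : (0 : ℝ) < t := by exact_mod_cast h0
      have h1 := nsq_add_le (RRg A a w u t) (KKg A a w u t) t hc
      have h2 := ih (by omega)
      have h3 : (1 + 1 / (t : ℝ)) * nsq (RRg A a w u t)
          ≤ (1 + 1 / (t : ℝ)) * (t * ∑ s ∈ Finset.range t, nsq (KKg A a w u s)) := by
        gcongr
      have h4 : (1 + 1 / (t : ℝ)) * (t * ∑ s ∈ Finset.range t, nsq (KKg A a w u s))
          = (t + 1) * ∑ s ∈ Finset.range t, nsq (KKg A a w u s) := by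
        field_simp
      push_cast
      linarith

end One

/-- Squared norm at the states about to query `j`. -/
noncomputable def nq (A : Alg N B) (j : Fin N) (F : B → ℂ) : ℝ :=
  ∑ b, if A.pos b = some j then ‖F b‖ ^ 2 else 0

lemma nq_nonneg (A : Alg N B) (j : Fin N) (F : B → ℂ) : 0 ≤ nq A j F :=
  Finset.sum_nonneg fun b _ => by split_ifs <;> positivity

lemma nq_st (A : Alg N B) (a : Finset (Fin N) → ℂ) (w u : Fin N → ℂ) (t : ℕ) (j : Fin N) :
    nq A j (fun b => gv a w * A.st u t b) = ‖gv a w‖ ^ 2 * A.qm u t j := by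
  unfold nq Alg.qm
  rw [Finset.mul_sum]
  refine Finset.sum_congr rfl fun b _ => ?_
  split_ifs
  · rw [norm_mul, mul_pow]
  · rw [mul_zero]

lemma nq_split (A : Alg N B) (a : Finset (Fin N) → ℂ) (w u : Fin N → ℂ) (t : ℕ) (j : Fin N) :
    ‖gv a w‖ ^ 2 * A.qm u t j ≤ 2 * nq A j (DDg A a w u t) + 2 * nsq (RRg A a w u t) := by
  rw [← nq_st]
  unfold nq nsq
  rw [Finset.mul_sum, Finset.mul_sum, ← Finset.sum_add_distrib]
  refine Finset.sum_le_sum fun b _ => ?_
  have h1 : gv a w * A.st u t b = DDg A a w u t b + RRg A a w u t b := by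
    unfold RRg; ring
  have h2 := norm_add_sq_le (DDg A a w u t b) (RRg A a w u t b) 1 one_pos
  show (if A.pos b = some j then ‖gv a w * A.st u t b‖ ^ 2 else 0) ≤ _
  rw [h1]
  have h5 : 0 ≤ ‖RRg A a w u t b‖ ^ 2 := by positivity
  split_ifs
  · linarith
  · linarith

end Pool.Agent.TH334.NR
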