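import Pool.Agent.TH334.NR.SG

/-!
# A low degree function times a run, with cube root phases (function and conjugate run)
-/

set_option autoImplicit false

namespace Pool.Agent.TH334.NR

open Finset Matrix Pool.Agent.H572R2

variable {N : ℕ} {B : Type} [Fintype B] [DecidableEq B]

open Classical in
/-- Isometry. -/
lemma dsg_b (A : Alg N B) (a : Finset (Fin N) → ℂ) (Q : Finset (Fin N) → Finset (Fin N) → Prop)
    (hQ : ∀ R S, Q R S → Disjoint R S) (t : ℕ) (b : B) :
    E3 (fun z => ‖dsg A a Q (fun i => star (te z i)) (te z) t b‖ ^ 2)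
      = ∑ R, ∑ S, if Q R S then ‖a R‖ ^ 2 * ‖A.co t S b‖ ^ 2 else 0 := by
  have h1 : ∀ z, dsg A a Q (fun i => star (te z i)) (te z) t b
      = ∑ P : Finset (Fin N) × Finset (Fin N), ch c3 (rb P) z *
        (if Q P.2 P.1 then a P.2 * A.co t P.1 b else 0) := by
    intro z
    unfold dsg
    rw [Fintype.sum_prod_type_right]
    refine Finset.sum_congr rfl fun R _ => Finset.sum_congr rfl fun S _ => ?_
    rw [← mon_te_b z (S, R)]
    split_ifs
    · ring
    · simp
  unfold E3
  simp_rw [h1]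
  rw [pars_fib orth3 (rb : Finset (Fin N) × Finset (Fin N) → Fin N → Fin 3)
    (fun P => if Q P.2 P.1 then a P.2 * A.co t P.1 b else 0),
    fib_inj rb _ (fun P => Disjoint P.1 P.2)
      (fun P hP => if_neg fun hh => hP (hQ _ _ hh).symm)
      (fun P P' hP hP' e => rb_inj P P' hP hP' e),
    Fintype.sum_prod_type_right]
  have h3 : (Fintype.card (Fin 3) : ℝ) = 3 := by simp
  rw [h3, mul_comm, mul_div_assoc, div_self (by positivity), mul_one]
  refine Finset.sum_congr rfl fun R _ => Finset.sum_congr rfl fun S _ => ?_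
  split_ifs
  · rw [norm_mul, mul_pow]
  · simp

namespace Alg

variable (A : Alg N B) (a : Finset (Fin N) → ℂ)

/-- The lost part. -/
lemma KKg_b {T : ℕ} (h : A.NRc T) (τ : ℝ) (hτ0 : 0 ≤ τ) (hτ : ∀ t < T, ∀ j, A.pm t j ≤ τ)
    (D : ℕ) (ha : ∀ R, D < R.card → a R = 0) {t : ℕ} (ht : t < T) :
    E3 (fun z => nsq (KKg A a (fun i => star (te z i)) (te z) t)) ≤ D * τ * ns a := by
  classical
  have h1 : E3 (fun z => nsq (KKg A a (fun i => star (te z i)) (te z) t))
      = ∑ b, ∑ R, ∑ S, (if Disjoint R S ∧ ¬ Disjoint (A.os b) (R ∪ S)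
        then ‖a R‖ ^ 2 * ‖A.co t S b‖ ^ 2 else 0) := by
    unfold nsq KKg
    rw [E3_sum]
    refine Finset.sum_congr rfl fun b _ => ?_
    rw [dsg_b A a _ (fun S S' hh => hh.1) t b]
    refine Finset.sum_congr rfl fun S _ => Finset.sum_congr rfl fun S' _ => ?_
    congr
  have h2 : ∀ b R S, (if Disjoint R S ∧ ¬ Disjoint (A.os b) (R ∪ S)
        then ‖a R‖ ^ 2 * ‖A.co t S b‖ ^ 2 else 0)
      ≤ ‖a R‖ ^ 2 * ∑ j ∈ R, (if A.pos b = some j then ‖A.co t S b‖ ^ 2 else 0) := by
    intro b R S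
    have hnn : ∀ j ∈ R, 0 ≤ (if A.pos b = some j then ‖A.co t S b‖ ^ 2 else 0) := by
      intro j _; split_ifs <;> positivity
    have hrhs : 0 ≤ ‖a R‖ ^ 2 * ∑ j ∈ R, (if A.pos b = some j then ‖A.co t S b‖ ^ 2 else 0) :=
      mul_nonneg (by positivity) (Finset.sum_nonneg hnn)
    split_ifs with hk
    swap
    · exact hrhs
    by_cases hd : Disjoint (A.os b) S
    swap
    · rw [h t ht b S hd]
      simpa using hrhs
    obtain ⟨_, hk2⟩ := hk
    rw [Finset.not_disjoint_iff] at hk2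
    obtain ⟨j, hj1, hj2⟩ := hk2
    have hjR : j ∈ R := by
      rcases Finset.mem_union.1 hj2 with h3 | h3
      · exact h3
      · exact absurd h3 (Finset.disjoint_left.1 hd hj1)
    have hpos : A.pos b = some j := by
      unfold os at hj1
      rwa [Option.mem_toFinset] at hj1
    have h3 := Finset.single_le_sum hnn hjR
    rw [if_pos hpos] at h3
    exact mul_le_mul_of_nonneg_left h3 (by positivity)
  have h3 : ∑ b, ∑ R, ∑ S, ‖a R‖ ^ 2
        * ∑ j ∈ R, (if A.pos b = some j then ‖A.co t S b‖ ^ 2 else 0)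
      = ∑ R, ‖a R‖ ^ 2 * ∑ j ∈ R, A.pm t j := by
    rw [Finset.sum_comm]
    refine Finset.sum_congr rfl fun R _ => ?_
    simp_rw [← Finset.mul_sum]
    congr 1
    have e : ∀ b, ∑ S, ∑ j ∈ R, (if A.pos b = some j then ‖A.co t S b‖ ^ 2 else 0)
        = ∑ j ∈ R, (if A.pos b = some j then ∑ S, ‖A.co t S b‖ ^ 2 else 0) := by
      intro b
      rw [Finset.sum_comm]
      refine Finset.sum_congr rfl fun j _ => ?_
      split_ifs <;> simp
    rw [Finset.sum_congr rfl fun b _ => e b, Finset.sum_comm]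
    rfl
  have h4 : ∑ R, ‖a R‖ ^ 2 * ∑ j ∈ R, A.pm t j ≤ ∑ R, ‖a R‖ ^ 2 * (D * τ) := by
    refine Finset.sum_le_sum fun R _ => ?_
    by_cases hR : D < R.card
    · rw [ha R hR]; simp
    · push Not at hR
      have e1 : ∑ j ∈ R, A.pm t j ≤ ∑ j ∈ R, τ := Finset.sum_le_sum fun j _ => hτ t ht j
      rw [Finset.sum_const, nsmul_eq_mul] at e1
      have e2 : (R.card : ℝ) * τ ≤ D * τ := by
        have : (R.card : ℝ) ≤ D := by exact_mod_cast hR
        gcongr
      exact mul_le_mul_of_nonneg_left (e1.trans e2) (by positivity)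
  rw [h1]
  refine (Finset.sum_le_sum fun b _ => Finset.sum_le_sum fun R _ => Finset.sum_le_sum fun S _ =>
    h2 b R S).trans ?_
  rw [h3]
  refine h4.trans (le_of_eq ?_)
  rw [← Finset.sum_mul]
  unfold ns
  ring

/-- The part with disjoint sets, at queries to `j`. -/
lemma DDg_b (τ : ℝ) {t : ℕ} (j : Fin N) (hτ : A.pm t j ≤ τ) :
    E3 (fun z => nq A j (DDg A a (fun i => star (te z i)) (te z) t)) ≤ τ * ns a := by
  classical
  have h1 : E3 (fun z => nq A j (DDg A a (fun i => star (te z i)) (te z) t))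
      ≤ ∑ b, (if A.pos b = some j then (∑ R, ‖a R‖ ^ 2) * (∑ S, ‖A.co t S b‖ ^ 2) else 0) := by
    unfold nq DDg
    rw [E3_sum]
    refine Finset.sum_le_sum fun b _ => ?_
    split_ifs with hb
    · rw [dsg_b A a _ (fun S S' hh => hh) t b, Finset.sum_mul_sum]
      gcongr with S _ S' _
      split_ifs
      · exact le_rfl
      · positivity
    · rw [E3_const]
  have h2 : ∑ b, (if A.pos b = some j then (∑ R, ‖a R‖ ^ 2) * (∑ S, ‖A.co t S b‖ ^ 2) else 0)
      = ns a * A.pm t j := by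
    unfold ns pm
    rw [Finset.mul_sum]
    refine Finset.sum_congr rfl fun b _ => ?_
    split_ifs
    · rfl
    · rw [mul_zero]
  rw [h2] at h1
  have h3 := mul_le_mul_of_nonneg_left hτ (ns_nonneg a)
  linarith

lemma gv_star (z : Fin N → Fin 3) :
    ‖gv (fun R => star (a R)) (fun i => star (te z i))‖ = ‖gv a (te z)‖ := by
  have : gv (fun R => star (a R)) (fun i => star (te z i)) = star (gv a (te z)) := by
    unfold gv mon
    rw [star_sum]
    refine Finset.sum_congr rfl fun R _ => ?_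
    rw [star_mul', star_prod]
  rw [this, norm_star]

lemma ns_star : ns (fun R => star (a R)) = ns a := by
  unfold ns
  simp_rw [norm_star]

/-- The multiplication bound with cube root phases. -/
lemma mult3 {T : ℕ} (h : A.NRc T) (τ : ℝ) (hτ0 : 0 ≤ τ) (hτ : ∀ t < T, ∀ j, A.pm t j ≤ τ)
    (D : ℕ) (ha : ∀ R, D < R.card → a R = 0) {t : ℕ} (ht : t < T) (j : Fin N) :
    E3 (fun z => ‖gv a (te z)‖ ^ 2 * A.qm (te z) t j) ≤ (2 + 2 * (t : ℝ) ^ 2 * D) * τ * ns a := by
  set a' : Finset (Fin N) → ℂ := fun R => star (a R) with ha'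
  have ha'0 : ∀ R, D < R.card → a' R = 0 := by
    intro R hR
    rw [ha']
    simp only
    rw [ha R hR, star_zero]
  have h1 : E3 (fun z => ‖gv a (te z)‖ ^ 2 * A.qm (te z) t j)
      ≤ E3 (fun z => 2 * nq A j (DDg A a' (fun i => star (te z i)) (te z) t)
        + 2 * (t * ∑ s ∈ Finset.range t, nsq (KKg A a' (fun i => star (te z i)) (te z) s))) := by
    apply E3_mono
    intro z
    have e1 := nq_split A a' (fun i => star (te z i)) (te z) t j
    have e2 := RRg_le (a := a') (w := fun i => star (te z i)) h (norm_te z) t ht.le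
    rw [gv_star] at e1
    linarith
  rw [E3_add, E3_mul, E3_mul, E3_mul, E3_sum (Finset.range t)
    (fun s z => nsq (KKg A a' (fun i => star (te z i)) (te z) s))] at h1
  have h2 := A.DDg_b a' τ j (hτ t ht j)
  have h3 : ∑ s ∈ Finset.range t, E3 (fun z => nsq (KKg A a' (fun i => star (te z i)) (te z) s))
      ≤ ∑ s ∈ Finset.range t, D * τ * ns a' := by
    refine Finset.sum_le_sum fun s hs => ?_
    exact A.KKg_b a' h τ hτ0 hτ D ha'0 (by have := Finset.mem_range.1 hs; omega)
  rw [Finset.sum_const, Finset.card_range, nsmul_eq_mul] at h3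
  have hns : ns a' = ns a := ns_star a
  rw [hns] at h2 h3
  have h0 : (0 : ℝ) ≤ t := Nat.cast_nonneg t
  have h5 := mul_le_mul_of_nonneg_left h3 h0
  refine h1.trans ?_
  have h6 : (2 + 2 * (t : ℝ) ^ 2 * D) * τ * ns a
      = 2 * (τ * ns a) + 2 * (t * (t * (D * τ * ns a))) := by ring
  rw [h6]
  linarith

end Alg

end Pool.Agent.TH334.NR
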