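import Pool.Agent.TH334.NR.SG2

/-!
# A low degree function times a run, with sign phases
-/

set_option autoImplicit false

namespace Pool.Agent.TH334.NR

open Finset Matrix Pool.Agent.H572R2

variable {N : ℕ} {B : Type} [Fintype B] [DecidableEq B]

/-- The coefficient of `U` in the product, over disjoint pairs. -/
noncomputable def Eg (A : Alg N B) (a : Finset (Fin N) → ℂ) (t : ℕ) (U : Finset (Fin N)) (b : B) :
    ℂ :=
  ∑ R ∈ U.powerset, a R * A.co t (U \ R) b

variable (A : Alg N B) (a : Finset (Fin N) → ℂ)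

lemma DDg_eq (u : Fin N → ℂ) (t : ℕ) (b : B) :
    DDg A a u u t b = ∑ U, mon u U * Eg A a t U b := by
  classical
  have h := union_sum u (fun _ => True) a (fun S => A.co t S b)
  simp only [and_true, if_true] at h
  unfold DDg dsg Eg
  rw [← h]
  refine Finset.sum_congr rfl fun S _ => Finset.sum_congr rfl fun S' _ => ?_
  congr

open Classical in
lemma KKg_eq (u : Fin N → ℂ) (t : ℕ) (b : B) :
    KKg A a u u t b = ∑ U, mon u U * (if ¬ Disjoint (A.os b) U then Eg A a t U b else 0) := by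
  have h := union_sum u (fun U => ¬ Disjoint (A.os b) U) a (fun S => A.co t S b)
  unfold KKg dsg Eg
  refine Eq.trans ?_ (h.trans ?_)
  · refine Finset.sum_congr rfl fun S _ => Finset.sum_congr rfl fun S' _ => ?_
    by_cases hh : Disjoint S S' ∧ ¬ Disjoint (A.os b) (S ∪ S')
    · rw [if_pos hh, if_pos hh]
    · rw [if_neg hh, if_neg hh]
  · refine Finset.sum_congr rfl fun U _ => ?_
    congr

/-- Total mass of the part with disjoint sets. -/
noncomputable def nEg (t : ℕ) : ℝ := ∑ b, ∑ U, ‖Eg A a t U b‖ ^ 2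

lemma EE_DDg (t : ℕ) : EE (fun x => nsq (DDg A a (sg x) (sg x) t)) = nEg A a t := by
  unfold nsq nEg
  rw [EE_sum]
  refine Finset.sum_congr rfl fun p _ => ?_
  simp_rw [DDg_eq]
  exact pars_sg _

lemma EE_nqDDg (t : ℕ) (j : Fin N) : EE (fun x => nq A j (DDg A a (sg x) (sg x) t))
    = ∑ b, if A.pos b = some j then ∑ U, ‖Eg A a t U b‖ ^ 2 else 0 := by
  unfold nq
  rw [EE_sum]
  refine Finset.sum_congr rfl fun p _ => ?_
  split_ifs
  · simp_rw [DDg_eq]
    rw [pars_sg]
  · exact EE_const 0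

lemma EE_KKg (t : ℕ) :
    EE (fun x => nsq (fun p => DDg A a (sg x) (sg x) t p - KKg A a (sg x) (sg x) t p))
      = nEg A a t - EE (fun x => nsq (KKg A a (sg x) (sg x) t)) := by
  classical
  have h1 : EE (fun x => nsq (KKg A a (sg x) (sg x) t))
      = ∑ b, ∑ U, ‖(if ¬ Disjoint (A.os b) U then Eg A a t U b else 0)‖ ^ 2 := by
    unfold nsq
    rw [EE_sum]
    refine Finset.sum_congr rfl fun p _ => ?_
    simp_rw [KKg_eq]
    exact pars_sg _
  have h2 : EE (fun x => nsq (fun p => DDg A a (sg x) (sg x) t p - KKg A a (sg x) (sg x) t p))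
      = ∑ b, ∑ U, ‖(if ¬ Disjoint (A.os b) U then 0 else Eg A a t U b)‖ ^ 2 := by
    unfold nsq
    rw [EE_sum]
    refine Finset.sum_congr rfl fun p _ => ?_
    rw [← pars_sg]
    apply EE_congr
    intro x
    show ‖DDg A a (sg x) (sg x) t p - KKg A a (sg x) (sg x) t p‖ ^ 2 = _
    rw [DDg_eq, KKg_eq, ← Finset.sum_sub_distrib]
    congr 2
    refine Finset.sum_congr rfl fun U _ => ?_
    split_ifs <;> ring
  rw [h1, h2]
  unfold nEg
  rw [← Finset.sum_sub_distrib]
  refine Finset.sum_congr rfl fun p _ => ?_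
  rw [← Finset.sum_sub_distrib]
  refine Finset.sum_congr rfl fun U _ => ?_
  split_ifs <;> simp

lemma nEg_succ {T : ℕ} (h : A.NRc T) {t : ℕ} (ht : t < T) :
    nEg A a (t + 1) = nEg A a t - EE (fun x => nsq (KKg A a (sg x) (sg x) t)) := by
  rw [← EE_KKg, ← EE_DDg]
  apply EE_congr
  intro x
  rw [DDg_succ h ht, nsq_unitary _ (A.hW t), nsq_phase]
  intro q
  exact norm_mon (norm_sg x) _

lemma nsq_gv {w u : Fin N → ℂ} (hu : ∀ i, ‖u i‖ = 1) (t : ℕ) :
    nsq (fun b => gv a w * A.st u t b) = ‖gv a w‖ ^ 2 := by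
  have h1 := A.nst hu t
  unfold nsq at *
  simp_rw [norm_mul, mul_pow, ← Finset.mul_sum, h1, mul_one]

lemma nEg_zero : nEg A a 0 = ns a := by
  rw [← EE_DDg]
  unfold ns
  rw [← pars_sg]
  apply EE_congr
  intro x
  have e := nsq_gv A a (w := sg x) (norm_sg x) 0
  unfold gv at e
  rw [← e]
  congr 1
  funext p
  have := RRg_zero (A := A) (a := a) (sg x) (sg x) p
  unfold RRg gv at this
  linear_combination -this

/-- The total lost part. -/
lemma sum_KKg {T : ℕ} (h : A.NRc T) :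
    ∀ t ≤ T, ∑ s ∈ Finset.range t, EE (fun x => nsq (KKg A a (sg x) (sg x) s))
      = ns a - nEg A a t := by
  intro t
  induction t with
  | zero => intro _; rw [nEg_zero]; simp
  | succ t ih =>
    intro ht
    rw [Finset.sum_range_succ, ih (by omega), nEg_succ A a h (show t < T by omega)]
    ring

/-- The mass of a record. -/
noncomputable def wg (t : ℕ) (b : B) (γ : Fin N → Fin 3) : ℝ :=
  ‖∑ P with rk P = γ, a P.1 * A.co t P.2 b‖ ^ 2

lemma wg_nonneg (t : ℕ) (b : B) (γ : Fin N → Fin 3) : 0 ≤ wg A a t b γ := by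
  unfold wg; positivity

lemma wg_ru (t : ℕ) (b : B) (U : Finset (Fin N)) : wg A a t b (ru U) = ‖Eg A a t U b‖ ^ 2 := by
  unfold wg Eg
  rw [fib_ru U (fun P => a P.1 * A.co t P.2 b)]

lemma gv_pars {T : ℕ} (h : A.NRc T) {t : ℕ} (ht : t ≤ T) (b : B) :
    E3 (fun z => ‖gv a (te z) * A.st (te z) t b‖ ^ 2) = ∑ γ, wg A a t b γ := by
  unfold wg
  rw [← pars_k (fun P => a P.1 * A.co t P.2 b)]
  apply E3_congr
  intro z
  congr 2
  unfold gv
  rw [A.expand h _ t ht, Finset.sum_mul_sum, Fintype.sum_prod_type]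
  refine Finset.sum_congr rfl fun S _ => Finset.sum_congr rfl fun S' _ => ?_
  ring

/-- Parseval over the cube root phases. -/
lemma pars_te : E3 (fun z => ‖gv a (te z)‖ ^ 2) = ns a := by
  have h := pars_k (N := N) (fun P => if P.2 = ∅ then a P.1 else 0)
  have h1 : E3 (fun z => ‖gv a (te z)‖ ^ 2)
      = E3 (fun z => ‖∑ P : Finset (Fin N) × Finset (Fin N), mon (te z) P.1 * mon (te z) P.2 *
        (if P.2 = ∅ then a P.1 else 0)‖ ^ 2) := by
    apply E3_congr
    intro z
    congr 2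
    unfold gv
    rw [Fintype.sum_prod_type]
    refine Finset.sum_congr rfl fun R _ => ?_
    rw [Finset.sum_eq_single ∅]
    · simp [mon]
    · intro S _ hS
      simp [hS]
    · intro h; exact absurd (Finset.mem_univ _) h
  rw [h1, h, fib_inj rk (fun P => if P.2 = ∅ then a P.1 else 0) (fun P => P.2 = ∅)
    (fun P hP => if_neg hP) ?_]
  · rw [Fintype.sum_prod_type]
    unfold ns
    refine Finset.sum_congr rfl fun R _ => ?_
    rw [Finset.sum_eq_single ∅]
    · simp
    · intro S _ hS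
      simp [hS]
    · intro h; exact absurd (Finset.mem_univ _) h
  · rintro ⟨R, S⟩ ⟨R', S'⟩ hP hP' e
    simp only at hP hP'
    subst hP hP'
    have : R = R' := by
      ext i
      have e1 := congrFun e i
      unfold rk at e1
      by_cases a1 : i ∈ R <;> by_cases a2 : i ∈ R' <;> simp_all
    rw [this]

/-- Restriction of the coefficients to the sets containing `j`. -/
def aj (j : Fin N) (R : Finset (Fin N)) : ℂ := if j ∈ R then a R else 0

lemma two_leg (t : ℕ) (b : B) (j : Fin N) :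
    ∑ γ, (if γ j = 2 then wg A a t b γ else 0)
      ≤ E3 (fun z => ‖gv (aj a j) (te z) * Pj A (te z) t j b‖ ^ 2) := by
  have h1 := pars_k (N := N) (fun P => if j ∈ P.1 ∧ j ∈ P.2 then
    a P.1 * A.co t P.2 b else 0)
  have h2 : E3 (fun z => ‖gv (aj a j) (te z) * Pj A (te z) t j b‖ ^ 2)
      = E3 (fun z => ‖∑ P : Finset (Fin N) × Finset (Fin N), mon (te z) P.1 * mon (te z) P.2 *
        (if j ∈ P.1 ∧ j ∈ P.2 then a P.1 * A.co t P.2 b else 0)‖ ^ 2) := by
    apply E3_congr
    intro z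
    congr 2
    unfold gv Pj aj
    rw [Finset.sum_mul_sum, Fintype.sum_prod_type]
    refine Finset.sum_congr rfl fun S _ => Finset.sum_congr rfl fun S' _ => ?_
    by_cases a1 : j ∈ S <;> by_cases a2 : j ∈ S' <;> simp [a1, a2]
    ring
  rw [h2, h1]
  refine Finset.sum_le_sum fun γ _ => ?_
  split_ifs with hγ
  · refine le_of_eq ?_
    unfold wg
    congr 2
    refine Finset.sum_congr rfl fun P hP => ?_
    have e := congrFun (Finset.mem_filter.1 hP).2 j
    rw [hγ] at e
    unfold rk at e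
    rw [if_pos]
    by_cases a1 : j ∈ P.1 <;> by_cases a2 : j ∈ P.2 <;> simp_all
  · positivity

lemma ns_aj_sum (D : ℕ) (ha : ∀ R, D < R.card → a R = 0) : ∑ j, ns (aj a j) ≤ D * ns a := by
  unfold ns aj
  rw [Finset.sum_comm, Finset.mul_sum]
  refine Finset.sum_le_sum fun R _ => ?_
  have e : ∑ j, ‖(if j ∈ R then a R else 0)‖ ^ 2 = R.card * ‖a R‖ ^ 2 := by
    rw [← nsmul_eq_mul, ← Finset.sum_const]
    rw [← Finset.sum_subset (Finset.subset_univ R)]
    · refine Finset.sum_congr rfl fun j hj => ?_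
      rw [if_pos hj]
    · intro j _ hj
      rw [if_neg hj]; simp
  rw [e]
  by_cases hR : D < R.card
  · rw [ha R hR]; simp
  · push Not at hR
    have : (R.card : ℝ) ≤ D := by exact_mod_cast hR
    gcongr

/-- The mass of the pairs with an overlap, with cube root phases. -/
lemma overlapg {T : ℕ} (h : A.NRc T) (τ : ℝ) (hτ0 : 0 ≤ τ) (hτ : ∀ t < T, ∀ j, A.pm t j ≤ τ)
    (D : ℕ) (ha : ∀ R, D < R.card → a R = 0) {t : ℕ} (ht : t ≤ T) :
    ns a - nEg A a t ≤ t * ((2 + 2 * (t : ℝ) ^ 2 * D) * τ * (D * ns a)) := by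
  have h1 : ns a = ∑ b, ∑ γ, wg A a t b γ := by
    rw [← Finset.sum_congr rfl fun b _ => gv_pars A a h ht b, ← E3_sum, ← pars_te]
    apply E3_congr
    intro z
    exact (nsq_gv A a (norm_te z) t).symm
  have h2 : ∑ b, ∑ γ, wg A a t b γ
      ≤ ∑ b, (∑ U, wg A a t b (ru U) + ∑ j, ∑ γ, (if γ j = 2 then wg A a t b γ else 0)) :=
    Finset.sum_le_sum fun p _ => records_le _ (wg_nonneg A a t p)
  rw [Finset.sum_add_distrib] at h2
  have h3 : ∑ b, ∑ U, wg A a t b (ru U) = nEg A a t := by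
    unfold nEg
    exact Finset.sum_congr rfl fun p _ => Finset.sum_congr rfl fun U _ => wg_ru A a t p U
  have h4 : ∑ b, ∑ j, ∑ γ, (if γ j = 2 then wg A a t b γ else 0)
      ≤ ∑ j, ∑ s ∈ Finset.range t, E3 (fun z => ‖gv (aj a j) (te z)‖ ^ 2 * A.qm (te z) s j) := by
    rw [Finset.sum_comm]
    refine Finset.sum_le_sum fun j _ => ?_
    refine (Finset.sum_le_sum fun b _ => two_leg A a t b j).trans ?_
    rw [← E3_sum, ← E3_sum]
    apply E3_mono
    intro z
    have e := nsq_Pj A h (norm_te z) j t ht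
    unfold nsq at e
    simp_rw [norm_mul, mul_pow, ← Finset.mul_sum]
    rw [e]
  have h5 : ∑ j, ∑ s ∈ Finset.range t, E3 (fun z => ‖gv (aj a j) (te z)‖ ^ 2 * A.qm (te z) s j)
      ≤ ∑ j, ∑ s ∈ Finset.range t, (2 + 2 * (t : ℝ) ^ 2 * D) * τ * ns (aj a j) := by
    refine Finset.sum_le_sum fun j _ => Finset.sum_le_sum fun s hs => ?_
    have hs' := Finset.mem_range.1 hs
    refine (A.mult3 (aj a j) h τ hτ0 hτ D (fun R hR => by
      unfold aj; rw [ha R hR]; simp) (by omega : s < T) j).trans ?_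
    have hst : (s : ℝ) ≤ t := by exact_mod_cast hs'.le
    have := ns_nonneg (aj a j)
    gcongr
  have h6 : ∑ j, ∑ s ∈ Finset.range t, (2 + 2 * (t : ℝ) ^ 2 * D) * τ * ns (aj a j)
      = t * ((2 + 2 * (t : ℝ) ^ 2 * D) * τ * ∑ j, ns (aj a j)) := by
    simp_rw [Finset.sum_const, Finset.card_range, nsmul_eq_mul]
    rw [← Finset.mul_sum, ← Finset.mul_sum]
  have h7 := ns_aj_sum a D ha
  have h8 : t * ((2 + 2 * (t : ℝ) ^ 2 * D) * τ * ∑ j, ns (aj a j))
      ≤ t * ((2 + 2 * (t : ℝ) ^ 2 * D) * τ * (D * ns a)) := by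
    gcongr
  rw [h3] at h2
  linarith

/-- **Multiplication by the query magnitude of a light algorithm that never re-reads has a small
norm on the functions of low degree.** -/
theorem mult {T : ℕ} (h : A.NRc T) (τ : ℝ) (hτ0 : 0 ≤ τ) (hτ : ∀ t < T, ∀ j, A.pm t j ≤ τ)
    (D : ℕ) (ha : ∀ R, D < R.card → a R = 0) {t : ℕ} (ht : t < T) (j : Fin N) :
    EE (fun x => ‖gv a (sg x)‖ ^ 2 * A.qm (sg x) t j)
      ≤ 4 * (1 + (t : ℝ) ^ 2 * D) ^ 2 * τ * EE (fun x => ‖gv a (sg x)‖ ^ 2) := by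
  have hns : EE (fun x => ‖gv a (sg x)‖ ^ 2) = ns a := pars_sg a
  rw [hns]
  have h1 : EE (fun x => ‖gv a (sg x)‖ ^ 2 * A.qm (sg x) t j)
      ≤ EE (fun x => 2 * nq A j (DDg A a (sg x) (sg x) t)
        + 2 * (t * ∑ s ∈ Finset.range t, nsq (KKg A a (sg x) (sg x) s))) := by
    apply EE_mono
    intro x
    have e2 := nq_split A a (sg x) (sg x) t j
    have e3 := RRg_le (a := a) (w := sg x) h (norm_sg x) t ht.le
    linarith
  rw [EE_add, EE_mul, EE_mul, EE_mul, EE_sum (Finset.range t)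
    (fun s x => nsq (KKg A a (sg x) (sg x) s)), sum_KKg A a h t ht.le] at h1
  have h2 : EE (fun x => nq A j (DDg A a (sg x) (sg x) t))
      ≤ (2 + 2 * (t : ℝ) ^ 2 * D) * τ * ns a := by
    refine le_trans ?_ (A.mult3 a h τ hτ0 hτ D ha ht j)
    rw [EE_nqDDg]
    have e : E3 (fun z => ‖gv a (te z)‖ ^ 2 * A.qm (te z) t j)
        = ∑ b, if A.pos b = some j then ∑ γ, wg A a t b γ else 0 := by
      have e1 : E3 (fun z => ‖gv a (te z)‖ ^ 2 * A.qm (te z) t j)
          = E3 (fun z => nq A j (fun b => gv a (te z) * A.st (te z) t b)) := by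
        apply E3_congr
        intro z
        rw [nq_st]
      rw [e1]
      unfold nq
      rw [E3_sum]
      refine Finset.sum_congr rfl fun b _ => ?_
      split_ifs
      · exact gv_pars A a h ht.le b
      · exact E3_const 0
    rw [e]
    refine Finset.sum_le_sum fun b _ => ?_
    split_ifs
    · rw [← Finset.sum_congr rfl fun U _ => wg_ru A a t b U]
      exact le_records _ (wg_nonneg A a t b)
    · exact le_rfl
  have h5 := overlapg A a h τ hτ0 hτ D ha ht.le
  have h0 : (0 : ℝ) ≤ t := Nat.cast_nonneg t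
  have h7 := mul_le_mul_of_nonneg_left h5 h0
  refine h1.trans ?_
  have h8 : 4 * (1 + (t : ℝ) ^ 2 * D) ^ 2 * τ * ns a
      = 2 * ((2 + 2 * (t : ℝ) ^ 2 * D) * τ * ns a)
        + 2 * (t * (t * ((2 + 2 * (t : ℝ) ^ 2 * D) * τ * (D * ns a)))) := by ring
  rw [h8]
  linarith

end Pool.Agent.TH334.NR
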