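import Pool.Agent.TH334.NR.Fam

/-!
# Classical simulation from a light lemma
-/

set_option autoImplicit false

namespace Pool.Agent.TH334.NR

open Finset Pool.Agent.H572R2

/-- Deterministic classical query algorithms (decision trees) with real outputs. -/
inductive DTree (N : ℕ) : Type
  | leaf (v : ℝ) : DTree N
  | query (i : Fin N) (t0 t1 : DTree N) : DTree N

namespace DTree

variable {N : ℕ}

/-- The output on the input `x`. -/
noncomputable def eval : DTree N → (Fin N → Bool) → ℝ
  | leaf v, _ => v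
  | query i t0 t1, x => if x i then eval t1 x else eval t0 x

/-- The number of queries on the input `x`. -/
def cost : DTree N → (Fin N → Bool) → ℕ
  | leaf _, _ => 0
  | query i t0 t1, x => (if x i then cost t1 x else cost t0 x) + 1

/-- The largest number of queries. -/
def depth : DTree N → ℕ
  | leaf _ => 0
  | query _ t0 t1 => max (depth t0) (depth t1) + 1

/-- Stopping after `D` queries. -/
lemma trunc (e : DTree N) : ∀ D : ℕ, ∃ e' : DTree N, e'.depth ≤ D ∧
    ∀ x, e.cost x ≤ D → e'.eval x = e.eval x := by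
  induction e with
  | leaf v => exact fun D => ⟨leaf v, Nat.zero_le _, fun x _ => rfl⟩
  | query i t0 t1 ih0 ih1 =>
    intro D
    cases D with
    | zero =>
      refine ⟨leaf 0, le_refl _, fun x hx => ?_⟩
      exact absurd hx (by show ¬ (_ + 1 ≤ 0); omega)
    | succ D =>
      obtain ⟨f0, h0, g0⟩ := ih0 D
      obtain ⟨f1, h1, g1⟩ := ih1 D
      refine ⟨query i f0 f1, Nat.succ_le_succ (max_le h0 h1), fun x hx => ?_⟩
      have hx' : (if x i then t1.cost x else t0.cost x) + 1 ≤ D + 1 := hx
      show (if x i then f1.eval x else f0.eval x) = if x i then t1.eval x else t0.eval x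
      by_cases hxi : x i = true
      · simp only [hxi, if_true] at hx' ⊢
        exact g1 x (by omega)
      · simp only [hxi, if_false, Bool.false_eq_true] at hx' ⊢
        exact g0 x (by omega)

end DTree

variable {N : ℕ}

lemma markov (g : (Fin N → Bool) → ℝ) (hg : ∀ x, 0 ≤ g x) (s v : ℝ) (hs : 0 < s)
    (hv : EE g ≤ s * v) :
    ((Finset.univ.filter (fun x => s < g x)).card : ℝ) ≤ v * 2 ^ N := by
  have h2 : (0 : ℝ) < 2 ^ N := by positivity
  have h1 : ((Finset.univ.filter (fun x => s < g x)).card : ℝ) * s ≤ ∑ x, g x := by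
    calc ((Finset.univ.filter (fun x => s < g x)).card : ℝ) * s
        = ∑ _x ∈ Finset.univ.filter (fun x => s < g x), s := by
          rw [Finset.sum_const, nsmul_eq_mul]
      _ ≤ ∑ x ∈ Finset.univ.filter (fun x => s < g x), g x :=
          Finset.sum_le_sum fun x hx => (Finset.mem_filter.1 hx).2.le
      _ ≤ ∑ x, g x := Finset.sum_le_sum_of_subset_of_nonneg (Finset.filter_subset _ _)
          fun x _ _ => hg x
  have h3 : ∑ x, g x ≤ s * v * 2 ^ N := by
    unfold EE at hv
    rwa [div_le_iff₀ h2] at hv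
  have h4 : ((Finset.univ.filter (fun x => s < g x)).card : ℝ) * s ≤ v * 2 ^ N * s := by
    calc _ ≤ s * v * 2 ^ N := h1.trans h3
      _ = v * 2 ^ N * s := by ring
  exact le_of_mul_le_mul_right h4 hs

variable {m : ℕ → Fin N → (Fin N → Bool) → ℝ}

/-- The simulating decision tree. -/
lemma simtree (hm : ∀ t k x, 0 ≤ m t k x) (r : ℕ) (p : (Fin N → Bool) → ℝ) (β θ : ℝ) (hθ : 0 < θ)
    (hlight : ∀ (S : Finset (Fin N)) (a : Fin N → Bool),
      (∀ t < r, ∀ k ∈ Sᶜ, Ex S a (m t k) ≤ θ) →
      Ex S a (fun x => (p x) ^ 2) - (Ex S a p) ^ 2 ≤ β) :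
    ∀ (n : ℕ) (S : Finset (Fin N)) (a : Fin N → Bool), (Sᶜ).card = n →
      ∃ e : DTree N, (∀ i ∈ S, ∀ x, e.eval (flp i x) = e.eval x ∧ e.cost (flp i x) = e.cost x) ∧
        EE (fun x => (p (mix S a x) - e.eval x) ^ 2) ≤ β ∧
        EE (fun x => (e.cost x : ℝ)) ≤ AA m r S a / θ := by
  classical
  have hdone : ∀ (S : Finset (Fin N)) (a : Fin N → Bool),
      (∀ t < r, ∀ k ∈ Sᶜ, Ex S a (m t k) ≤ θ) →
      ∃ e : DTree N, (∀ i ∈ S, ∀ x, e.eval (flp i x) = e.eval x ∧ e.cost (flp i x) = e.cost x) ∧
        EE (fun x => (p (mix S a x) - e.eval x) ^ 2) ≤ β ∧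
        EE (fun x => (e.cost x : ℝ)) ≤ AA m r S a / θ := by
    intro S a h
    have h1 := hlight S a h
    refine ⟨DTree.leaf (Ex S a p), fun _ _ _ => ⟨rfl, rfl⟩, ?_, ?_⟩
    · have h2 : EE (fun x => (p (mix S a x) - Ex S a p) ^ 2)
          = Ex S a (fun x => (p x) ^ 2) - 2 * Ex S a p * Ex S a p + (Ex S a p) ^ 2 := by
        unfold Ex
        rw [← EE_mul, ← EE_sub, ← EE_const (N := N) ((EE fun x => p (mix S a x)) ^ 2), ← EE_add]
        apply EE_congr; intro x
        show _ = (p (mix S a x)) ^ 2 - _ + _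
        ring
      show EE (fun x => (p (mix S a x) - Ex S a p) ^ 2) ≤ β
      rw [h2]
      nlinarith
    · have : EE (fun x => ((DTree.leaf (Ex S a p) : DTree N).cost x : ℝ)) = 0 := by
        have h3 : (fun x : Fin N → Bool => ((DTree.leaf (Ex S a p) : DTree N).cost x : ℝ))
            = fun _ => (0 : ℝ) := by
          funext x
          show ((0 : ℕ) : ℝ) = 0
          simp
        rw [h3, EE_const]
      rw [this]
      exact div_nonneg (AA_nonneg hm r S a) hθ.le
  intro n
  induction n with
  | zero =>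
    intro S a hS
    have hS' : Sᶜ = ∅ := Finset.card_eq_zero.1 hS
    exact hdone S a (by intro t _ k hk; rw [hS'] at hk; simp at hk)
  | succ n ih =>
    intro S a hS
    by_cases hlt : ∀ t < r, ∀ k ∈ Sᶜ, Ex S a (m t k) ≤ θ
    · exact hdone S a hlt
    · push Not at hlt
      obtain ⟨t, ht, i, hi, hti⟩ := hlt
      have hi' : i ∉ S := by simpa using hi
      have hc : ((insert i S)ᶜ).card = n := by
        have : (insert i S)ᶜ = (Sᶜ).erase i := by
          ext k; simp
        rw [this, Finset.card_erase_of_mem hi, hS]; rfl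
      obtain ⟨e1, inv1, err1, cost1⟩ := ih (insert i S) (Function.update a i true) hc
      obtain ⟨e0, inv0, err0, cost0⟩ := ih (insert i S) (Function.update a i false) hc
      have hA := AA_split' hm r hi' a ht hti.le
      have hiins : i ∈ insert i S := Finset.mem_insert_self i S
      refine ⟨DTree.query i e0 e1, ?_, ?_, ?_⟩
      · intro j hj x
        have hji : i ≠ j := by rintro rfl; exact hi' hj
        have a1 := inv1 j (Finset.mem_insert_of_mem hj) x
        have a0 := inv0 j (Finset.mem_insert_of_mem hj) x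
        constructor
        · show (if flp j x i then e1.eval (flp j x) else e0.eval (flp j x))
            = if x i then e1.eval x else e0.eval x
          rw [flp_ne hji, a1.1, a0.1]
        · show (if flp j x i then e1.cost (flp j x) else e0.cost (flp j x)) + 1
            = (if x i then e1.cost x else e0.cost x) + 1
          rw [flp_ne hji, a1.2, a0.2]
      · have hmix : ∀ c (x : Fin N → Bool), x i = c → mix S a x
            = mix (insert i S) (Function.update a i c) x := by
          intro c x hx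
          funext k
          by_cases hk : k = i
          · subst hk; simp [mix, hi', hx]
          · simp [mix, hk]
        have e1' : EE (fun x => (p (mix S a x) - (DTree.query i e0 e1).eval x) ^ 2)
            = EE (fun x => if x i
              then (p (mix (insert i S) (Function.update a i true) x) - e1.eval x) ^ 2
              else (p (mix (insert i S) (Function.update a i false) x) - e0.eval x) ^ 2) := by
          apply EE_congr; intro x
          show (p (mix S a x) - if x i then e1.eval x else e0.eval x) ^ 2 = _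
          cases hx : x i
          · simp only [Bool.false_eq_true, if_false]
            rw [hmix false x hx]
          · simp only [if_true]
            rw [hmix true x hx]
        rw [e1', EE_ite]
        · linarith
        · intro x
          rw [mix_flp_mem hiins, (inv1 i hiins x).1]
        · intro x
          rw [mix_flp_mem hiins, (inv0 i hiins x).1]
      · have e1' : EE (fun x => ((DTree.query i e0 e1).cost x : ℝ))
            = (EE (fun x => (e1.cost x : ℝ)) + EE (fun x => (e0.cost x : ℝ))) / 2 + 1 := by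
          rw [← EE_ite i (fun x => (e1.cost x : ℝ)) (fun x => (e0.cost x : ℝ))
            (fun x => by rw [(inv1 i hiins x).2]) (fun x => by rw [(inv0 i hiins x).2]),
            ← EE_const (N := N) 1, ← EE_add]
          apply EE_congr; intro x
          show (((if x i then e1.cost x else e0.cost x) + 1 : ℕ) : ℝ) = _
          push_cast
          rfl
        rw [e1']
        have h3 := div_le_div_of_nonneg_right hA hθ.le
        have h4 : (AA m r S a - θ) / θ = AA m r S a / θ - 1 := by
          field_simp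
        have h5 : (AA m r (insert i S) (Function.update a i true)
            + AA m r (insert i S) (Function.update a i false)) / 2 / θ
            = (AA m r (insert i S) (Function.update a i true) / θ
              + AA m r (insert i S) (Function.update a i false) / θ) / 2 := by ring
        rw [h4, h5] at h3
        linarith

/-- Classical simulation. -/
theorem sim (hm : ∀ t k x, 0 ≤ m t k x) (r : ℕ) (R : ℝ) (hR : 0 < R)
    (hAA : ∀ a : Fin N → Bool, AA m r ∅ a ≤ R)
    (p : (Fin N → Bool) → ℝ) (ε δ θ : ℝ) (hε : 0 < ε) (hδ : 0 < δ)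
    (hθ : 0 < θ) (hθR : θ * δ ≤ R)
    (hlight : ∀ (S : Finset (Fin N)) (a : Fin N → Bool),
      (∀ t < r, ∀ k ∈ Sᶜ, Ex S a (m t k) ≤ θ) →
      Ex S a (fun x => (p x) ^ 2) - (Ex S a p) ^ 2 ≤ ε ^ 2 * (δ / 2)) :
    ∃ e : DTree N, (e.depth : ℝ) ≤ 3 * R / (θ * δ) ∧
      ((Finset.univ.filter (fun x : Fin N → Bool => ε < |p x - e.eval x|)).card : ℝ)
        ≤ δ * 2 ^ N := by
  obtain ⟨e, _, herr, hcost⟩ := simtree hm r p (ε ^ 2 * (δ / 2)) θ hθ hlight _ ∅
    (fun _ => true) rfl
  simp only [mix_empty] at herr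
  have hcost' : EE (fun x => (e.cost x : ℝ)) ≤ R / θ := by
    refine hcost.trans ?_
    have := hAA (fun _ => true)
    gcongr
  set D : ℕ := ⌈2 * R / (θ * δ)⌉₊ with hD
  have h1 : 2 * R / (θ * δ) ≤ D := Nat.le_ceil _
  have h2 : (D : ℝ) < 2 * R / (θ * δ) + 1 := Nat.ceil_lt_add_one (by positivity)
  have h3 : 1 ≤ R / (θ * δ) := by
    rw [le_div_iff₀ (by positivity)]; linarith
  have hD0 : (0 : ℝ) < D := lt_of_lt_of_le (by positivity) h1
  obtain ⟨e', hd, he'⟩ := e.trunc D
  refine ⟨e', ?_, ?_⟩
  · have h4 : (e'.depth : ℝ) ≤ D := by exact_mod_cast hd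
    have h5 : 3 * R / (θ * δ) = 2 * R / (θ * δ) + R / (θ * δ) := by ring
    linarith
  · have hsub : Finset.univ.filter (fun x => ε < |p x - e'.eval x|)
        ⊆ Finset.univ.filter (fun x => ε ^ 2 < (p x - e.eval x) ^ 2)
          ∪ Finset.univ.filter (fun x => (D : ℝ) < (e.cost x : ℝ)) := by
      intro x hx
      rw [Finset.mem_filter] at hx
      by_contra hcon
      simp only [Finset.mem_union, Finset.mem_filter, Finset.mem_univ, true_and, not_or,
        not_lt] at hcon
      obtain ⟨c1, c2⟩ := hcon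
      rw [he' x (by exact_mod_cast c2)] at hx
      have c4 : |p x - e.eval x| ≤ ε := by
        by_contra hlt
        push Not at hlt
        have h7 : ε ^ 2 < |p x - e.eval x| ^ 2 :=
          pow_lt_pow_left₀ hlt hε.le (by norm_num)
        rw [sq_abs] at h7
        linarith
      linarith [hx.2]
    have m1 := markov (fun x => (p x - e.eval x) ^ 2) (fun x => sq_nonneg _) (ε ^ 2) (δ / 2)
      (by positivity) herr
    have m2 := markov (fun x => (e.cost x : ℝ)) (fun x => Nat.cast_nonneg _) D (δ / 2) hD0 (by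
      refine hcost'.trans ?_
      have h8 := mul_le_mul_of_nonneg_right h1 (by positivity : 0 ≤ δ / 2)
      refine le_trans (le_of_eq ?_) h8
      field_simp)
    have hcard := (Finset.card_le_card hsub).trans (Finset.card_union_le _ _)
    have hcard' : ((Finset.univ.filter (fun x => ε < |p x - e'.eval x|)).card : ℝ)
        ≤ (Finset.univ.filter (fun x => ε ^ 2 < (p x - e.eval x) ^ 2)).card
          + (Finset.univ.filter (fun x => (D : ℝ) < (e.cost x : ℝ))).card := by
      exact_mod_cast hcard
    linarith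

section Family

variable {B : Type} [Fintype B] [DecidableEq B] {r : ℕ} (A : Fin r → Alg N B)
  (Ac : Fin r → Finset B)

/-- Classical simulation of a function of a family. -/
theorem fam_sim {T : ℕ} (hA : ∀ κ, (A κ).NRs T) (f : (Fin N → Bool) → ℝ) (L : ℝ) (hL1 : 1 ≤ L)
    (hL : ∀ x y, |f x - f y|
      ≤ L * ∑ κ, |(A κ).ap T (Ac κ) x - (A κ).ap T (Ac κ) y|)
    (ε δ : ℝ) (hε : 0 < ε) (hε1 : ε ≤ 1) (hδ : 0 < δ) (hδ1 : δ ≤ 1) :
    ∃ e : DTree N, (e.depth : ℝ) ≤ 768 * L ^ 2 * (r : ℝ) ^ 3 * (T : ℝ) ^ 9 / (ε ^ 2 * δ ^ 2) ∧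
      ((Finset.univ.filter (fun x : Fin N → Bool => ε < |f x - e.eval x|)).card : ℝ)
        ≤ δ * 2 ^ N := by
  by_cases hcon : 1 ≤ r ∧ 1 ≤ T
  swap
  · have h1 : ∀ x y, f x = f y := by
      intro x y
      have h2 := hL x y
      have h3 : ∑ κ, |(A κ).ap T (Ac κ) x - (A κ).ap T (Ac κ) y| = 0 := by
        by_cases hr : r = 0
        · subst hr; simp
        · have hT : T = 0 := by omega
          subst hT
          refine Finset.sum_eq_zero fun κ _ => ?_
          have : (A κ).ap 0 (Ac κ) x = (A κ).ap 0 (Ac κ) y := rfl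
          rw [this]; simp
      rw [h3, mul_zero] at h2
      have := abs_nonpos_iff.1 h2
      linarith
    refine ⟨DTree.leaf (f fun _ => true), ?_, ?_⟩
    · show ((0 : ℕ) : ℝ) ≤ _
      push_cast
      have : (0 : ℝ) ≤ L := by linarith
      positivity
    · have : Finset.univ.filter (fun x : Fin N → Bool =>
          ε < |f x - (DTree.leaf (f fun _ => true) : DTree N).eval x|) = ∅ := by
        ext x
        simp only [Finset.mem_filter, Finset.mem_univ, true_and, Finset.notMem_empty, iff_false,
          not_lt]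
        show |f x - f fun _ => true| ≤ ε
        rw [h1 x (fun _ => true)]
        simp [hε.le]
      rw [this]
      simp only [Finset.card_empty, Nat.cast_zero]
      positivity
  obtain ⟨hr, hT⟩ := hcon
  have hr1 : (1 : ℝ) ≤ r := by exact_mod_cast hr
  have hT1 : (1 : ℝ) ≤ T := by exact_mod_cast hT
  have hL0 : 0 < L := by linarith
  set θ : ℝ := ε ^ 2 * δ / (256 * L ^ 2 * (r : ℝ) ^ 2 * (T : ℝ) ^ 8) with hθ
  have hθ0 : 0 < θ := by positivity
  have hθ1 : θ ≤ 1 := by
    rw [hθ, div_le_one (by positivity)]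
    have e1 : ε ^ 2 * δ ≤ 1 := mul_le_one₀ (pow_le_one₀ hε.le hε1) hδ.le hδ1
    have e2 : (1 : ℝ) ≤ L ^ 2 := one_le_pow₀ hL1
    have e3 : (1 : ℝ) ≤ (r : ℝ) ^ 2 := one_le_pow₀ hr1
    have e4 : (1 : ℝ) ≤ (T : ℝ) ^ 8 := one_le_pow₀ hT1
    calc ε ^ 2 * δ ≤ 256 * 1 * 1 * 1 := by linarith
      _ ≤ _ := by gcongr
  have h := sim (m := fm A T) (fm_nonneg A T) (r * T) (r * T) (by positivity) (fm_AA A T) f ε δ θ
    hε hδ hθ0 (by
      have e1 : θ * δ ≤ 1 := mul_le_one₀ hθ1 hδ.le hδ1
      have e2 : (1 : ℝ) ≤ r * T := one_le_mul_of_one_le_of_one_le hr1 hT1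
      linarith) (fun S a hS => by
      refine (fam_node A Ac hA f L hL θ hθ0.le S a hS).trans (le_of_eq ?_)
      rw [hθ]
      field_simp
      norm_num)
  obtain ⟨e, he1, he2⟩ := h
  refine ⟨e, he1.trans (le_of_eq ?_), he2⟩
  rw [hθ]
  field_simp
  norm_num

end Family

end Pool.Agent.TH334.NR
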