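import Pool.Agent.TH334.NR.Poly
import Pool.Agent.TH334.NR.Main

/-!
# The variance of a light algorithm that never re-reads, with a linear bound
-/

set_option autoImplicit false

namespace Pool.Agent.TH334.NR

open Finset Matrix Pool.Agent.H572R2

variable {N : ℕ} {B : Type} [Fintype B] [DecidableEq B]

namespace Alg

variable (A : Alg N B)

lemma nq_eq (i : Fin N) (F : B → ℂ) :
    ∑ s ∈ Finset.univ.filter (fun s => i ∈ A.os s), ‖F s‖ ^ 2 = nq A i F := by
  unfold nq
  rw [Finset.sum_filter]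
  refine Finset.sum_congr rfl fun s _ => ?_
  simp only [A.mem_os]

lemma qm_flp {T : ℕ} (h : A.NRs T) {u : ℕ} (hu : u < T) (i : Fin N) (x : Fin N → Bool) :
    A.qm (sg (flp i x)) u i = A.qm (sg x) u i := by
  unfold qm
  refine Finset.sum_congr rfl fun b _ => ?_
  split_ifs with hb
  · rw [h u hu b i hb x]
  · rfl

/-- The gradient bound, with backward vectors of low degree. -/
lemma gradP {T : ℕ} (h : A.NRs T) (Ac : Finset B) : ∃ w : ℕ → (Fin N → Bool) → B → ℂ,
    (∀ u x, nsq (w u x) = A.ap T Ac x) ∧ (∀ u b, PD (2 * T) (fun x => w u x b)) ∧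
    ∀ x i, (max 0 (A.ap T Ac x - A.ap T Ac (flp i x))) ^ 2
      ≤ 16 * T * ∑ u ∈ Finset.range T, nq A i (w u x) * A.qm (sg x) u i := by
  classical
  set v : (Fin N → Bool) → B → ℂ := fun x s => if s ∈ Ac then A.st (sg x) T s else 0 with hv
  have hvP : ∀ b, PD T (fun x => v x b) := by
    intro b
    rw [hv]
    by_cases hb : b ∈ Ac
    · simp only [hb, if_true]
      exact A.PD_st T b
    · simp only [hb, if_false]
      exact PD.const T 0
  have hnv : ∀ x, nsq (v x) = A.ap T Ac x := by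
    intro x
    unfold nsq ap
    rw [← Finset.sum_subset (Finset.subset_univ Ac)]
    · apply Finset.sum_congr rfl
      intro s hs
      simp [hv, hs]
    · intro s _ hs
      simp [hv, hs]
  obtain ⟨w, hw1, hwd, hw2⟩ := A.backP T T v hvP
  refine ⟨w, fun u x => (hw1 u x).trans (hnv x), fun u b => ?_, fun x i => ?_⟩
  · have := hwd u b
    rwa [← two_mul] at this
  · set δ : B → ℂ := fun s => A.st (sg x) T s - A.st (sg (flp i x)) T s with hδ
    have h1 : A.ap T Ac x - A.ap T Ac (flp i x) ≤ 2 * ‖ip (v x) δ‖ := by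
      have h2 : A.ap T Ac x - A.ap T Ac (flp i x)
          ≤ ∑ s ∈ Ac, 2 * (star (A.st (sg x) T s)
            * (A.st (sg x) T s - A.st (sg (flp i x)) T s)).re := by
        unfold ap
        rw [← Finset.sum_sub_distrib]
        exact Finset.sum_le_sum fun s _ => Evo.norm_sq_sub_le _ _
      have h3 : ∑ s ∈ Ac, 2 * (star (A.st (sg x) T s)
            * (A.st (sg x) T s - A.st (sg (flp i x)) T s)).re
          = 2 * (ip (v x) δ).re := by
        unfold ip
        rw [← Finset.mul_sum, Complex.re_sum]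
        congr 1
        rw [← Finset.sum_subset (Finset.subset_univ Ac)]
        · apply Finset.sum_congr rfl
          intro s hs
          simp [hv, hs, hδ]
        · intro s _ hs
          simp [hv, hs]
      have h4 : (ip (v x) δ).re ≤ ‖ip (v x) δ‖ := Complex.re_le_norm _
      linarith
    have h5 : ‖ip (v x) δ‖ ≤ 2 * ∑ u ∈ Finset.range T,
        ‖∑ s, (if i ∈ A.os s then star (w u x s) * A.st (sg (flp i x)) u s else 0)‖ := by
      rw [hw2 x i, norm_mul]
      have : ‖(2 : ℂ)‖ = 2 := by simp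
      rw [this]
      gcongr
      exact norm_sum_le _ _
    set c : ℕ → ℝ := fun u =>
      ‖∑ s, (if i ∈ A.os s then star (w u x s) * A.st (sg (flp i x)) u s else 0)‖ with hc
    have h6 : max 0 (A.ap T Ac x - A.ap T Ac (flp i x)) ≤ 4 * ∑ u ∈ Finset.range T, c u := by
      apply max_le
      · have : 0 ≤ ∑ u ∈ Finset.range T, c u := Finset.sum_nonneg fun u _ => norm_nonneg _
        linarith
      · linarith
    have h7 : (∑ u ∈ Finset.range T, c u) ^ 2 ≤ T * ∑ u ∈ Finset.range T, (c u) ^ 2 := by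
      have := sq_sum_le_card_mul_sum_sq (s := Finset.range T) (f := c)
      rwa [Finset.card_range] at this
    have h8 : ∑ u ∈ Finset.range T, (c u) ^ 2 ≤ ∑ u ∈ Finset.range T,
        nq A i (w u x) * A.qm (sg x) u i := by
      apply Finset.sum_le_sum
      intro u hu
      have e := A.evo.cs_filter (w u x) (A.st (sg (flp i x)) u) i
      have e1 : ∑ s ∈ Finset.univ.filter (fun s => i ∈ A.evo.Qs s), ‖w u x s‖ ^ 2
          = nq A i (w u x) := A.nq_eq i (w u x)
      have e2 : ∑ s ∈ Finset.univ.filter (fun s => i ∈ A.evo.Qs s),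
          ‖A.st (sg (flp i x)) u s‖ ^ 2 = A.qm (sg x) u i := by
        rw [← A.qm_flp h (Finset.mem_range.1 hu) i x]
        exact A.nq_eq i (A.st (sg (flp i x)) u)
      rw [e1, e2] at e
      exact e
    calc (max 0 (A.ap T Ac x - A.ap T Ac (flp i x))) ^ 2
        ≤ (4 * ∑ u ∈ Finset.range T, c u) ^ 2 := pow_le_pow_left₀ (le_max_left _ _) h6 2
      _ = 16 * (∑ u ∈ Finset.range T, c u) ^ 2 := by ring
      _ ≤ 16 * (T * ∑ u ∈ Finset.range T, (c u) ^ 2) := by gcongr
      _ ≤ 16 * (T * ∑ u ∈ Finset.range T, nq A i (w u x) * A.qm (sg x) u i) := by gcongr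
      _ = _ := by ring

lemma sum_nq_le (F : B → ℂ) : ∑ i, nq A i F ≤ nsq F :=
  A.sum_pos_le (fun b => ‖F b‖ ^ 2) fun b => by positivity

/-- The sum of the squared one-sided differences of a light algorithm. -/
theorem sum_grad {T : ℕ} (h : A.NRs T) (τ : ℝ) (hτ0 : 0 ≤ τ)
    (hτ : ∀ t < T, ∀ j, A.pm t j ≤ τ) (Ac : Finset B) :
    ∑ i, EE (fun x => (max 0 (A.ap T Ac x - A.ap T Ac (flp i x))) ^ 2)
      ≤ 16 * T * ∑ u ∈ Finset.range T,
        4 * (1 + (u : ℝ) ^ 2 * ((2 * T : ℕ) : ℝ)) ^ 2 * τ * EE (A.ap T Ac) := by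
  have hc : A.NRc T := A.NRc_of_NRs h T le_rfl
  obtain ⟨w, hw1, hwd, hw2⟩ := A.gradP h Ac
  calc ∑ i, EE (fun x => (max 0 (A.ap T Ac x - A.ap T Ac (flp i x))) ^ 2)
      ≤ ∑ i, EE (fun x => 16 * T * ∑ u ∈ Finset.range T, nq A i (w u x) * A.qm (sg x) u i) :=
        Finset.sum_le_sum fun i _ => EE_mono fun x => hw2 x i
    _ = 16 * T * ∑ u ∈ Finset.range T, ∑ i, EE (fun x => nq A i (w u x) * A.qm (sg x) u i) := by
        rw [Finset.sum_comm (s := Finset.range T), Finset.mul_sum]
        refine Finset.sum_congr rfl fun i _ => ?_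
        rw [EE_mul, EE_sum]
    _ ≤ _ := by
        gcongr with u hu
        have hu' := Finset.mem_range.1 hu
        set K : ℝ := 4 * (1 + (u : ℝ) ^ 2 * ((2 * T : ℕ) : ℝ)) ^ 2 * τ with hK
        have hK0 : 0 ≤ K := by positivity
        have e1 : ∀ i, EE (fun x => nq A i (w u x) * A.qm (sg x) u i)
            ≤ K * EE (fun x => nq A i (w u x)) := by
          intro i
          have e2 : (fun x => nq A i (w u x) * A.qm (sg x) u i)
              = fun x => ∑ b, (if A.pos b = some i then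
                ‖w u x b‖ ^ 2 * A.qm (sg x) u i else 0) := by
            funext x
            unfold nq
            rw [Finset.sum_mul]
            refine Finset.sum_congr rfl fun b _ => ?_
            split_ifs
            · rfl
            · rw [zero_mul]
          rw [e2, EE_sum]
          have e3 : EE (fun x => nq A i (w u x))
              = ∑ b, EE (fun x => if A.pos b = some i then ‖w u x b‖ ^ 2 else 0) := by
            unfold nq
            rw [EE_sum]
          rw [e3, Finset.mul_sum]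
          refine Finset.sum_le_sum fun b _ => ?_
          split_ifs
          · exact A.multP hc τ hτ0 hτ (2 * T) (hwd u b) hu' i
          · rw [EE_const]; simp
        calc ∑ i, EE (fun x => nq A i (w u x) * A.qm (sg x) u i)
            ≤ ∑ i, K * EE (fun x => nq A i (w u x)) := Finset.sum_le_sum fun i _ => e1 i
          _ = K * EE (fun x => ∑ i, nq A i (w u x)) := by
              rw [← Finset.mul_sum, EE_sum]
          _ ≤ K * EE (A.ap T Ac) := by
              gcongr
              apply EE_mono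
              intro x
              rw [← hw1 u x]
              exact A.sum_nq_le _

/-- The variance at a light node: linear bound. -/
theorem var_lin {T : ℕ} (h : A.NRs T) (τ : ℝ) (hτ0 : 0 ≤ τ)
    (hτ : ∀ t < T, ∀ j, A.pm t j ≤ τ) (Ac : Finset B) :
    EE (fun x => (A.ap T Ac x) ^ 2) - (EE (A.ap T Ac)) ^ 2
      ≤ 128 * (T : ℝ) ^ 8 * τ * EE (A.ap T Ac) := by
  have hP := poincare (A.ap T Ac)
  have h1 := A.sum_grad h τ hτ0 hτ Ac
  have hp0 : 0 ≤ EE (A.ap T Ac) := EE_nonneg (A.ap_nonneg T Ac)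
  have h2 : ∑ u ∈ Finset.range T,
        4 * (1 + (u : ℝ) ^ 2 * ((2 * T : ℕ) : ℝ)) ^ 2 * τ * EE (A.ap T Ac)
      ≤ ∑ u ∈ Finset.range T, 4 * (2 * (T : ℝ) ^ 3) ^ 2 * τ * EE (A.ap T Ac) := by
    refine Finset.sum_le_sum fun u hu => ?_
    have hu' := Finset.mem_range.1 hu
    have hu1 : (u : ℝ) + 1 ≤ T := by exact_mod_cast hu'
    have hu0 : (0 : ℝ) ≤ u := Nat.cast_nonneg u
    have e : 1 + (u : ℝ) ^ 2 * ((2 * T : ℕ) : ℝ) ≤ 2 * (T : ℝ) ^ 3 := by
      push_cast
      have e1 : (u : ℝ) ^ 2 ≤ (T - 1) ^ 2 := by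
        apply pow_le_pow_left₀ hu0
        linarith
      have hT1 : (1 : ℝ) ≤ T := by linarith
      nlinarith [mul_nonneg (sub_nonneg.2 hT1) (sub_nonneg.2 hT1)]
    gcongr
  rw [Finset.sum_const, Finset.card_range, nsmul_eq_mul] at h2
  have hT0 : (0 : ℝ) ≤ T := Nat.cast_nonneg T
  calc EE (fun x => (A.ap T Ac x) ^ 2) - (EE (A.ap T Ac)) ^ 2
      ≤ 1 / 4 * ∑ i, EE (fun x => (A.ap T Ac x - A.ap T Ac (flp i x)) ^ 2) := hP
    _ = 1 / 2 * ∑ i, EE (fun x => (max 0 (A.ap T Ac x - A.ap T Ac (flp i x))) ^ 2) := by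
        rw [Finset.sum_congr rfl fun i _ => EE_diff_sq i (fun x => A.ap T Ac x),
          ← Finset.mul_sum]
        ring
    _ ≤ 1 / 2 * (16 * T * (T * (4 * (2 * (T : ℝ) ^ 3) ^ 2 * τ * EE (A.ap T Ac)))) := by
        have := mul_le_mul_of_nonneg_left h2 (by positivity : (0 : ℝ) ≤ 16 * T)
        linarith
    _ = _ := by ring

/-- The variance at a light node of the restriction tree. -/
theorem node_lin {T : ℕ} (h : A.NRs T) (τ : ℝ) (hτ0 : 0 ≤ τ) (Ac : Finset B)
    (S : Finset (Fin N)) (a : Fin N → Bool)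
    (hl : ∀ t < T, ∀ k ∈ Sᶜ, Ex S a (fun x => A.evo.mag t k x) ≤ τ) :
    Ex S a (fun x => (A.ap T Ac x) ^ 2) - (Ex S a (A.ap T Ac)) ^ 2
      ≤ 128 * (T : ℝ) ^ 8 * τ := by
  have hpr : ∀ x, (A.res S a).ap T Ac x = A.ap T Ac (mix S a x) := by
    intro x
    unfold ap
    refine Finset.sum_congr rfl fun s _ => ?_
    rw [A.res_st]
  have hc : (A.res S a).NRc T := (A.res S a).NRc_of_NRs (A.res_NRs h S a) T le_rfl
  have h1 := (A.res S a).var_lin (A.res_NRs h S a) τ hτ0 (fun t ht k => by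
    rw [← (A.res S a).pm_eq hc ht.le k]
    by_cases hk : k ∈ S
    · have : EE (fun x => (A.res S a).qm (sg x) t k) = 0 := by
        rw [← EE_const (N := N) 0]
        apply EE_congr
        intro x
        rw [A.res_qm, if_pos hk]
      rw [this]
      exact hτ0
    · have h2 := hl t ht k (by simpa using hk)
      refine (le_of_eq ?_).trans h2
      unfold Ex
      apply EE_congr
      intro x
      rw [A.res_qm, if_neg hk]
      show _ = A.evo.mag t k (mix S a x)
      rw [A.mag_eq]) Ac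
  have e1 : EE (fun x => ((A.res S a).ap T Ac x) ^ 2)
      = Ex S a (fun x => (A.ap T Ac x) ^ 2) := by
    unfold Ex
    apply EE_congr
    intro x
    rw [hpr]
  have e2 : EE ((A.res S a).ap T Ac) = Ex S a (A.ap T Ac) := by
    unfold Ex
    apply EE_congr
    intro x
    rw [hpr]
  rw [e1, e2] at h1
  have e3 : Ex S a (A.ap T Ac) ≤ 1 :=
    (EE_mono fun x => A.ap_le_one T Ac _).trans (le_of_eq (EE_const 1))
  have e4 : 0 ≤ 128 * (T : ℝ) ^ 8 * τ := by positivity
  nlinarith

end Alg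

end Pool.Agent.TH334.NR
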